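import Pool.Agent.Lib.MP_018119_an.Defs

/-!
MP_018119_an, project CS: the exceptional vertical lines of a Jordan arc
-/

set_option autoImplicit false

noncomputable section

open MeasureTheory Filter Topology Set

namespace Pool.Agent.MP018119

/-- `Z = {Re γ(q) : q ∈ ℚ ∩ [0, 1]}`.  Let `A ⊆ γ [0,1] ∩ {Re = x}` be preconnected with two
different points.  `P = γ⁻¹ A ∩ [0, 1]` is preconnected (`γ` is a homeomorphism from `[0,1]` onto
its image, `IsCompact` and injective) and has two points, so it contains an interval and a rational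
number `q`, and `x = Re γ(q)`. -/
theorem bad_arc {γ : ℝ → ℂ} (hγ : ContinuousOn γ (Icc 0 1)) (hi : InjOn γ (Icc 0 1)) :
    ∃ Z : Set ℝ, Z.Countable ∧ ∀ x, x ∉ Z → ∀ A : Set ℂ, A ⊆ γ '' Icc 0 1 →
      (∀ z ∈ A, z.re = x) → IsPreconnected A → A.Subsingleton := by
  refine ⟨(fun q : ℚ => (γ (q : ℝ)).re) '' {q : ℚ | (q : ℝ) ∈ Icc (0 : ℝ) 1},
    (Set.to_countable _).image _, ?_⟩
  intro x hx A hA hre hAc a ha b hb
  by_contra hab
  set g : Icc (0 : ℝ) 1 → ℂ := fun t => γ t with hg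
  have hgc : Continuous g := continuousOn_iff_continuous_domRestrict.mp hγ
  have hgi : Function.Injective g := fun s t h => Subtype.ext (hi s.2 t.2 h)
  have hge : Topology.IsClosedEmbedding g := hgc.isClosedEmbedding hgi
  have himg : g '' (g ⁻¹' A) = A := by
    refine Set.image_preimage_eq_of_subset fun z hz => ?_
    obtain ⟨t, ht, rfl⟩ := hA hz
    exact ⟨⟨t, ht⟩, rfl⟩
  have hP : IsPreconnected (g ⁻¹' A) := by
    rw [← hge.isInducing.isPreconnected_image, himg]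
    exact hAc
  have hP' : IsPreconnected ((Subtype.val : Icc (0 : ℝ) 1 → ℝ) '' (g ⁻¹' A)) :=
    hP.image _ continuous_subtype_val.continuousOn
  have hord := hP'.ordConnected
  obtain ⟨s, hs, rfl⟩ := hA ha
  obtain ⟨t, ht, rfl⟩ := hA hb
  have hst : s ≠ t := fun h => hab (by rw [h])
  have hsP : s ∈ (Subtype.val : Icc (0 : ℝ) 1 → ℝ) '' (g ⁻¹' A) := ⟨⟨s, hs⟩, ha, rfl⟩
  have htP : t ∈ (Subtype.val : Icc (0 : ℝ) 1 → ℝ) '' (g ⁻¹' A) := ⟨⟨t, ht⟩, hb, rfl⟩
  have key : ∀ s t : ℝ, s < t → s ∈ (Subtype.val : Icc (0 : ℝ) 1 → ℝ) '' (g ⁻¹' A) →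
      t ∈ (Subtype.val : Icc (0 : ℝ) 1 → ℝ) '' (g ⁻¹' A) → False := by
    intro s t hlt h1 h2
    obtain ⟨q, hq1, hq2⟩ := exists_rat_btwn hlt
    obtain ⟨r, hr, hrq⟩ := hord.out h1 h2 ⟨hq1.le, hq2.le⟩
    refine hx ⟨q, ?_, ?_⟩
    · show (q : ℝ) ∈ Icc (0 : ℝ) 1
      rw [← hrq]
      exact r.2
    · show (γ (q : ℝ)).re = x
      rw [← hrq]
      exact hre _ hr
  rcases lt_or_gt_of_ne hst with h | h
  · exact key s t h hsP htP
  · exact key t s h htP hsP

end Pool.Agent.MP018119
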