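import Pool.Agent.Lib.MP_018119_an.Defs

/-!
MP_018119_an, project CS: the exceptional vertical lines of a Jordan curve
-/

set_option autoImplicit false

noncomputable section

open MeasureTheory Filter Topology Set

namespace Pool.Agent.MP018119

private lemma badB_fin (c : ℝ) : {p : Circle | (p : ℂ).re = c}.Finite := by
  have h1 : ({(⟨c, Real.sqrt (1 - c ^ 2)⟩ : ℂ), ⟨c, -Real.sqrt (1 - c ^ 2)⟩} : Set ℂ).Finite := by
    simp
  refine (h1.preimage (f := fun p : Circle => (p : ℂ)) Circle.coe_injective.injOn).subset ?_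
  intro p hp
  have hp1 : (p : ℂ).re = c := hp
  have h2 : (p : ℂ).re ^ 2 + (p : ℂ).im ^ 2 = 1 := by
    have h3 : ‖(p : ℂ)‖ ^ 2 = 1 := by rw [Circle.norm_coe]; norm_num
    rw [Complex.sq_norm, Complex.normSq_apply] at h3
    nlinarith
  rw [hp1] at h2
  have h4 : |(p : ℂ).im| = Real.sqrt (1 - c ^ 2) := by
    rw [← Real.sqrt_sq_eq_abs]
    congr 1
    linarith
  have h5 : (p : ℂ).im = Real.sqrt (1 - c ^ 2) ∨ (p : ℂ).im = -Real.sqrt (1 - c ^ 2) := by
    rw [← h4]
    exact eq_or_eq_neg_of_abs_eq rfl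
  rw [mem_preimage, mem_insert_iff, mem_singleton_iff]
  rcases h5 with h5 | h5
  · left
    exact Complex.ext hp1 h5
  · right
    exact Complex.ext hp1 h5

/-- The set `D` of the points of the circle with rational real part is countable (two points for
each real part).  `Z = {Re γ(p) : p ∈ D}`.  Let `A ⊆ range γ ∩ {Re = x}` be preconnected with two
different points.  `P = γ⁻¹ A` is preconnected (`γ` is a closed embedding) and has two points.  The
real parts of the points of `P` form a preconnected subset of `ℝ`.  If it has two points it contains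
a rational number, `P` contains a point of `D` and `x ∈ Z`.  Otherwise `P` is contained in a set of
two points `{p | Re p = c}`, which is finite, so `P` is a subsingleton. -/
theorem bad_circle {γ : Circle → ℂ} (hγ : Continuous γ) (hi : Function.Injective γ) :
    ∃ Z : Set ℝ, Z.Countable ∧ ∀ x, x ∉ Z → ∀ A : Set ℂ, A ⊆ range γ →
      (∀ z ∈ A, z.re = x) → IsPreconnected A → A.Subsingleton := by
  have hD : (⋃ q : ℚ, {p : Circle | (p : ℂ).re = q}).Countable :=
    countable_iUnion fun q => (badB_fin q).countable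
  refine ⟨(fun p => (γ p).re) '' (⋃ q : ℚ, {p : Circle | (p : ℂ).re = q}), hD.image _, ?_⟩
  intro x hx A hA hAx hAp
  have hP : IsPreconnected (γ ⁻¹' A) :=
    hAp.preimage_of_isClosedMap hi hγ.isClosedMap hA
  have hR : IsPreconnected ((fun p : Circle => (p : ℂ).re) '' (γ ⁻¹' A)) :=
    hP.image _ (Complex.continuous_re.comp continuous_subtype_val).continuousOn
  have hkey : ∀ a ∈ (fun p : Circle => (p : ℂ).re) '' (γ ⁻¹' A),
      ∀ b ∈ (fun p : Circle => (p : ℂ).re) '' (γ ⁻¹' A), ¬ a < b := by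
    intro a ha b hb hab
    obtain ⟨q, hq1, hq2⟩ := exists_rat_btwn hab
    obtain ⟨p, hp, hpq⟩ := hR.Icc_subset ha hb ⟨hq1.le, hq2.le⟩
    exact hx ⟨p, mem_iUnion.mpr ⟨q, hpq⟩, hAx _ hp⟩
  have hPs : (γ ⁻¹' A).Subsingleton := by
    by_contra hns
    rw [not_subsingleton_iff] at hns
    have hinf := hP.infinite_of_nontrivial hns
    obtain ⟨p₀, hp₀⟩ := hns.nonempty
    refine hinf ((badB_fin (p₀ : ℂ).re).subset fun p hp => ?_)
    have h1 := hkey _ (mem_image_of_mem _ hp) _ (mem_image_of_mem _ hp₀)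
    have h2 := hkey _ (mem_image_of_mem _ hp₀) _ (mem_image_of_mem _ hp)
    exact le_antisymm (not_lt.mp h2) (not_lt.mp h1)
  intro z₁ hz₁ z₂ hz₂
  obtain ⟨p₁, rfl⟩ := hA hz₁
  obtain ⟨p₂, rfl⟩ := hA hz₂
  rw [hPs hz₁ hz₂]

end Pool.Agent.MP018119
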