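import Pool.Agent.Lib.MP_018119_an.Kern

/-!
MP_018119_an, project CS: the Cauchy transform off the support
-/

set_option autoImplicit false

noncomputable section

open MeasureTheory Filter Topology Set

namespace Pool.Agent.MP018119

variable {μ : Measure ℂ} {K : Set ℂ}

private theorem cau_ae (hμ : μ Kᶜ = 0) : ∀ᵐ ζ ∂μ, ζ ∈ K := mem_ae_iff.2 hμ

private theorem cau_dist (hK : IsClosed K) {z : ℂ} (hz : z ∉ K) :
    ∃ ρ > 0, ∀ ζ ∈ K, ρ ≤ ‖z - ζ‖ := by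
  obtain ⟨ρ, hρ, h⟩ := Metric.isOpen_iff.1 hK.isOpen_compl z hz
  refine ⟨ρ, hρ, fun ζ hζ => ?_⟩
  by_contra hc
  rw [not_le, ← dist_eq_norm, dist_comm] at hc
  exact h hc hζ

private theorem cau_meas (z : ℂ) : AEStronglyMeasurable (fun ζ : ℂ => 1 / (z - ζ)) μ := by
  have h1 : Measurable (fun ζ : ℂ => 1 / (z - ζ)) := by fun_prop
  exact h1.aestronglyMeasurable

private theorem cau_int [IsFiniteMeasure μ] (hμ : μ Kᶜ = 0) {z : ℂ} {ρ : ℝ} (hρ : 0 < ρ)
    (h : ∀ ζ ∈ K, ρ ≤ ‖z - ζ‖) : Integrable (fun ζ : ℂ => 1 / (z - ζ)) μ := by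
  refine Integrable.of_bound (cau_meas z) (1 / ρ) ?_
  filter_upwards [cau_ae hμ] with ζ hζ
  rw [norm_div, norm_one]
  exact one_div_le_one_div_of_le hρ (h ζ hζ)

private theorem cau_inv {z ζ : ℂ} (h : z - ζ ≠ 0) : 1 / (z - ζ) =
    (((z.re - ζ.re : ℝ) : ℂ) - ((z.im - ζ.im : ℝ) : ℂ) * Complex.I) /
      (((z.re - ζ.re) ^ 2 + (z.im - ζ.im) ^ 2 : ℝ) : ℂ) := by
  have h0 : (((z.re - ζ.re) ^ 2 + (z.im - ζ.im) ^ 2 : ℝ) : ℂ) ≠ 0 := by
    have h1 : (z.re - ζ.re) ^ 2 + (z.im - ζ.im) ^ 2 = Complex.normSq (z - ζ) := by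
      rw [Complex.normSq_apply]
      simp
      ring
    rw [h1]
    exact_mod_cast (Complex.normSq_pos.2 h).ne'
  have e1 : z - ζ = ((z.re - ζ.re : ℝ) : ℂ) + ((z.im - ζ.im : ℝ) : ℂ) * Complex.I := by
    apply Complex.ext <;> simp
  rw [div_eq_div_iff h h0, e1]
  push_cast
  linear_combination ((z.im : ℂ) - ζ.im) ^ 2 * Complex.I_sq

/-- dominated convergence: `‖kd‖ ≤ 1 / ρ` (`norm_kd_le'`), `ρ` the distance of `z` to `K`, and
`kd δ s t → (s - i t) / (s² + t²) = 1 / (s + i t)` -/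
theorem tendsto_kd_cauchy [IsFiniteMeasure μ] (hK : IsClosed K) (hμ : μ Kᶜ = 0) {z : ℂ}
    (hz : z ∉ K) :
    Tendsto (fun δ : ℝ => ∫ ζ : ℂ, kd δ (z.re - ζ.re) (z.im - ζ.im) ∂μ) (𝓝[>] 0)
      (𝓝 (∫ ζ : ℂ, 1 / (z - ζ) ∂μ)) := by
  obtain ⟨ρ, hρ, hd⟩ := cau_dist hK hz
  have hsq : ∀ ζ ∈ K, ρ ^ 2 ≤ (z.re - ζ.re) ^ 2 + (z.im - ζ.im) ^ 2 := by
    intro ζ hζ
    have h1 : (z.re - ζ.re) ^ 2 + (z.im - ζ.im) ^ 2 = ‖z - ζ‖ ^ 2 := by
      rw [← Complex.normSq_eq_norm_sq, Complex.normSq_apply]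
      simp
      ring
    rw [h1]
    exact pow_le_pow_left₀ hρ.le (hd ζ hζ) 2
  refine tendsto_integral_filter_of_dominated_convergence (fun _ => 1 / ρ) ?_ ?_
    (integrable_const _) ?_
  · filter_upwards [self_mem_nhdsWithin] with δ hδ
    have h1 : Continuous fun ζ : ℂ => kd δ (z.re - ζ.re) (z.im - ζ.im) := by
      have h2 : Continuous fun ζ : ℂ => ((z.re - ζ.re, z.im - ζ.im) : ℝ × ℝ) :=
        (continuous_const.sub Complex.continuous_re).prodMk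
          (continuous_const.sub Complex.continuous_im)
      exact (continuous_kd hδ).comp h2
    exact h1.aestronglyMeasurable
  · filter_upwards [self_mem_nhdsWithin] with δ hδ
    filter_upwards [cau_ae hμ] with ζ hζ
    exact norm_kd_le' hδ hρ (hsq ζ hζ)
  · filter_upwards [cau_ae hμ] with ζ hζ
    have hne : z - ζ ≠ 0 := fun h => by
      have := hd ζ hζ
      rw [h, norm_zero] at this
      linarith
    rw [cau_inv hne]
    have hp : 0 < (z.re - ζ.re) ^ 2 + (z.im - ζ.im) ^ 2 := (pow_pos hρ 2).trans_le (hsq ζ hζ)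
    unfold kd
    refine Tendsto.div tendsto_const_nhds ?_ ?_
    · have h1 : Tendsto (fun δ : ℝ => qq δ (z.re - ζ.re) (z.im - ζ.im)) (𝓝[>] 0)
          (𝓝 ((z.re - ζ.re) ^ 2 + (z.im - ζ.im) ^ 2)) := by
        have h2 : Continuous fun δ : ℝ => qq δ (z.re - ζ.re) (z.im - ζ.im) := by
          unfold qq
          fun_prop
        have h3 := h2.tendsto 0
        have h4 : qq 0 (z.re - ζ.re) (z.im - ζ.im) =
            (z.re - ζ.re) ^ 2 + (z.im - ζ.im) ^ 2 := by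
          unfold qq
          ring
        rw [h4] at h3
        exact h3.mono_left nhdsWithin_le_nhds
      exact (Complex.continuous_ofReal.tendsto _).comp h1
    · exact_mod_cast hp.ne'

/-- differentiation under the integral sign on a small disc around a point of `Kᶜ`
(`hasDerivAt_integral_of_dominated_loc_of_deriv_le`) -/
theorem differentiableOn_cauchy [IsFiniteMeasure μ] (hK : IsClosed K) (hμ : μ Kᶜ = 0) :
    DifferentiableOn ℂ (fun z => ∫ ζ : ℂ, 1 / (z - ζ) ∂μ) Kᶜ := by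
  intro z hz
  obtain ⟨ρ, hρ, hd⟩ := cau_dist hK hz
  have hd2 : ∀ w ∈ Metric.ball z (ρ / 2), ∀ ζ ∈ K, ρ / 2 ≤ ‖w - ζ‖ := by
    intro w hw ζ hζ
    rw [Metric.mem_ball, dist_eq_norm, norm_sub_rev] at hw
    have h1 : ‖z - ζ‖ ≤ ‖z - w‖ + ‖w - ζ‖ := by
      calc ‖z - ζ‖ = ‖(z - w) + (w - ζ)‖ := by ring_nf
        _ ≤ ‖z - w‖ + ‖w - ζ‖ := norm_add_le _ _
    linarith [hd ζ hζ]
  have key := hasDerivAt_integral_of_dominated_loc_of_deriv_le (μ := μ) (𝕜 := ℂ)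
    (F := fun w ζ : ℂ => 1 / (w - ζ)) (F' := fun w ζ : ℂ => -1 / (w - ζ) ^ 2) (x₀ := z)
    (bound := fun _ => 1 / (ρ / 2) ^ 2) (Metric.ball_mem_nhds z (half_pos hρ))
    (Eventually.of_forall fun w => cau_meas w) (cau_int hμ hρ hd)
    (by
      have h1 : Measurable (fun ζ : ℂ => -1 / (z - ζ) ^ 2) := by fun_prop
      exact h1.aestronglyMeasurable)
    (by
      filter_upwards [cau_ae hμ] with ζ hζ
      intro w hw
      rw [norm_div, norm_neg, norm_one, norm_pow]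
      exact one_div_le_one_div_of_le (by positivity)
        (pow_le_pow_left₀ (half_pos hρ).le (hd2 w hw ζ hζ) 2))
    (integrable_const _)
    (by
      filter_upwards [cau_ae hμ] with ζ hζ
      intro w hw
      have hne : w - ζ ≠ 0 := fun h => by
        have := hd2 w hw ζ hζ
        rw [h, norm_zero] at this
        linarith
      have h1 := ((hasDerivAt_id w).sub_const ζ).inv hne
      have h2 : HasDerivAt (fun x : ℂ => (x - ζ)⁻¹) (-1 / (w - ζ) ^ 2) w := h1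
      simpa only [one_div] using h2)
  exact key.2.differentiableAt.differentiableWithinAt

/-- the Cauchy transform is small far away: `‖1 / (z - ζ)‖ ≤ 1 / (‖z‖ - R)` on `K` -/
theorem cauchy_tendsto [IsFiniteMeasure μ] (hK : IsCompact K) (hμ : μ Kᶜ = 0) :
    Tendsto (fun z : ℂ => ∫ ζ : ℂ, 1 / (z - ζ) ∂μ) (cocompact ℂ) (𝓝 0) := by
  obtain ⟨R, hR⟩ := hK.isBounded.exists_norm_le
  have h1 : Tendsto (fun z : ℂ => 1 / (‖z‖ - R) * μ.real Set.univ) (cocompact ℂ) (𝓝 0) := by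
    have h2 : Tendsto (fun z : ℂ => ‖z‖ - R) (cocompact ℂ) atTop :=
      tendsto_atTop_add_const_right _ (-R) tendsto_norm_cocompact_atTop
    have h3 := (h2.inv_tendsto_atTop).mul_const (μ.real Set.univ)
    rw [zero_mul] at h3
    refine h3.congr fun z => ?_
    rw [Pi.inv_apply, one_div]
  refine squeeze_zero_norm' ?_ h1
  have h4 : ∀ᶠ z : ℂ in cocompact ℂ, R < ‖z‖ :=
    tendsto_norm_cocompact_atTop.eventually (eventually_gt_atTop R)
  filter_upwards [h4] with z hz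
  refine norm_integral_le_of_norm_le_const ?_
  filter_upwards [cau_ae hμ] with ζ hζ
  have h5 : ‖z‖ - R ≤ ‖z - ζ‖ := by
    have h6 : ‖z‖ ≤ ‖z - ζ‖ + ‖ζ‖ := by
      calc ‖z‖ = ‖(z - ζ) + ζ‖ := by ring_nf
        _ ≤ ‖z - ζ‖ + ‖ζ‖ := norm_add_le _ _
    linarith [hR ζ hζ]
  rw [norm_div, norm_one]
  exact one_div_le_one_div_of_le (by linarith) h5

/-- `Re (1 / (x - ζ)) > 0` for `ζ ∈ K` and real `x > R` -/
theorem cauchy_ne [IsFiniteMeasure μ] (h0 : μ ≠ 0) (hK : IsCompact K) (hμ : μ Kᶜ = 0) :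
    ∃ R : ℝ, ∀ x : ℝ, R < x → (x : ℂ) ∉ K ∧ ∫ ζ : ℂ, 1 / ((x : ℂ) - ζ) ∂μ ≠ 0 := by
  obtain ⟨R, hR⟩ := hK.isBounded.exists_norm_le
  refine ⟨max R 0, fun x hx => ?_⟩
  have hx0 : 0 < x := (le_max_right _ _).trans_lt hx
  have hxR : R < x := (le_max_left _ _).trans_lt hx
  have hxn : ‖(x : ℂ)‖ = x := by rw [Complex.norm_real, Real.norm_eq_abs, abs_of_pos hx0]
  have hxK : (x : ℂ) ∉ K := fun h => by
    have := hR _ h
    rw [hxn] at this
    linarith
  refine ⟨hxK, fun hI => ?_⟩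
  obtain ⟨ρ, hρ, hd⟩ := cau_dist hK.isClosed hxK
  have hint := cau_int hμ hρ hd
  have h1 : ∫ ζ : ℂ, (1 / ((x : ℂ) - ζ)).re ∂μ = 0 := by
    have h2 := Complex.reCLM.integral_comp_comm hint
    rw [hI, map_zero] at h2
    exact h2
  have hc : 0 < (x - R) / (2 * x) ^ 2 := div_pos (by linarith) (by positivity)
  have h3 : ∀ᵐ ζ ∂μ, (x - R) / (2 * x) ^ 2 ≤ (1 / ((x : ℂ) - ζ)).re := by
    filter_upwards [cau_ae hμ] with ζ hζ
    have hn := hR ζ hζ
    have hre : |ζ.re| ≤ R := (Complex.abs_re_le_norm ζ).trans hn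
    rw [abs_le] at hre
    have hne : (x : ℂ) - ζ ≠ 0 := fun h => by
      have := hd ζ hζ
      rw [h, norm_zero] at this
      linarith
    have h4 : (1 / ((x : ℂ) - ζ)).re = (x - ζ.re) / Complex.normSq ((x : ℂ) - ζ) := by
      rw [one_div, Complex.inv_re]
      simp
    have h5 : Complex.normSq ((x : ℂ) - ζ) ≤ (2 * x) ^ 2 := by
      rw [Complex.normSq_eq_norm_sq]
      refine pow_le_pow_left₀ (norm_nonneg _) ?_ 2
      refine (norm_sub_le _ _).trans ?_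
      rw [hxn]
      linarith
    rw [h4]
    exact div_le_div₀ (by linarith) (by linarith) (Complex.normSq_pos.2 hne) h5
  have h6 : ∫ _ζ : ℂ, (x - R) / (2 * x) ^ 2 ∂μ ≤ ∫ ζ : ℂ, (1 / ((x : ℂ) - ζ)).re ∂μ :=
    integral_mono_ae (integrable_const _) hint.re h3
  rw [h1, integral_const, smul_eq_mul] at h6
  have h7 : 0 < μ.real Set.univ := by
    rw [measureReal_def]
    exact ENNReal.toReal_pos (Measure.measure_univ_ne_zero.2 h0) (measure_ne_top _ _)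
  have h8 := mul_pos h7 hc
  linarith

end Pool.Agent.MP018119
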