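import Pool.Agent.Lib.MP_018119_an.Kern

/-!
MP_018119_an, project CS: integrals over the parts of the measure in half planes
-/

set_option autoImplicit false

noncomputable section

open MeasureTheory Filter Topology Set

namespace Pool.Agent.MP018119

variable {μ : Measure ℂ} {h h' : ℝ → ℝ → ℝ}

private theorem SlInt_cont (hd : Dens μ h h') (x : ℝ) : Continuous (h x) :=
  continuous_iff_continuousAt.2 fun y => (hd.deriv x y).continuousAt

private theorem SlInt_meas (x : ℝ) : MeasurableSet {z : ℂ | z.re ≤ x} :=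
  measurableSet_le Complex.measurable_re measurable_const

/-- The image of `μ` restricted to `{Re ≤ x}` under `Im` has density `h x` (`Measure.ext`). -/
theorem Dens.map_eq (hd : Dens μ h h') (x : ℝ) :
    (μ.restrict {z | z.re ≤ x}).map Complex.im =
      volume.withDensity (fun y => ENNReal.ofReal (h x y)) := by
  refine Measure.ext fun s hs => ?_
  rw [Measure.map_apply Complex.measurable_im hs, withDensity_apply _ hs,
    Measure.restrict_apply (Complex.measurable_im hs), ← hd.dens x s hs]
  congr 1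
  ext z
  simp only [mem_inter_iff, mem_preimage, mem_setOf_eq]
  exact and_comm

/-- `h x` is continuous (it is differentiable) and nonnegative: `integral_map`,
`integral_withDensity_eq_integral_toReal_smul` or the `NNReal` version. -/
theorem Dens.integral_eq (hd : Dens μ h h') (x : ℝ) {Ψ : ℝ → ℂ} (hΨ : Continuous Ψ) :
    ∫ z in {z : ℂ | z.re ≤ x}, Ψ z.im ∂μ = ∫ y : ℝ, (h x y : ℂ) * Ψ y := by
  have h1 : ∫ z in {z : ℂ | z.re ≤ x}, Ψ z.im ∂μ =
      ∫ y, Ψ y ∂((μ.restrict {z | z.re ≤ x}).map Complex.im) :=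
    (integral_map Complex.measurable_im.aemeasurable hΨ.aestronglyMeasurable).symm
  rw [h1, hd.map_eq x, integral_withDensity_eq_integral_toReal_smul
    (SlInt_cont hd x).measurable.ennreal_ofReal
    (Eventually.of_forall fun y => ENNReal.ofReal_lt_top)]
  refine integral_congr_ae (Eventually.of_forall fun y => ?_)
  change (ENNReal.ofReal (h x y)).toReal • Ψ y = (h x y : ℂ) * Ψ y
  rw [ENNReal.toReal_ofReal (hd.nonneg x y), Complex.real_smul]

/-- Otherwise `h x > h x'` on a neighbourhood `B` of `y`, but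
`μ {Re ≤ x, Im ∈ B} ≤ μ {Re ≤ x', Im ∈ B} < ∞`. -/
theorem Dens.mono [IsFiniteMeasure μ] (hd : Dens μ h h') {x x' : ℝ} (hx : x ≤ x') (y : ℝ) :
    h x y ≤ h x' y := by
  by_contra hcon
  have hy : h x' y < h x y := not_le.1 hcon
  have ho : IsOpen {y | h x' y < h x y} :=
    isOpen_lt (SlInt_cont hd x') (SlInt_cont hd x)
  have hm := ho.measurableSet
  have h1 := hd.dens x _ hm
  have h2 := hd.dens x' _ hm
  have h3 : μ {z | z.re ≤ x ∧ z.im ∈ {y | h x' y < h x y}} ≤
      μ {z | z.re ≤ x' ∧ z.im ∈ {y | h x' y < h x y}} :=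
    measure_mono fun z hz => ⟨hz.1.trans hx, hz.2⟩
  rw [h1, h2] at h3
  have h4 : ∫⁻ y in {y | h x' y < h x y}, ENNReal.ofReal (h x' y) ≠ ⊤ := by
    rw [← h2]
    exact measure_ne_top _ _
  have h5 : (volume : Measure ℝ) {y | h x' y < h x y} ≠ 0 :=
    (ho.measure_pos volume ⟨y, hy⟩).ne'
  have h6 := setLIntegral_strict_mono hm h5 (SlInt_cont hd x).measurable.ennreal_ofReal h4
    (Eventually.of_forall fun t ht => by
      have ht' : h x' t < h x t := ht
      exact (ENNReal.ofReal_lt_ofReal_iff ((hd.nonneg x' t).trans_lt ht')).2 ht')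
  exact absurd h3 (not_le.2 h6)

end Pool.Agent.MP018119
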