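import Pool.Agent.Lib.MP_018119_an.Holm
import Pool.Agent.Lib.MP_018119_an.SlInt

/-!
MP_018119_an, project CS: consequences of the hypotheses for cutting
-/

set_option autoImplicit false

noncomputable section

open MeasureTheory Filter Topology Set

namespace Pool.Agent.MP018119

variable {μ : Measure ℂ} {h h' : ℝ → ℝ → ℝ} {S β : ℝ}

/-- `md` and `small_of_holder` for `h x' - h x` -/
theorem Cls.uc (hc : Cls μ h h' S β) (hS : 0 < S) (hβ : 0 < β) :
    ∀ η > 0, ∃ δ > 0, ∀ x x', x ≤ x' → x' ≤ x + δ → ∀ y, |h x' y - h x y| ≤ η := by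
  intro η hη
  obtain ⟨C, hC⟩ : ∃ C, C = (2 * S + 1) ^ β * (2 * S + 1) := ⟨_, rfl⟩
  have hC0 : 0 < C := by
    rw [hC]
    positivity
  obtain ⟨δ, hδ, h1⟩ := hc.md (η / C) (div_pos hη hC0)
  refine ⟨δ, hδ, fun x x' hx hx' y => ?_⟩
  have h2 := (small_of_holder (f := fun y => h x' y - h x y) (f' := fun y => h' x' y - h' x y)
    hS hβ (fun y => (hc.deriv x' y).sub (hc.deriv x y))
    (fun y hy => by rw [hc.supp x' y hy, hc.supp x y hy, sub_zero]) (h1 x x' hx hx') y).2
  refine h2.trans (le_of_eq ?_)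
  rw [mul_assoc, ← hC]
  field_simp

/-- uniform continuity in `x`, continuity in `y` -/
theorem Cls.cont (hc : Cls μ h h' S β) (hS : 0 < S) (hβ : 0 < β) :
    Continuous (fun p : ℝ × ℝ => h p.1 p.2) := by
  rw [Metric.continuous_iff]
  intro p ε hε
  obtain ⟨δ₁, hδ₁, h1⟩ := hc.uc hS hβ (ε / 2) (half_pos hε)
  obtain ⟨δ₂, hδ₂, h2⟩ := Metric.continuousAt_iff.1 (hc.deriv p.1 p.2).continuousAt (ε / 2)
    (half_pos hε)
  refine ⟨min δ₁ δ₂, lt_min hδ₁ hδ₂, fun q hq => ?_⟩
  rw [Prod.dist_eq, max_lt_iff] at hq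
  have h3 : |q.1 - p.1| < δ₁ := hq.1.trans_le (min_le_left _ _)
  have h4 : dist (h p.1 q.2) (h p.1 p.2) < ε / 2 := h2 (hq.2.trans_le (min_le_right _ _))
  rw [abs_lt] at h3
  have h5 : dist (h q.1 q.2) (h p.1 q.2) ≤ ε / 2 := by
    rcases le_total p.1 q.1 with h6 | h6
    · exact h1 p.1 q.1 h6 (by linarith) q.2
    · rw [dist_comm]
      exact h1 q.1 p.1 h6 (by linarith) q.2
  calc dist (h q.1 q.2) (h p.1 p.2) ≤ dist (h q.1 q.2) (h p.1 q.2) +
        dist (h p.1 q.2) (h p.1 p.2) := dist_triangle _ _ _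
    _ < ε := by linarith

/-- `μ {x - δ < Re ≤ x} = ∫ (h x y - h (x - δ) y) dy ≤ 2 S η` -/
theorem Cls.line [IsFiniteMeasure μ] (hc : Cls μ h h' S β) (hS : 0 < S) (hβ : 0 < β) (x : ℝ) :
    μ {z | z.re = x} = 0 := by
  have key : ∀ η > 0, μ {z | z.re = x} ≤ ENNReal.ofReal (η * (2 * S)) := by
    intro η hη
    obtain ⟨δ, hδ, h1⟩ := hc.uc hS hβ η hη
    have hm : ∀ a : ℝ, MeasurableSet {z : ℂ | z.re ≤ a} := fun a =>
      measurableSet_le Complex.measurable_re measurable_const
    have hd : ∀ a : ℝ, μ {z : ℂ | z.re ≤ a} = ∫⁻ y, ENNReal.ofReal (h a y) := by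
      intro a
      have h2 := hc.dens a univ MeasurableSet.univ
      rw [Measure.restrict_univ] at h2
      rw [← h2]
      congr 1
      ext z
      simp
    have h3 : Disjoint {z : ℂ | z.re = x} {z : ℂ | z.re ≤ x - δ} := by
      rw [Set.disjoint_left]
      intro z hz hz'
      simp only [mem_ofPred_eq] at hz hz'
      linarith
    have h4 : μ {z : ℂ | z.re = x} + μ {z : ℂ | z.re ≤ x - δ} ≤ μ {z : ℂ | z.re ≤ x} := by
      rw [← measure_union h3 (hm _)]
      refine measure_mono ?_
      rintro z (hz | hz)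
      · exact le_of_eq hz
      · simp only [mem_ofPred_eq] at hz ⊢
        linarith
    have h5 : μ {z : ℂ | z.re ≤ x} ≤ μ {z : ℂ | z.re ≤ x - δ} +
        ENNReal.ofReal (η * (2 * S)) := by
      rw [hd, hd]
      have h6 : ∀ y, ENNReal.ofReal (h x y) ≤ ENNReal.ofReal (h (x - δ) y) +
          (Icc (-S) S).indicator (fun _ => ENNReal.ofReal η) y := by
        intro y
        by_cases hy : y ∈ Icc (-S) S
        · rw [indicator_of_mem hy]
          have h7 := (abs_le.1 (h1 (x - δ) x (by linarith) (by linarith) y)).2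
          exact (ENNReal.ofReal_le_ofReal (by linarith)).trans ENNReal.ofReal_add_le
        · have h8 : S < |y| := by
            by_contra h9
            exact hy (abs_le.1 (not_lt.1 h9))
          rw [hc.supp x y h8, ENNReal.ofReal_zero]
          exact zero_le
      have hmeas : Measurable fun y => ENNReal.ofReal (h (x - δ) y) := by
        have h10 : Continuous (h (x - δ)) :=
          continuous_iff_continuousAt.2 fun y => (hc.deriv (x - δ) y).continuousAt
        exact h10.measurable.ennreal_ofReal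
      refine (lintegral_mono h6).trans ?_
      rw [lintegral_add_left hmeas, lintegral_indicator measurableSet_Icc,
        setLIntegral_const, Real.volume_Icc, ← ENNReal.ofReal_mul hη.le]
      have h11 : S - -S = 2 * S := by ring
      rw [h11]
    have h12 := h4.trans h5
    rw [add_comm] at h12
    exact (ENNReal.add_le_add_iff_left (measure_ne_top μ _)).1 h12
  by_contra hne
  obtain ⟨m, hm⟩ : ∃ m, m = (μ {z : ℂ | z.re = x}).toReal := ⟨_, rfl⟩
  have hm0 : 0 < m := by
    rw [hm]
    exact ENNReal.toReal_pos hne (measure_ne_top μ _)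
  have h1 := key (m / (4 * S)) (by positivity)
  have h2 : m / (4 * S) * (2 * S) = m / 2 := by
    field_simp
    norm_num
  rw [h2, ← ENNReal.toReal_le_toReal (measure_ne_top μ _) ENNReal.ofReal_ne_top,
    ENNReal.toReal_ofReal (by positivity), ← hm] at h1
  linarith

end Pool.Agent.MP018119
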