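import Pool.Agent.Lib.MP_018119_an.Clc

/-!
MP_018119_an, project CS: removing one strip
-/

set_option autoImplicit false

noncomputable section

open MeasureTheory Filter Topology Set

namespace Pool.Agent.MP018119

variable {μ : Measure ℂ} {h h' : ℝ → ℝ → ℝ} {S β : ℝ}

private theorem cut_meas_E (x : ℝ) {B : Set ℝ} (hB : MeasurableSet B) :
    MeasurableSet {z : ℂ | z.re ≤ x ∧ z.im ∈ B} :=
  (measurableSet_le Complex.measurable_re measurable_const).inter
    (Complex.measurable_im hB)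

private theorem cut_meas_T (a b : ℝ) : MeasurableSet {z : ℂ | z.re ≤ a ∨ b ≤ z.re} :=
  (measurableSet_le Complex.measurable_re measurable_const).union
    (measurableSet_le measurable_const Complex.measurable_re)

/-- `{Re ≤ x, Im ∈ B, Re ≤ a or b ≤ Re}` is, up to the null set `{Re = b}` (`Cls.line`), the set
`{Re ≤ x, Im ∈ B}` minus `{Re ≤ min b x, Im ∈ B}` plus `{Re ≤ min a x, Im ∈ B}`; all the measures
are finite. -/
theorem cut_dens [IsFiniteMeasure μ] (hc : Cls μ h h' S β) (hS : 0 < S) (hβ : 0 < β) {a b : ℝ}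
    (hab : a ≤ b) : Dens (μ.restrict {z | z.re ≤ a ∨ b ≤ z.re}) (cut a b h) (cut a b h') := by
  have hd := hc.toDens
  have hnn : ∀ x y, 0 ≤ cut a b h x y := by
    intro x y
    have h1 := hd.mono (min_le_right b x) y
    have h2 := hd.nonneg (min a x) y
    unfold cut
    linarith
  have hcont : ∀ x, Continuous (h x) := fun x =>
    continuous_iff_continuousAt.2 fun y => (hd.deriv x y).continuousAt
  have hcc : ∀ x, Continuous (cut a b h x) := fun x =>
    (hcont x).sub ((hcont _).sub (hcont _))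
  refine ⟨hnn, ?_, ?_⟩
  · intro x B hB
    obtain ⟨s, hs⟩ : ∃ s : Set ℂ, s = {z : ℂ | z.re ≤ x ∧ z.im ∈ B} ∩
      {z : ℂ | z.re ≤ a ∨ b ≤ z.re} := ⟨_, rfl⟩
    obtain ⟨t, ht⟩ : ∃ t : Set ℂ, t = {z : ℂ | z.re ≤ min b x ∧ z.im ∈ B} := ⟨_, rfl⟩
    have htm : MeasurableSet t := by
      rw [ht]
      exact cut_meas_E _ hB
    have h1 : s ∪ t = {z : ℂ | z.re ≤ x ∧ z.im ∈ B} := by
      rw [hs, ht]
      ext z
      simp only [mem_union, mem_inter_iff, Set.mem_ofPred_eq, le_min_iff]
      constructor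
      · rintro (⟨h2, _⟩ | ⟨⟨_, h2⟩, h3⟩)
        · exact h2
        · exact ⟨h2, h3⟩
      · rintro ⟨h2, h3⟩
        rcases le_total z.re b with h4 | h4
        · exact Or.inr ⟨⟨h4, h2⟩, h3⟩
        · exact Or.inl ⟨⟨h2, h3⟩, Or.inr h4⟩
    have h2 : μ (s ∩ t) = μ {z : ℂ | z.re ≤ min a x ∧ z.im ∈ B} := by
      refine le_antisymm ?_ ?_
      · refine (measure_mono (t := {z : ℂ | z.re ≤ min a x ∧ z.im ∈ B} ∪ {z | z.re = b})
          ?_).trans ((measure_union_le _ _).trans ?_)
        · rw [hs, ht]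
          rintro z ⟨⟨⟨h3, h4⟩, h5⟩, h6, _⟩
          rw [le_min_iff] at h6
          rcases h5 with h5 | h5
          · exact Or.inl ⟨le_min h5 h3, h4⟩
          · exact Or.inr (le_antisymm h6.1 h5)
        · rw [hc.line hS hβ b, add_zero]
      · refine measure_mono ?_
        rw [hs, ht]
        rintro z ⟨h3, h4⟩
        rw [le_min_iff] at h3
        exact ⟨⟨⟨h3.2, h4⟩, Or.inl h3.1⟩, le_min (h3.1.trans hab) h3.2, h4⟩
    have h3 := measure_union_add_inter s htm (μ := μ)
    rw [h1, h2, hd.dens x B hB, hd.dens (min a x) B hB, ht, hd.dens (min b x) B hB] at h3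
    have h4 : (∫⁻ y in B, ENNReal.ofReal (h x y)) + ∫⁻ y in B, ENNReal.ofReal (h (min a x) y) =
        (∫⁻ y in B, ENNReal.ofReal (cut a b h x y)) +
          ∫⁻ y in B, ENNReal.ofReal (h (min b x) y) := by
      rw [← lintegral_add_left (hcont x).measurable.ennreal_ofReal,
        ← lintegral_add_left (hcc x).measurable.ennreal_ofReal]
      refine lintegral_congr fun y => ?_
      rw [← ENNReal.ofReal_add (hd.nonneg _ _) (hd.nonneg _ _),
        ← ENNReal.ofReal_add (hnn _ _) (hd.nonneg _ _)]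
      congr 1
      unfold cut
      ring
    rw [h4] at h3
    have h5 : (∫⁻ y in B, ENNReal.ofReal (h (min b x) y)) ≠ ⊤ := by
      rw [← hd.dens (min b x) B hB]
      exact measure_ne_top _ _
    rw [Measure.restrict_apply (cut_meas_E x hB), ← hs]
    exact ((ENNReal.add_left_inj h5).1 h3).symm
  · intro x y
    exact (hd.deriv x y).sub ((hd.deriv _ y).sub (hd.deriv _ y))

/-- The increments of `cut a b h'` between `x` and `x' ≤ x + δ` are combinations of three increments
of `h'` over intervals of length at most `δ`. -/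
theorem cut_cls [IsFiniteMeasure μ] (hc : Cls μ h h' S β) (hS : 0 < S) (hβ : 0 < β) {a b : ℝ}
    (hab : a ≤ b) : Cls (μ.restrict {z | z.re ≤ a ∨ b ≤ z.re}) (cut a b h) (cut a b h') S β := by
  refine ⟨cut_dens hc hS hβ hab, ?_, ?_, ?_⟩
  · intro x y hy
    unfold cut
    rw [hc.supp _ y hy, hc.supp _ y hy, hc.supp _ y hy]
    ring
  · obtain ⟨M, hM⟩ := hc.bdd
    refine ⟨3 * M, fun x y y' => ?_⟩
    have h1 := abs_le.1 (hM x y y')
    have h2 := abs_le.1 (hM (min b x) y y')
    have h3 := abs_le.1 (hM (min a x) y y')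
    unfold cut
    rw [abs_le]
    constructor <;> linarith [h1.1, h1.2, h2.1, h2.2, h3.1, h3.2]
  · intro η hη
    obtain ⟨δ, hδ, hmd⟩ := hc.md (η / 3) (by positivity)
    refine ⟨δ, hδ, fun x x' hx hx' y y' => ?_⟩
    have hmin : ∀ c : ℝ, min c x ≤ min c x' ∧ min c x' ≤ min c x + δ := by
      intro c
      refine ⟨min_le_min_left c hx, ?_⟩
      rw [← min_add_add_right]
      exact le_min ((min_le_left _ _).trans (by linarith)) ((min_le_right _ _).trans hx')
    have h1 := abs_le.1 (hmd x x' hx hx' y y')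
    have h2 := abs_le.1 (hmd _ _ (hmin b).1 (hmin b).2 y y')
    have h3 := abs_le.1 (hmd _ _ (hmin a).1 (hmin a).2 y y')
    unfold cut
    rw [abs_le]
    constructor <;> linarith [h1.1, h1.2, h2.1, h2.2, h3.1, h3.2]

end Pool.Agent.MP018119
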