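import Pool.Agent.Lib.MP_018119_an.Holm

/-!
MP_018119_an, project CS: the limit of the slices
-/

set_option autoImplicit false

noncomputable section

open MeasureTheory Filter Topology Set

namespace Pool.Agent.MP018119

private theorem cutlim_unif {F : ℕ → ℝ × ℝ → ℝ} {d : ℕ → ℝ} (hd : Summable d)
    (h : ∀ n p, |F n p - F (n + 1) p| ≤ d n) :
    ∃ g : ℝ × ℝ → ℝ, TendstoUniformly F g atTop := by
  have h1 : ∀ p, ∀ n, dist (F n p) (F n.succ p) ≤ d n := fun p n => h n p
  have h2 : ∀ p, ∃ a, Tendsto (fun n => F n p) atTop (𝓝 a) := fun p =>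
    cauchySeq_tendsto_of_complete (cauchySeq_of_dist_le_of_summable d (h1 p) hd)
  choose g hg using h2
  refine ⟨g, ?_⟩
  rw [Metric.tendstoUniformly_iff]
  intro ε hε
  have h3 := tendsto_sum_nat_add d
  filter_upwards [h3.eventually (gt_mem_nhds hε)] with n hn p
  rw [dist_comm]
  refine (dist_le_tsum_of_dist_le_of_tendsto d (h1 p) hd (hg p) n).trans_lt ?_
  simpa only [add_comm] using hn

/-- `H n - H (n + 1)` and its derivative are bounded by a constant times `η n` (`small_of_holder`),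
so `H n` and `H' n` converge uniformly on the plane; the limits `g`, `g'` satisfy
`HasDerivAt (g x) (g' x y) y` (`hasDerivAt_of_tendstoUniformly`), and `g'` is Hölder with constant
`M + ∑ η n`; then `exists_hol`. -/
theorem cut_lim {S M β : ℝ} {H H' : ℕ → ℝ → ℝ → ℝ} {η : ℕ → ℝ} (hS : 0 < S) (hβ : 0 < β)
    (hβ1 : β ≤ 1) (hη : Summable η) (hη0 : ∀ n, 0 ≤ η n)
    (hd : ∀ n x y, HasDerivAt (H n x) (H' n x y) y) (hs : ∀ n x y, S < |y| → H n x y = 0)
    (hc : ∀ n, Continuous (fun p : ℝ × ℝ => H n p.1 p.2))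
    (hM : ∀ x y y', |H' 0 x y - H' 0 x y'| ≤ M * |y - y'| ^ β)
    (hdiff : ∀ n x y y', |(H' n x y - H' (n + 1) x y) - (H' n x y' - H' (n + 1) x y')| ≤
      η n * |y - y'| ^ β) :
    ∃ (g g' : ℝ → ℝ → ℝ) (M' : ℝ), (∀ x y, HasDerivAt (g x) (g' x y) y) ∧
      Continuous (fun p : ℝ × ℝ => g p.1 p.2) ∧ Hol g S M' β ∧ Hol g' S M' β ∧
      TendstoUniformly (fun n (p : ℝ × ℝ) => H n p.1 p.2) (fun p => g p.1 p.2) atTop := by
  obtain ⟨C, hC⟩ : ∃ C, C = (2 * S + 1) ^ β := ⟨_, rfl⟩
  have hsmall : ∀ n x y, |H' n x y - H' (n + 1) x y| ≤ η n * C ∧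
      |H n x y - H (n + 1) x y| ≤ η n * C * (2 * S + 1) := by
    intro n x y
    rw [hC]
    exact small_of_holder (f := fun y => H n x y - H (n + 1) x y)
      (f' := fun y => H' n x y - H' (n + 1) x y) hS hβ
      (fun y => (hd n x y).sub (hd (n + 1) x y))
      (fun y hy => by rw [hs n x y hy, hs (n + 1) x y hy, sub_zero]) (hdiff n x) y
  obtain ⟨G, hG⟩ := cutlim_unif (F := fun n p => H n p.1 p.2)
    ((hη.mul_right C).mul_right (2 * S + 1)) fun n p => (hsmall n p.1 p.2).2
  obtain ⟨G', hG'⟩ := cutlim_unif (F := fun n p => H' n p.1 p.2)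
    (hη.mul_right C) fun n p => (hsmall n p.1 p.2).1
  have hGp : ∀ x y, Tendsto (fun n => H n x y) atTop (𝓝 (G (x, y))) :=
    fun x y => hG.tendsto_at (x, y)
  have hGp' : ∀ x y, Tendsto (fun n => H' n x y) atTop (𝓝 (G' (x, y))) :=
    fun x y => hG'.tendsto_at (x, y)
  have hder : ∀ x y, HasDerivAt (fun y => G (x, y)) (G' (x, y)) y := by
    intro x y
    have h1 : TendstoUniformly (fun n y => H' n x y) (fun y => G' (x, y)) atTop :=
      hG'.comp fun y => (x, y)
    exact hasDerivAt_of_tendstoUniformly h1 (Eventually.of_forall fun n y => hd n x y)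
      (fun y => hGp x y) y
  have hcont : Continuous (fun p : ℝ × ℝ => G (p.1, p.2)) :=
    hG.continuous (Eventually.of_forall hc).frequently
  have hsupp : ∀ x y, S < |y| → G (x, y) = 0 := by
    intro x y hy
    refine tendsto_nhds_unique (hGp x y) ?_
    simp only [hs _ x y hy]
    exact tendsto_const_nhds
  have hind : ∀ n x y y', |H' n x y - H' n x y'| ≤
      (M + ∑ k ∈ Finset.range n, η k) * |y - y'| ^ β := by
    intro n x y y'
    induction n with
    | zero => simpa using hM x y y'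
    | succ n ih =>
      have h1 := hdiff n x y y'
      have h2 : H' (n + 1) x y - H' (n + 1) x y' = (H' n x y - H' n x y') -
          ((H' n x y - H' (n + 1) x y) - (H' n x y' - H' (n + 1) x y')) := by ring
      rw [h2, Finset.sum_range_succ]
      refine (abs_sub _ _).trans ?_
      linarith
  have hhol : ∀ x y y', |G' (x, y) - G' (x, y')| ≤ (M + ∑' k, η k) * |y - y'| ^ β := by
    intro x y y'
    refine le_of_tendsto ((hGp' x y).sub (hGp' x y')).abs (Eventually.of_forall fun n => ?_)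
    refine (hind n x y y').trans (mul_le_mul_of_nonneg_right ?_ (by positivity))
    have := hη.sum_le_tsum (Finset.range n) fun k _ => hη0 k
    linarith
  obtain ⟨M', h1, h2⟩ := exists_hol (h := fun x y => G (x, y)) (h' := fun x y => G' (x, y))
    hS hβ hβ1 hder hsupp hcont hhol
  exact ⟨fun x y => G (x, y), fun x y => G' (x, y), M', hder, hcont, h1, h2, hG⟩

end Pool.Agent.MP018119
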