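import Pool.Agent.Lib.MP_018119_an.Defs

/-!
MP_018119_an, project CS: the limit measure
-/

set_option autoImplicit false

noncomputable section

open MeasureTheory Filter Topology Set

namespace Pool.Agent.MP018119

variable {μ : Measure ℂ} {S β : ℝ}

private theorem LimM_TT_meas (z r : ℕ → ℝ) (n : ℕ) : MeasurableSet (TT z r n) := by
  have h : TT z r n = ⋂ i ∈ Finset.range n, {w : ℂ | r i ≤ |w.re - z i|} := by
    ext w
    simp [TT]
  rw [h]
  refine Finset.measurableSet_biInter _ fun i _ => ?_
  have hc : Continuous fun w : ℂ => |w.re - z i| := by fun_prop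
  exact (isClosed_le continuous_const hc).measurableSet

/-- `TI` is the intersection of the decreasing sequence `TT n`
(`tendsto_measure_iInter_atTop`); the integrals over `B` converge by dominated convergence (the
functions vanish for `|y| > S` and converge uniformly). -/
theorem dens_lim [IsFiniteMeasure μ] {z r : ℕ → ℝ} {H H' : ℕ → ℝ → ℝ → ℝ} {g g' : ℝ → ℝ → ℝ}
    (hc : ∀ n, Cls (μ.restrict (TT z r n)) (H n) (H' n) S β)
    (hg : ∀ x y, HasDerivAt (g x) (g' x y) y) (hs : ∀ x y, S < |y| → g x y = 0)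
    (hlim : TendstoUniformly (fun n (p : ℝ × ℝ) => H n p.1 p.2) (fun p => g p.1 p.2) atTop) :
    Dens (μ.restrict (TI z r)) g g' := by
  have hpt : ∀ x y, Tendsto (fun n => H n x y) atTop (𝓝 (g x y)) := fun x y =>
    hlim.tendsto_at (x, y)
  have hTI : TI z r = ⋂ n, TT z r n := by
    ext w
    simp only [TI, TT, mem_iInter, mem_ofPred_eq]
    exact ⟨fun h n i _ => h i, fun h i => h (i + 1) i (Nat.lt_succ_self i)⟩
  have hTImeas : MeasurableSet (TI z r) := by
    rw [hTI]
    exact MeasurableSet.iInter fun n => LimM_TT_meas z r n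
  refine ⟨fun x y => ge_of_tendsto' (hpt x y) fun n => (hc n).nonneg x y, ?_, hg⟩
  intro x B hB
  have hE : MeasurableSet {w : ℂ | w.re ≤ x ∧ w.im ∈ B} :=
    (Complex.measurable_re measurableSet_Iic).inter (Complex.measurable_im hB)
  -- the left side
  have h1 : Tendsto (fun n => (μ.restrict (TT z r n)) {w : ℂ | w.re ≤ x ∧ w.im ∈ B}) atTop
      (𝓝 ((μ.restrict (TI z r)) {w : ℂ | w.re ≤ x ∧ w.im ∈ B})) := by
    have e1 : ∀ n, (μ.restrict (TT z r n)) {w : ℂ | w.re ≤ x ∧ w.im ∈ B} =
        μ ({w : ℂ | w.re ≤ x ∧ w.im ∈ B} ∩ TT z r n) := fun n => Measure.restrict_apply hE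
    have e2 : {w : ℂ | w.re ≤ x ∧ w.im ∈ B} ∩ TI z r =
        ⋂ n, ({w : ℂ | w.re ≤ x ∧ w.im ∈ B} ∩ TT z r n) := by
      rw [hTI, inter_iInter]
    simp only [e1]
    rw [Measure.restrict_apply hE, e2]
    refine tendsto_measure_iInter_atTop
      (fun n => (hE.inter (LimM_TT_meas z r n)).nullMeasurableSet) ?_
      ⟨0, measure_ne_top _ _⟩
    intro m n hmn w hw
    exact ⟨hw.1, fun i hi => hw.2 i (hi.trans_le hmn)⟩
  -- the right side
  have hgc : Continuous (g x) := continuous_iff_continuousAt.2 fun y => (hg x y).continuousAt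
  obtain ⟨C, hC⟩ := (isCompact_Icc (a := -S) (b := S)).exists_bound_of_continuousOn
    hgc.continuousOn
  have h2 : Tendsto (fun n => ∫⁻ y in B, ENNReal.ofReal (H n x y)) atTop
      (𝓝 (∫⁻ y in B, ENNReal.ofReal (g x y))) := by
    refine tendsto_lintegral_filter_of_dominated_convergence
      ((Icc (-S) S).indicator fun _ => ENNReal.ofReal (C + 1)) ?_ ?_ ?_ ?_
    · refine Eventually.of_forall fun n => ?_
      have hHc : Continuous (H n x) :=
        continuous_iff_continuousAt.2 fun y => ((hc n).deriv x y).continuousAt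
      exact hHc.measurable.ennreal_ofReal
    · have hev := (Metric.tendstoUniformly_iff.1 hlim) 1 one_pos
      filter_upwards [hev] with n hn
      refine Eventually.of_forall fun y => ?_
      by_cases hy : y ∈ Icc (-S) S
      · rw [indicator_of_mem hy]
        refine ENNReal.ofReal_le_ofReal ?_
        have h3 := hn (x, y)
        rw [Real.dist_eq, abs_lt] at h3
        have h4 := (le_abs_self _).trans (hC y hy)
        linarith [h3.1]
      · rw [indicator_of_notMem hy]
        have hy' : S < |y| := by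
          by_contra hcon
          exact hy (abs_le.1 (not_lt.1 hcon))
        rw [(hc n).supp x y hy', ENNReal.ofReal_zero]
    · refine ne_top_of_le_ne_top ?_ (setLIntegral_le_lintegral B _)
      rw [lintegral_indicator_const measurableSet_Icc, Real.volume_Icc]
      exact ENNReal.mul_ne_top ENNReal.ofReal_ne_top ENNReal.ofReal_ne_top
    · refine Eventually.of_forall fun y => ?_
      exact (ENNReal.continuous_ofReal.tendsto _).comp (hpt x y)
  have h3 : (fun n => (μ.restrict (TT z r n)) {w : ℂ | w.re ≤ x ∧ w.im ∈ B}) =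
      fun n => ∫⁻ y in B, ENNReal.ofReal (H n x y) := funext fun n => (hc n).dens x B hB
  rw [h3] at h1
  exact tendsto_nhds_unique h1 h2

/-- the complement of `TI` is the union of the strips -/
theorem restrict_ne_zero [IsFiniteMeasure μ] (h0 : μ ≠ 0) {z r η : ℕ → ℝ} (hη0 : ∀ n, 0 ≤ η n)
    (hη : Summable η) (hs : ENNReal.ofReal (∑' n, η n) < μ univ)
    (h : ∀ n, μ {w | |w.re - z n| < r n} ≤ ENNReal.ofReal (η n)) :
    μ.restrict (TI z r) ≠ 0 := by
  intro hzero
  rw [Measure.restrict_eq_zero] at hzero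
  have hcov : (univ : Set ℂ) ⊆ TI z r ∪ ⋃ n, {w : ℂ | |w.re - z n| < r n} := by
    intro w _
    by_cases hw : w ∈ TI z r
    · exact Or.inl hw
    · right
      simp only [TI, mem_ofPred_eq, not_forall, not_le] at hw
      exact mem_iUnion.2 hw
  have h1 : μ univ ≤ ENNReal.ofReal (∑' n, η n) := by
    calc μ univ ≤ μ (TI z r ∪ ⋃ n, {w : ℂ | |w.re - z n| < r n}) := measure_mono hcov
      _ ≤ μ (TI z r) + μ (⋃ n, {w : ℂ | |w.re - z n| < r n}) := measure_union_le _ _
      _ ≤ 0 + ∑' n, μ {w : ℂ | |w.re - z n| < r n} :=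
          add_le_add hzero.le (measure_iUnion_le _)
      _ ≤ ∑' n, ENNReal.ofReal (η n) := by
          rw [zero_add]
          exact ENNReal.tsum_le_tsum h
      _ = ENNReal.ofReal (∑' n, η n) := (ENNReal.ofReal_tsum_of_nonneg hη0 hη).symm
  exact absurd hs (not_lt.2 h1)

end Pool.Agent.MP018119
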