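import Pool.Agent.Lib.MP_018119_an.CutSeq
import Pool.Agent.Lib.MP_018119_an.CutLim
import Pool.Agent.Lib.MP_018119_an.LimM

/-!
MP_018119_an, project CS: removing a neighbourhood of a countable set of vertical lines
-/

set_option autoImplicit false

noncomputable section

open MeasureTheory Filter Topology Set

namespace Pool.Agent.MP018119

variable {μ : Measure ℂ} {h h' : ℝ → ℝ → ℝ} {S β : ℝ}

/-- Enumerate a countable set containing `Z` by `z : ℕ → ℝ`; `η n = ε / 2 ^ (n + 1)` with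
`ENNReal.ofReal ε < μ univ`; `cut_seq`, `cut_lim`, `dens_lim`, `restrict_ne_zero`;
`O = ⋃ n, (z n - r n, z n + r n)`. -/
theorem exists_cut [IsFiniteMeasure μ] (h0 : μ ≠ 0) (hc : Cls μ h h' S β) (hS : 0 < S)
    (hβ : 0 < β) (hβ1 : β ≤ 1) {Z : Set ℝ} (hZ : Z.Countable) :
    ∃ O : Set ℝ, IsOpen O ∧ Z ⊆ O ∧ μ.restrict {w | w.re ∉ O} ≠ 0 ∧
      ∃ (g g' : ℝ → ℝ → ℝ) (M : ℝ), Slc (μ.restrict {w | w.re ∉ O}) g g' S M β := by
  obtain ⟨z, hz⟩ : ∃ z : ℕ → ℝ, Z ⊆ range z := by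
    obtain ⟨z, hz⟩ := (hZ.union (countable_singleton (0 : ℝ))).exists_eq_range
      ⟨0, Or.inr rfl⟩
    exact ⟨z, hz ▸ subset_union_left⟩
  have hpos : 0 < μ univ := by
    rw [pos_iff_ne_zero]
    exact fun h1 => h0 (Measure.measure_univ_eq_zero.1 h1)
  obtain ⟨ε, hε, hεμ⟩ : ∃ ε : ℝ, 0 < ε ∧ ENNReal.ofReal ε < μ univ := by
    obtain ⟨q, hq0, hq⟩ := ENNReal.lt_iff_exists_nnreal_btwn.1 hpos
    refine ⟨q, ?_, ?_⟩
    · exact_mod_cast hq0
    · rwa [ENNReal.ofReal_coe_nnreal]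
  have hsum : HasSum (fun n : ℕ => ε / 2 / 2 ^ n) ε := hasSum_geometric_two' ε
  have hη : ∀ n : ℕ, 0 < ε / 2 / 2 ^ n := fun n => by positivity
  obtain ⟨r, H, H', hr, hH0, hH0', hcls, hm, hdiff⟩ := cut_seq hc hS hβ z
    (fun n : ℕ => ε / 2 / 2 ^ n) hη
  obtain ⟨M, hM⟩ := hc.bdd
  obtain ⟨g, g', M', hg, hgc, hg1, hg2, hlim⟩ := cut_lim (M := M) hS hβ hβ1 hsum.summable
    (fun n => (hη n).le) (fun n x y => (hcls n).deriv x y) (fun n x y hy => (hcls n).supp x y hy)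
    (fun n => (hcls n).cont hS hβ) (by rw [hH0']; exact hM) hdiff
  have hd := dens_lim hcls hg hg1.supp hlim
  have hne := restrict_ne_zero h0 (fun n => (hη n).le) hsum.summable
    (by rw [hsum.tsum_eq]; exact hεμ) hm
  have hTI : {w : ℂ | w.re ∉ ⋃ n, Ioo (z n - r n) (z n + r n)} = TI z r := by
    ext w
    simp only [TI, mem_iUnion, not_exists, mem_Ioo, not_and, not_lt]
    refine forall_congr' fun n => ?_
    rw [le_abs']
    constructor
    · intro h1
      by_cases h2 : z n - r n < w.re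
      · right
        have := h1 h2
        linarith
      · left
        linarith
    · intro h1 h2
      rcases h1 with h1 | h1 <;> linarith
  refine ⟨⋃ n, Ioo (z n - r n) (z n + r n), isOpen_iUnion fun n => isOpen_Ioo, ?_, ?_, g, g', M',
    ?_⟩
  · intro x hx
    obtain ⟨n, rfl⟩ := hz hx
    exact mem_iUnion.2 ⟨n, by constructor <;> linarith [hr n]⟩
  · rw [hTI]
    exact hne
  · rw [hTI]
    exact ⟨hd, hgc, hg1, hg2⟩

end Pool.Agent.MP018119
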