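import Pool.Agent.Lib.MP_018119_an.Cut

/-!
MP_018119_an, project CS: removing strips successively
-/

set_option autoImplicit false

noncomputable section

open MeasureTheory Filter Topology Set

namespace Pool.Agent.MP018119

variable {μ : Measure ℂ} {h h' : ℝ → ℝ → ℝ} {S β : ℝ}

private theorem cutSeq_meas (ζ r : ℝ) : MeasurableSet {w : ℂ | |w.re - ζ| < r} := by
  have h1 : Continuous fun w : ℂ => |w.re - ζ| := (Complex.continuous_re.sub continuous_const).abs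
  exact (isOpen_lt h1 continuous_const).measurableSet

private theorem cutSeq_meas' (ζ r : ℝ) : MeasurableSet {w : ℂ | r ≤ |w.re - ζ|} := by
  have h1 : Continuous fun w : ℂ => |w.re - ζ| := (Complex.continuous_re.sub continuous_const).abs
  exact (isClosed_le continuous_const h1).measurableSet

/-- `⋂ {|Re - ζ| < r}` over `r > 0` is the line `{Re = ζ}` -/
theorem strip_small [IsFiniteMeasure μ] (hl : ∀ x, μ {z | z.re = x} = 0) (ζ : ℝ) {η : ℝ}
    (hη : 0 < η) : ∃ r > 0, μ {w | |w.re - ζ| < r} ≤ ENNReal.ofReal η := by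
  have ha : Antitone fun n : ℕ => {w : ℂ | |w.re - ζ| < 1 / ((n : ℝ) + 1)} := by
    intro m n hmn w hw
    have hw' : |w.re - ζ| < 1 / ((n : ℝ) + 1) := hw
    show |w.re - ζ| < 1 / ((m : ℝ) + 1)
    have h1 : (m : ℝ) ≤ n := by exact_mod_cast hmn
    exact hw'.trans_le (one_div_le_one_div_of_le (by positivity) (by linarith))
  have h1 := tendsto_measure_iInter_atTop (μ := μ)
    (s := fun n : ℕ => {w : ℂ | |w.re - ζ| < 1 / ((n : ℝ) + 1)})
    (fun n => (cutSeq_meas ζ _).nullMeasurableSet) ha ⟨0, measure_ne_top _ _⟩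
  have h2 : (⋂ n : ℕ, {w : ℂ | |w.re - ζ| < 1 / ((n : ℝ) + 1)}) ⊆ {z : ℂ | z.re = ζ} := by
    intro w hw
    rw [mem_iInter] at hw
    show w.re = ζ
    by_contra hne
    have h3 : 0 < |w.re - ζ| := abs_pos.2 (sub_ne_zero.2 hne)
    obtain ⟨n, hn⟩ := exists_nat_one_div_lt h3
    have h4 : |w.re - ζ| < 1 / ((n : ℝ) + 1) := hw n
    linarith
  have h3 : μ (⋂ n : ℕ, {w : ℂ | |w.re - ζ| < 1 / ((n : ℝ) + 1)}) = 0 :=
    measure_mono_null h2 (hl ζ)
  rw [h3] at h1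
  obtain ⟨n, hn⟩ := (h1.eventually (Iic_mem_nhds (ENNReal.ofReal_pos.2 hη))).exists
  exact ⟨1 / ((n : ℝ) + 1), by positivity, hn⟩

/-- One step: `r` as in `strip_small` and `2 r ≤ δ` with `δ` from `md`;
`g' x y - cut (ζ - r) (ζ + r) g' x y` is the increment of `g'` between `min (ζ - r) x` and
`min (ζ + r) x`. -/
theorem cut_step [IsFiniteMeasure μ] (hl : ∀ x, μ {z | z.re = x} = 0) {ν : Measure ℂ}
    [IsFiniteMeasure ν] {g g' : ℝ → ℝ → ℝ} (hc : Cls ν g g' S β) (hS : 0 < S) (hβ : 0 < β)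
    (ζ : ℝ) {η : ℝ} (hη : 0 < η) : ∃ r > 0, μ {w | |w.re - ζ| < r} ≤ ENNReal.ofReal η ∧
      Cls (ν.restrict {w | r ≤ |w.re - ζ|}) (cut (ζ - r) (ζ + r) g) (cut (ζ - r) (ζ + r) g') S β ∧
      ∀ x y y', |(g' x y - cut (ζ - r) (ζ + r) g' x y) -
        (g' x y' - cut (ζ - r) (ζ + r) g' x y')| ≤ η * |y - y'| ^ β := by
  obtain ⟨δ, hδ, hmd⟩ := hc.md η hη
  obtain ⟨r₁, hr₁, hμ⟩ := strip_small hl ζ hη
  obtain ⟨r, hr⟩ : ∃ r, r = min r₁ (δ / 2) := ⟨_, rfl⟩
  have hr0 : 0 < r := by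
    rw [hr]
    exact lt_min hr₁ (by linarith)
  have hrr : r ≤ r₁ := by
    rw [hr]
    exact min_le_left _ _
  have hrd : r ≤ δ / 2 := by
    rw [hr]
    exact min_le_right _ _
  refine ⟨r, hr0, ?_, ?_, ?_⟩
  · refine (measure_mono fun w hw => ?_).trans hμ
    have hw' : |w.re - ζ| < r := hw
    exact hw'.trans_le hrr
  · have h1 := cut_cls hc hS hβ (a := ζ - r) (b := ζ + r) (by linarith)
    have h2 : {w : ℂ | r ≤ |w.re - ζ|} = {z : ℂ | z.re ≤ ζ - r ∨ ζ + r ≤ z.re} := by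
      ext w
      show r ≤ |w.re - ζ| ↔ w.re ≤ ζ - r ∨ ζ + r ≤ w.re
      rw [le_abs]
      constructor
      · rintro (h3 | h3)
        · right
          linarith
        · left
          linarith
      · rintro (h3 | h3)
        · right
          linarith
        · left
          linarith
    rw [h2]
    exact h1
  · intro x y y'
    have h1 : min (ζ - r) x ≤ min (ζ + r) x := min_le_min_right x (by linarith)
    have h2 : min (ζ + r) x ≤ min (ζ - r) x + δ := by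
      rcases le_total (ζ - r) x with h3 | h3
      · rw [min_eq_left h3]
        exact (min_le_left _ _).trans (by linarith)
      · rw [min_eq_right h3]
        exact (min_le_right _ _).trans (by linarith)
    have h3 := hmd _ _ h1 h2 y y'
    refine le_trans (le_of_eq ?_) h3
    unfold cut
    congr 1
    ring

private theorem cutSeq_TT_zero (z r : ℕ → ℝ) : TT z r 0 = univ := by
  ext w
  constructor
  · intro _
    exact mem_univ w
  · intro _ i hi
    exact absurd hi (Nat.not_lt_zero i)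

private theorem cutSeq_TT_succ (z r : ℕ → ℝ) (n : ℕ) :
    TT z r (n + 1) = {w : ℂ | r n ≤ |w.re - z n|} ∩ TT z r n := by
  ext w
  constructor
  · intro hw
    exact ⟨hw n (Nat.lt_succ_self n), fun i hi => hw i (Nat.lt_succ_of_lt hi)⟩
  · rintro ⟨h1, h2⟩ i hi
    rcases Nat.lt_succ_iff_lt_or_eq.1 hi with h3 | h3
    · exact h2 i h3
    · rw [h3]
      exact h1

/-- Recursion on `n` with the state `(T, g, g')`, `Cls (μ.restrict T) g g' S β`, `T` measurable. -/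
theorem cut_seq [IsFiniteMeasure μ] (hc : Cls μ h h' S β) (hS : 0 < S) (hβ : 0 < β) (z : ℕ → ℝ)
    (η : ℕ → ℝ) (hη : ∀ n, 0 < η n) : ∃ (r : ℕ → ℝ) (H H' : ℕ → ℝ → ℝ → ℝ),
      (∀ n, 0 < r n) ∧ H 0 = h ∧ H' 0 = h' ∧
      (∀ n, Cls (μ.restrict (TT z r n)) (H n) (H' n) S β) ∧
      (∀ n, μ {w | |w.re - z n| < r n} ≤ ENNReal.ofReal (η n)) ∧
      ∀ n x y y', |(H' n x y - H' (n + 1) x y) - (H' n x y' - H' (n + 1) x y')| ≤
        η n * |y - y'| ^ β := by
  have hl := hc.line hS hβ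
  have step : ∀ (n : ℕ) (s : {s : Set ℂ × (ℝ → ℝ → ℝ) × (ℝ → ℝ → ℝ) //
      Cls (μ.restrict s.1) s.2.1 s.2.2 S β}), ∃ (r : ℝ)
      (s' : {s : Set ℂ × (ℝ → ℝ → ℝ) × (ℝ → ℝ → ℝ) // Cls (μ.restrict s.1) s.2.1 s.2.2 S β}),
      0 < r ∧ μ {w | |w.re - z n| < r} ≤ ENNReal.ofReal (η n) ∧
      s'.1.1 = {w : ℂ | r ≤ |w.re - z n|} ∩ s.1.1 ∧
      ∀ x y y', |(s.1.2.2 x y - s'.1.2.2 x y) - (s.1.2.2 x y' - s'.1.2.2 x y')| ≤
        η n * |y - y'| ^ β := by
    intro n s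
    obtain ⟨r, hr, h1, h2, h3⟩ := cut_step hl s.2 hS hβ (z n) (hη n)
    rw [Measure.restrict_restrict (cutSeq_meas' (z n) r)] at h2
    exact ⟨r, ⟨({w : ℂ | r ≤ |w.re - z n|} ∩ s.1.1, cut (z n - r) (z n + r) s.1.2.1,
      cut (z n - r) (z n + r) s.1.2.2), h2⟩, hr, h1, rfl, h3⟩
  choose R N hR hμ hT hI using step
  have hc0 : Cls (μ.restrict (univ : Set ℂ)) h h' S β := by
    rw [Measure.restrict_univ]
    exact hc
  obtain ⟨q, hq0, hqs⟩ : ∃ q : ℕ → {s : Set ℂ × (ℝ → ℝ → ℝ) × (ℝ → ℝ → ℝ) //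
      Cls (μ.restrict s.1) s.2.1 s.2.2 S β}, q 0 = ⟨(univ, h, h'), hc0⟩ ∧
      ∀ n, q (n + 1) = N n (q n) :=
    ⟨fun n => Nat.rec ⟨(univ, h, h'), hc0⟩ (fun n s => N n s) n, rfl, fun _ => rfl⟩
  have hTT : ∀ n, (q n).1.1 = TT z (fun n => R n (q n)) n := by
    intro n
    induction n with
    | zero => rw [hq0, cutSeq_TT_zero]
    | succ n ih => rw [hqs, hT, ih, cutSeq_TT_succ]
  refine ⟨fun n => R n (q n), fun n => (q n).1.2.1, fun n => (q n).1.2.2, fun n => hR n _, ?_, ?_,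
    fun n => ?_, fun n => hμ n _, fun n => ?_⟩
  · show (q 0).1.2.1 = h
    rw [hq0]
  · show (q 0).1.2.2 = h'
    rw [hq0]
  · rw [← hTT n]
    exact (q n).2
  · show ∀ x y y', |((q n).1.2.2 x y - (q (n + 1)).1.2.2 x y) -
      ((q n).1.2.2 x y' - (q (n + 1)).1.2.2 x y')| ≤ η n * |y - y'| ^ β
    rw [hqs]
    exact hI n (q n)

end Pool.Agent.MP018119
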