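import Mathlib

/-!
MP_018119_an, project CS: curves carrying measures with smooth slices contain nonremovable Cantor
sets.  Definitions.

Text: /team-store/TEXT_018119.md.
-/

set_option autoImplicit false

noncomputable section

open MeasureTheory Filter Topology Set

namespace Pool.Agent.MP018119

/-- `|w|² + δ²` for `w = s + i t` -/
def qq (δ s t : ℝ) : ℝ := s ^ 2 + t ^ 2 + δ ^ 2

/-- the regularised Cauchy kernel `conj w / (|w|² + δ²)`, `w = s + i t` -/
def kd (δ s t : ℝ) : ℂ := ((s : ℂ) - t * Complex.I) / (qq δ s t : ℂ)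

/-- its derivative in `t` -/
def ky (δ s t : ℝ) : ℂ :=
  -Complex.I / (qq δ s t : ℂ) - ((s : ℂ) - t * Complex.I) * (2 * t) / (qq δ s t : ℂ) ^ 2

/-- the positive kernel -/
def ps (δ s t : ℝ) : ℝ := δ ^ 2 / qq δ s t ^ 2

/-- the derivative of `kd` in `s` -/
def kx (δ s t : ℝ) : ℂ := 2 * (ps δ s t : ℂ) - Complex.I * ky δ s t

/-- `b (x, ·)` is supported in `[-S, S]`, bounded by `M` and Hölder of exponent `β` with constant
`M`, uniformly in `x` -/
structure Hol (b : ℝ → ℝ → ℝ) (S M β : ℝ) : Prop where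
  meas : Measurable (fun p : ℝ × ℝ => b p.1 p.2)
  supp : ∀ x y, S < |y| → b x y = 0
  bdd : ∀ x y, |b x y| ≤ M
  hol : ∀ x y y', |b x y - b x y'| ≤ M * |y - y'| ^ β

/-- the integral of `b` against the translated kernel `κ` -/
def II (b : ℝ → ℝ → ℝ) (κ : ℝ → ℝ → ℂ) (x₀ y₀ : ℝ) : ℂ :=
  ∫ p : ℝ × ℝ, (b p.1 p.2 : ℂ) * κ (x₀ - p.1) (y₀ - p.2)

/-- the constant `∫ ps 1` (it is `π`) -/
def c₀ : ℝ := ∫ p : ℝ × ℝ, ps 1 p.1 p.2

/-- `h x` is the density of the part of `μ` in the half plane `{Re ≤ x}`, seen from the imaginary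
axis; `h' x` is its derivative -/
structure Dens (μ : Measure ℂ) (h h' : ℝ → ℝ → ℝ) : Prop where
  nonneg : ∀ x y, 0 ≤ h x y
  dens : ∀ (x : ℝ) (B : Set ℝ), MeasurableSet B →
    μ {z | z.re ≤ x ∧ z.im ∈ B} = ∫⁻ y in B, ENNReal.ofReal (h x y)
  deriv : ∀ x y, HasDerivAt (h x) (h' x y) y

/-- the data needed for the construction of the homeomorphism -/
structure Slc (μ : Measure ℂ) (h h' : ℝ → ℝ → ℝ) (S M β : ℝ) : Prop extends Dens μ h h' where
  cont : Continuous (fun p : ℝ × ℝ => h p.1 p.2)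
  holh : Hol h S M β
  hol : Hol h' S M β

/-- the data needed for cutting: the increments in `x` are small in the Hölder class of exponent
`1 + β` -/
structure Cls (μ : Measure ℂ) (h h' : ℝ → ℝ → ℝ) (S β : ℝ) : Prop extends Dens μ h h' where
  supp : ∀ x y, S < |y| → h x y = 0
  bdd : ∃ M, ∀ x y y', |h' x y - h' x y'| ≤ M * |y - y'| ^ β
  md : ∀ η > 0, ∃ δ > 0, ∀ x x', x ≤ x' → x' ≤ x + δ → ∀ y y',
    |(h' x' y - h' x y) - (h' x' y' - h' x y')| ≤ η * |y - y'| ^ β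

/-- the slices after the strip `a < Re < b` has been removed -/
def cut (a b : ℝ) (h : ℝ → ℝ → ℝ) (x y : ℝ) : ℝ := h x y - (h (min b x) y - h (min a x) y)

/-- the plane without the first `n` strips -/
def TT (z r : ℕ → ℝ) (n : ℕ) : Set ℂ := {w | ∀ i < n, r i ≤ |w.re - z i|}

/-- the plane without all the strips -/
def TI (z r : ℕ → ℝ) : Set ℂ := {w | ∀ i, r i ≤ |w.re - z i|}

/-- a Jordan arc or a Jordan curve -/
def IsCurve (C : Set ℂ) : Prop :=
  (∃ γ : ℝ → ℂ, ContinuousOn γ (Set.Icc 0 1) ∧ Set.InjOn γ (Set.Icc 0 1) ∧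
      C = γ '' Set.Icc 0 1) ∨
    (∃ γ : Circle → ℂ, Continuous γ ∧ Function.Injective γ ∧ C = Set.range γ)

/-- a compact set which is not conformally removable -/
def NonRem (K : Set ℂ) : Prop :=
  ∃ f : ℂ ≃ₜ ℂ, DifferentiableOn ℂ (⇑f) Kᶜ ∧ ¬ ∃ a b : ℂ, ∀ z, f z = a * z + b

end Pool.Agent.MP018119
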