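import Pool.Agent.Lib.MP_018119_an.Dom

/-!
MP_018119_an, project CS: differences of the kernel integrals
-/

set_option autoImplicit false

noncomputable section

open MeasureTheory Filter Topology Set

namespace Pool.Agent.MP018119

variable {b : ℝ → ℝ → ℝ} {S M β δ L : ℝ}

/-- Fubini for a kernel depending on a real parameter -/
private theorem diff_core (hb : Hol b S M β) (κ : ℝ → ℝ × ℝ → ℂ)
    (hκ : Continuous (fun q : ℝ × (ℝ × ℝ) => κ q.1 q.2)) (a c K : ℝ)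
    (hK : ∀ τ ∈ uIoc a c, ∀ p : ℝ × ℝ, ‖κ τ p‖ ≤ K / (1 + p.1 ^ 2)) (D : ℝ × ℝ → ℂ)
    (hD : ∀ p, D p = ∫ τ in a..c, κ τ p)
    (hL : ∀ τ, ‖∫ p : ℝ × ℝ, (b p.1 p.2 : ℂ) * κ τ p‖ ≤ L) :
    ‖∫ p : ℝ × ℝ, (b p.1 p.2 : ℂ) * D p‖ ≤ L * |c - a| := by
  have hM : 0 ≤ M := (abs_nonneg _).trans (hb.bdd 0 0)
  have hstrip := integrable_strip S
  have hint : Integrable (Function.uncurry fun (τ : ℝ) (p : ℝ × ℝ) => (b p.1 p.2 : ℂ) * κ τ p)
      ((volume.restrict (uIoc a c)).prod volume) := by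
    have hg : Integrable (fun q : ℝ × (ℝ × ℝ) =>
        (M * K) * ((Icc (-S) S).indicator (fun _ => (1 : ℝ)) q.2.2 / (1 + q.2.1 ^ 2)))
        ((volume.restrict (uIoc a c)).prod volume) := by
      have h1 : Integrable (fun p : ℝ × ℝ =>
          (M * K) * ((Icc (-S) S).indicator (fun _ => (1 : ℝ)) p.2 / (1 + p.1 ^ 2))) :=
        hstrip.const_mul (M * K)
      have : IsFiniteMeasure (volume.restrict (uIoc a c)) :=
        ⟨by
          rw [Measure.restrict_apply_univ, uIoc, Real.volume_Ioc]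
          exact ENNReal.ofReal_lt_top⟩
      exact h1.comp_snd (volume.restrict (uIoc a c))
    refine hg.mono' ?_ ?_
    · have hm1 : Measurable (fun q : ℝ × (ℝ × ℝ) => ((b q.2.1 q.2.2 : ℝ) : ℂ)) :=
        Complex.measurable_ofReal.comp (hb.meas.comp measurable_snd)
      exact (hm1.mul hκ.measurable).aestronglyMeasurable
    · have hres : (volume.restrict (uIoc a c)).prod (volume : Measure (ℝ × ℝ)) =
          ((volume : Measure ℝ).prod (volume : Measure (ℝ × ℝ))).restrict (uIoc a c ×ˢ univ) := by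
        rw [← Measure.prod_restrict, Measure.restrict_univ]
      rw [hres]
      refine ae_restrict_of_forall_mem (measurableSet_uIoc.prod MeasurableSet.univ) ?_
      rintro ⟨τ, x, y⟩ ⟨hτ, -⟩
      show ‖(b x y : ℂ) * κ τ (x, y)‖ ≤
        (M * K) * ((Icc (-S) S).indicator (fun _ => (1 : ℝ)) y / (1 + x ^ 2))
      have hk := hK τ hτ (x, y)
      have hx : (0 : ℝ) < 1 + x ^ 2 := by positivity
      rw [norm_mul, Complex.norm_real, Real.norm_eq_abs]
      by_cases hy : y ∈ Icc (-S) S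
      · rw [indicator_of_mem hy]
        calc |b x y| * ‖κ τ (x, y)‖ ≤ M * (K / (1 + x ^ 2)) :=
              mul_le_mul (hb.bdd x y) hk (norm_nonneg _) hM
          _ = (M * K) * (1 / (1 + x ^ 2)) := by ring
      · rw [indicator_of_notMem hy]
        have hy' : S < |y| := by
          by_contra hcon
          exact hy (abs_le.mp (not_lt.mp hcon))
        rw [hb.supp x y hy']
        simp
  have hsw := intervalIntegral_integral_swap hint
  have h1 : ∫ p : ℝ × ℝ, (b p.1 p.2 : ℂ) * D p =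
      ∫ τ in a..c, ∫ p : ℝ × ℝ, (b p.1 p.2 : ℂ) * κ τ p := by
    rw [hsw]
    refine integral_congr_ae (Eventually.of_forall fun p => ?_)
    show (b p.1 p.2 : ℂ) * D p = ∫ τ in a..c, (b p.1 p.2 : ℂ) * κ τ p
    rw [hD p, intervalIntegral.integral_const_mul]
  rw [h1]
  exact intervalIntegral.norm_integral_le_of_norm_le_const fun τ _ => hL τ

private theorem diff_mem_abs {a c τ : ℝ} (h : τ ∈ uIoc a c) : |τ| ≤ |a| + |c| := by
  rw [uIoc, mem_Ioc] at h
  have h1 := neg_abs_le a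
  have h2 := neg_abs_le c
  have h3 := le_abs_self a
  have h4 := le_abs_self c
  have h5 := abs_nonneg a
  have h6 := abs_nonneg c
  rw [abs_le]
  constructor
  · rcases min_choice a c with h7 | h7 <;> rw [h7] at h <;> linarith [h.1]
  · rcases max_choice a c with h7 | h7 <;> rw [h7] at h <;> linarith [h.2]

/-- `kd (x₀ - x) t - kd (x₀' - x) t = ∫ τ in x₀'..x₀, kx (τ - x) t` and Fubini (the majorant is
`M 1_{|y| ≤ S} 5 K / (1 + x²)`, `dom_le`); then bound the integral over `τ`. -/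
theorem diff_h (hb : Hol b S M β) (hδ : 0 < δ) (hL : ∀ τ y, ‖II b (kx δ) τ y‖ ≤ L)
    (x₀ x₀' y₀ : ℝ) :
    ‖∫ p : ℝ × ℝ, (b p.1 p.2 : ℂ) *
      (kd δ (x₀ - p.1) (y₀ - p.2) - kd δ (x₀' - p.1) (y₀ - p.2))‖ ≤ L * |x₀ - x₀'| := by
  obtain ⟨K, hK0, hK⟩ := dom_le hδ (|x₀'| + |x₀|)
  refine diff_core hb (fun τ p => kx δ (τ - p.1) (y₀ - p.2)) ?_ x₀' x₀ (5 * K) ?_ _ ?_ ?_
  · have hc : Continuous fun q : ℝ × (ℝ × ℝ) => ((q.1 - q.2.1, y₀ - q.2.2) : ℝ × ℝ) := by
      fun_prop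
    have h := (continuous_kx hδ).comp hc
    exact h
  · intro τ hτ p
    have h1 := hK τ p.1 (y₀ - p.2) (diff_mem_abs hτ)
    have h2 := norm_kx_le hδ (τ - p.1) (y₀ - p.2)
    calc ‖kx δ (τ - p.1) (y₀ - p.2)‖ ≤ 5 / qq δ (τ - p.1) (y₀ - p.2) := h2
      _ = 5 * (1 / qq δ (τ - p.1) (y₀ - p.2)) := by ring
      _ ≤ 5 * (K / (1 + p.1 ^ 2)) := by linarith
      _ = 5 * K / (1 + p.1 ^ 2) := by ring
  · intro p
    have hder : ∀ τ ∈ uIcc x₀' x₀, HasDerivAt (fun τ : ℝ => kd δ (τ - p.1) (y₀ - p.2))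
        (kx δ (τ - p.1) (y₀ - p.2)) τ := fun τ _ => by
      have h := hasDerivAt_kd_s hδ (τ - p.1) (y₀ - p.2)
      exact h.comp_sub_const τ p.1
    have hci : IntervalIntegrable (fun τ : ℝ => kx δ (τ - p.1) (y₀ - p.2)) volume x₀' x₀ := by
      apply Continuous.intervalIntegrable
      have hc : Continuous fun τ : ℝ => ((τ - p.1, y₀ - p.2) : ℝ × ℝ) := by fun_prop
      have h := (continuous_kx hδ).comp hc
      exact h
    exact (intervalIntegral.integral_eq_sub_of_hasDerivAt hder hci).symm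
  · intro τ
    exact hL τ y₀

/-- the same in the vertical direction -/
theorem diff_v (hb : Hol b S M β) (hδ : 0 < δ) (hL : ∀ x τ, ‖II b (ky δ) x τ‖ ≤ L)
    (x₀ y₀ y₀' : ℝ) :
    ‖∫ p : ℝ × ℝ, (b p.1 p.2 : ℂ) *
      (kd δ (x₀ - p.1) (y₀ - p.2) - kd δ (x₀ - p.1) (y₀' - p.2))‖ ≤ L * |y₀ - y₀'| := by
  obtain ⟨K, hK0, hK⟩ := dom_le hδ |x₀|
  refine diff_core hb (fun τ p => ky δ (x₀ - p.1) (τ - p.2)) ?_ y₀' y₀ (3 * K) ?_ _ ?_ ?_
  · have hc : Continuous fun q : ℝ × (ℝ × ℝ) => ((x₀ - q.2.1, q.1 - q.2.2) : ℝ × ℝ) := by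
      fun_prop
    have h := (continuous_ky hδ).comp hc
    exact h
  · intro τ _ p
    have h1 := hK x₀ p.1 (τ - p.2) le_rfl
    have h2 := norm_ky_le hδ (x₀ - p.1) (τ - p.2)
    calc ‖ky δ (x₀ - p.1) (τ - p.2)‖ ≤ 3 / qq δ (x₀ - p.1) (τ - p.2) := h2
      _ = 3 * (1 / qq δ (x₀ - p.1) (τ - p.2)) := by ring
      _ ≤ 3 * (K / (1 + p.1 ^ 2)) := by linarith
      _ = 3 * K / (1 + p.1 ^ 2) := by ring
  · intro p
    have hder : ∀ τ ∈ uIcc y₀' y₀, HasDerivAt (fun τ : ℝ => kd δ (x₀ - p.1) (τ - p.2))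
        (ky δ (x₀ - p.1) (τ - p.2)) τ := fun τ _ => by
      have h := hasDerivAt_kd_t hδ (x₀ - p.1) (τ - p.2)
      exact h.comp_sub_const τ p.2
    have hci : IntervalIntegrable (fun τ : ℝ => ky δ (x₀ - p.1) (τ - p.2)) volume y₀' y₀ := by
      apply Continuous.intervalIntegrable
      have hc : Continuous fun τ : ℝ => ((x₀ - p.1, τ - p.2) : ℝ × ℝ) := by fun_prop
      have h := (continuous_ky hδ).comp hc
      exact h
    exact (intervalIntegral.integral_eq_sub_of_hasDerivAt hder hci).symm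
  · intro τ
    exact hL x₀ τ

end Pool.Agent.MP018119
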