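import Pool.Agent.Lib.MP_018119_an.Kern

/-!
MP_018119_an, project CS: integrability of the products b * kernel
-/

set_option autoImplicit false

noncomputable section

open MeasureTheory Filter Topology Set

namespace Pool.Agent.MP018119

variable {b : ℝ → ℝ → ℝ} {S M β δ : ℝ}

/-- `1 + x² ≤ K ((τ - x)² + δ²)` with `K = (1 + 2 R²) / δ² + 2`, for `|τ| ≤ R`. -/
theorem dom_le (hδ : 0 < δ) (R : ℝ) : ∃ K : ℝ, 0 < K ∧ ∀ τ x t : ℝ, |τ| ≤ R →
    1 / qq δ (τ - x) t ≤ K / (1 + x ^ 2) := by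
  refine ⟨(1 + 2 * R ^ 2) / δ ^ 2 + 2, by positivity, fun τ x t hτ => ?_⟩
  have hq := qq_pos hδ (τ - x) t
  rw [div_le_div_iff₀ hq (by positivity), one_mul]
  have h1 : τ ^ 2 ≤ R ^ 2 := by
    rw [← sq_abs τ]
    exact pow_le_pow_left₀ (abs_nonneg τ) hτ 2
  have h2 : (1 + 2 * R ^ 2) / δ ^ 2 * δ ^ 2 = 1 + 2 * R ^ 2 := by
    field_simp
  have h3 : (1 + 2 * R ^ 2) / δ ^ 2 * δ ^ 2 ≤ (1 + 2 * R ^ 2) / δ ^ 2 * qq δ (τ - x) t := by
    refine mul_le_mul_of_nonneg_left ?_ (by positivity)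
    unfold qq
    nlinarith [sq_nonneg (τ - x), sq_nonneg t]
  have h4 : (τ - x) ^ 2 ≤ qq δ (τ - x) t := by
    unfold qq
    nlinarith [sq_nonneg t, sq_nonneg δ]
  nlinarith [sq_nonneg (2 * τ - x)]

/-- the function `1_{|y| ≤ S} / (1 + x²)` is integrable on the plane (`Integrable.mul_prod`,
`integrable_inv_one_add_sq`) -/
theorem integrable_strip (S : ℝ) :
    Integrable (fun p : ℝ × ℝ => (Icc (-S) S).indicator (fun _ => (1 : ℝ)) p.2 / (1 + p.1 ^ 2)) := by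
  have h1 : Integrable (fun x : ℝ => (1 + x ^ 2)⁻¹) := integrable_inv_one_add_sq
  have h2 : Integrable (fun y : ℝ => (Icc (-S) S).indicator (fun _ => (1 : ℝ)) y) :=
    (integrable_indicator_iff measurableSet_Icc).2
      (integrableOn_const (by rw [Real.volume_Icc]; exact ENNReal.ofReal_ne_top))
  refine (h1.mul_prod h2).congr (Filter.Eventually.of_forall fun p => ?_)
  dsimp only
  rw [div_eq_mul_inv, mul_comm]

/-- A kernel which is continuous and bounded by `A / q`: dominate by `M A K 1_{|y| ≤ S} / (1 + x²)`. -/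
theorem integrable_II (hb : Hol b S M β) (hδ : 0 < δ) {κ : ℝ → ℝ → ℂ}
    (hκ : Continuous (fun p : ℝ × ℝ => κ p.1 p.2)) {A : ℝ} (hA : ∀ s t, ‖κ s t‖ ≤ A / qq δ s t)
    (x₀ y₀ : ℝ) :
    Integrable (fun p : ℝ × ℝ => (b p.1 p.2 : ℂ) * κ (x₀ - p.1) (y₀ - p.2)) := by
  obtain ⟨K, hK, hKb⟩ := dom_le hδ |x₀|
  have hA0 : 0 ≤ A := by
    have h1 := (norm_nonneg _).trans (hA 0 0)
    exact (div_nonneg_iff.1 h1).elim (fun h => h.1) fun h =>
      absurd h.2 (not_le.2 (qq_pos hδ 0 0))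
  have hM0 : 0 ≤ M := (abs_nonneg _).trans (hb.bdd 0 0)
  refine ((integrable_strip S).const_mul (M * (A * K))).mono' ?_
    (Filter.Eventually.of_forall fun p => ?_)
  · have h1 : Continuous (fun p : ℝ × ℝ => κ (x₀ - p.1) (y₀ - p.2)) :=
      hκ.comp (f := fun p : ℝ × ℝ => (x₀ - p.1, y₀ - p.2)) (by fun_prop)
    exact ((Complex.measurable_ofReal.comp hb.meas).mul h1.measurable).aestronglyMeasurable
  · rw [norm_mul, Complex.norm_real, Real.norm_eq_abs]
    have h2 : ‖κ (x₀ - p.1) (y₀ - p.2)‖ ≤ A * K / (1 + p.1 ^ 2) := by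
      refine (hA _ _).trans ?_
      have h3 := mul_le_mul_of_nonneg_left (hKb x₀ p.1 (y₀ - p.2) le_rfl) hA0
      rw [mul_one_div] at h3
      rwa [mul_div_assoc]
    by_cases hp : p.2 ∈ Icc (-S) S
    · rw [indicator_of_mem hp]
      have h4 : M * (A * K) * (1 / (1 + p.1 ^ 2)) = M * (A * K / (1 + p.1 ^ 2)) := by ring
      rw [h4]
      exact mul_le_mul (hb.bdd _ _) h2 (norm_nonneg _) hM0
    · have h5 : b p.1 p.2 = 0 := by
        apply hb.supp
        by_contra hc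
        exact hp (abs_le.1 (not_lt.1 hc))
      rw [indicator_of_notMem hp, h5, abs_zero, zero_mul, zero_div, mul_zero]

theorem integrable_ky (hb : Hol b S M β) (hδ : 0 < δ) (x₀ y₀ : ℝ) :
    Integrable (fun p : ℝ × ℝ => (b p.1 p.2 : ℂ) * ky δ (x₀ - p.1) (y₀ - p.2)) := by
  exact integrable_II hb hδ (continuous_ky hδ) (norm_ky_le hδ) x₀ y₀

theorem integrable_ps (hb : Hol b S M β) (hδ : 0 < δ) (x₀ y₀ : ℝ) :
    Integrable (fun p : ℝ × ℝ => (b p.1 p.2 : ℂ) * (ps δ (x₀ - p.1) (y₀ - p.2) : ℂ)) := by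
  refine integrable_II hb hδ (κ := fun s t => (ps δ s t : ℂ)) (A := 1)
    (Complex.continuous_ofReal.comp (continuous_ps hδ)) (fun s t => ?_) x₀ y₀
  rw [Complex.norm_real, Real.norm_eq_abs, abs_of_nonneg (ps_nonneg δ s t)]
  exact ps_le hδ s t

/-- `kx = 2 ps - i ky` -/
theorem II_kx (hb : Hol b S M β) (hδ : 0 < δ) (x₀ y₀ : ℝ) :
    II b (kx δ) x₀ y₀ =
      2 * II b (fun s t => (ps δ s t : ℂ)) x₀ y₀ - Complex.I * II b (ky δ) x₀ y₀ := by
  unfold II
  rw [← integral_const_mul, ← integral_const_mul,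
    ← integral_sub ((integrable_ps hb hδ x₀ y₀).const_mul 2)
      ((integrable_ky hb hδ x₀ y₀).const_mul Complex.I)]
  refine integral_congr_ae (Filter.Eventually.of_forall fun p => ?_)
  dsimp only
  unfold kx
  ring

end Pool.Agent.MP018119
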