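import Pool.Agent.Lib.MP_018119_an.SlInt
import Pool.Agent.Lib.MP_018119_an.Dom

/-!
MP_018119_an, project CS: the regularised Cauchy transform as an integral of the slices
-/

set_option autoImplicit false

noncomputable section

open MeasureTheory Filter Topology Set

namespace Pool.Agent.MP018119

variable {μ : Measure ℂ} {h h' : ℝ → ℝ → ℝ} {S M β δ : ℝ}

private lemma Ident_dom (hδ : 0 < δ) (x₀ : ℝ) : ∃ K : ℝ, 0 ≤ K ∧ ∀ x t : ℝ,
    ‖kx δ (x₀ - x) t‖ ≤ K * (1 + x ^ 2)⁻¹ := by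
  obtain ⟨K, hK, hKb⟩ := dom_le hδ |x₀|
  refine ⟨5 * K, by positivity, fun x t => (norm_kx_le hδ _ _).trans ?_⟩
  have h3 := mul_le_mul_of_nonneg_left (hKb x₀ x t le_rfl) (by norm_num : (0 : ℝ) ≤ 5)
  rw [mul_one_div] at h3
  rwa [mul_assoc, ← div_eq_mul_inv]

private lemma Ident_int (hδ : 0 < δ) (x₀ t : ℝ) : Integrable (fun x : ℝ => kx δ (x₀ - x) t) := by
  obtain ⟨K, hK, hKb⟩ := Ident_dom hδ x₀
  refine (integrable_inv_one_add_sq.const_mul K).mono' ?_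
    (Eventually.of_forall fun x => hKb x t)
  have h1 : Continuous (fun x : ℝ => kx δ (x₀ - x) t) :=
    (continuous_kx hδ).comp (f := fun x : ℝ => (x₀ - x, t)) (by fun_prop)
  exact h1.aestronglyMeasurable

/-- `integral_Ioi_of_hasDerivAt_of_tendsto` with `hasDerivAt_kd_s`, `tendsto_kd`; integrability by
`norm_kx_le` and `dom_le`. -/
theorem kd_eq_integral (hδ : 0 < δ) (x₀ ξ t : ℝ) :
    kd δ (x₀ - ξ) t = ∫ x in Ioi ξ, kx δ (x₀ - x) t := by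
  have h1 : ∀ x ∈ Ici ξ, HasDerivAt (fun x : ℝ => kd δ (x₀ - x) t) (-kx δ (x₀ - x) t) x := by
    intro x _
    exact (hasDerivAt_kd_s hδ (x₀ - x) t).comp_const_sub x₀ x
  have h2 := integral_Ioi_of_hasDerivAt_of_tendsto' h1
    (Ident_int hδ x₀ t).neg.integrableOn (tendsto_kd hδ x₀ t)
  rw [integral_neg, zero_sub, neg_inj] at h2
  exact h2.symm

/-- the function `(ζ, x) ↦ 1_{Re ζ ≤ x} kx δ (x₀ - x) (y₀ - Im ζ)` is integrable -/
theorem integrable_ident [IsFiniteMeasure μ] (hδ : 0 < δ) (x₀ y₀ : ℝ) :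
    Integrable (fun p : ℂ × ℝ =>
      {p : ℂ × ℝ | p.1.re ≤ p.2}.indicator (fun p => kx δ (x₀ - p.2) (y₀ - p.1.im)) p)
      (μ.prod volume) := by
  obtain ⟨K, hK, hKb⟩ := Ident_dom hδ x₀
  have h0 : Integrable (fun p : ℂ × ℝ => (1 : ℝ) * (K * (1 + p.2 ^ 2)⁻¹)) (μ.prod volume) :=
    (integrable_const (1 : ℝ)).mul_prod (integrable_inv_one_add_sq.const_mul K)
  refine h0.mono' ?_ (Eventually.of_forall fun p => ?_)
  · have h1 : Continuous (fun p : ℂ × ℝ => kx δ (x₀ - p.2) (y₀ - p.1.im)) :=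
      (continuous_kx hδ).comp (f := fun p : ℂ × ℝ => (x₀ - p.2, y₀ - p.1.im))
        (by fun_prop)
    have h2 : MeasurableSet {p : ℂ × ℝ | p.1.re ≤ p.2} :=
      measurableSet_le (Complex.measurable_re.comp measurable_fst) measurable_snd
    exact (h1.measurable.indicator h2).aestronglyMeasurable
  · rw [one_mul]
    exact (norm_indicator_le_norm_self _ _).trans (hKb p.2 (y₀ - p.1.im))

/-- `∫ kd (z₀ - ζ) dμ(ζ) = ∫ dμ(ζ) ∫ 1_{Re ζ ≤ x} kx (x₀ - x) (y₀ - Im ζ) dx`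
`= ∫ dx ∫_{Re ζ ≤ x} kx (x₀ - x) (y₀ - Im ζ) dμ(ζ) = ∫ dx ∫ h x y kx (x₀ - x) (y₀ - y) dy`
(`integral_integral_swap`, `Dens.integral_eq`, `integral_prod`). -/
theorem ident [IsFiniteMeasure μ] (hd : Dens μ h h') (hh : Hol h S M β) (hδ : 0 < δ)
    (x₀ y₀ : ℝ) :
    ∫ ζ : ℂ, kd δ (x₀ - ζ.re) (y₀ - ζ.im) ∂μ = II h (kx δ) x₀ y₀ := by
  have h1 : ∀ ζ : ℂ, kd δ (x₀ - ζ.re) (y₀ - ζ.im) = ∫ x : ℝ,
      {p : ℂ × ℝ | p.1.re ≤ p.2}.indicator (fun p => kx δ (x₀ - p.2) (y₀ - p.1.im)) (ζ, x) := by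
    intro ζ
    rw [kd_eq_integral hδ, ← integral_Ici_eq_integral_Ioi, ← integral_indicator measurableSet_Ici]
    refine integral_congr_ae (Eventually.of_forall fun x => ?_)
    by_cases hx : ζ.re ≤ x
    · have h3 : (ζ, x) ∈ {p : ℂ × ℝ | p.1.re ≤ p.2} := hx
      have h4 : x ∈ Ici ζ.re := hx
      dsimp only
      rw [indicator_of_mem h3, indicator_of_mem h4]
    · have h3 : (ζ, x) ∉ {p : ℂ × ℝ | p.1.re ≤ p.2} := hx
      have h4 : x ∉ Ici ζ.re := hx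
      dsimp only
      rw [indicator_of_notMem h3, indicator_of_notMem h4]
  have h2 : ∀ x : ℝ, ∫ ζ : ℂ,
      {p : ℂ × ℝ | p.1.re ≤ p.2}.indicator (fun p => kx δ (x₀ - p.2) (y₀ - p.1.im)) (ζ, x) ∂μ =
      ∫ y : ℝ, (h x y : ℂ) * kx δ (x₀ - x) (y₀ - y) := by
    intro x
    have h5 : Continuous (fun y : ℝ => kx δ (x₀ - x) (y₀ - y)) :=
      (continuous_kx hδ).comp (f := fun y : ℝ => (x₀ - x, y₀ - y)) (by fun_prop)
    have h6 := hd.integral_eq x h5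
    have h7 : MeasurableSet {z : ℂ | z.re ≤ x} :=
      measurableSet_le Complex.measurable_re measurable_const
    rw [← h6, ← integral_indicator h7]
    refine integral_congr_ae (Eventually.of_forall fun ζ => ?_)
    by_cases hx : ζ.re ≤ x
    · have h3 : (ζ, x) ∈ {p : ℂ × ℝ | p.1.re ≤ p.2} := hx
      have h4 : ζ ∈ {z : ℂ | z.re ≤ x} := hx
      dsimp only
      rw [indicator_of_mem h3, indicator_of_mem h4]
    · have h3 : (ζ, x) ∉ {p : ℂ × ℝ | p.1.re ≤ p.2} := hx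
      have h4 : ζ ∉ {z : ℂ | z.re ≤ x} := hx
      dsimp only
      rw [indicator_of_notMem h3, indicator_of_notMem h4]
  calc ∫ ζ : ℂ, kd δ (x₀ - ζ.re) (y₀ - ζ.im) ∂μ
      = ∫ ζ : ℂ, (∫ x : ℝ, {p : ℂ × ℝ | p.1.re ≤ p.2}.indicator
          (fun p => kx δ (x₀ - p.2) (y₀ - p.1.im)) (ζ, x)) ∂μ :=
        integral_congr_ae (Eventually.of_forall h1)
    _ = ∫ x : ℝ, (∫ ζ : ℂ, {p : ℂ × ℝ | p.1.re ≤ p.2}.indicator
          (fun p => kx δ (x₀ - p.2) (y₀ - p.1.im)) (ζ, x) ∂μ) :=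
        integral_integral_swap (integrable_ident hδ x₀ y₀)
    _ = ∫ x : ℝ, ∫ y : ℝ, (h x y : ℂ) * kx δ (x₀ - x) (y₀ - y) :=
        integral_congr_ae (Eventually.of_forall h2)
    _ = II h (kx δ) x₀ y₀ := by
        unfold II
        exact (integral_prod _
          (integrable_II hh hδ (continuous_kx hδ) (norm_kx_le hδ) x₀ y₀)).symm

end Pool.Agent.MP018119
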