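import Pool.Agent.Lib.MP_018119_an.LimU
import Pool.Agent.Lib.MP_018119_an.Ident
import Pool.Agent.Lib.MP_018119_an.Cau

/-!
MP_018119_an, project CS: the continuous extension of the Cauchy transform
-/

set_option autoImplicit false

noncomputable section

open MeasureTheory Filter Topology Set

namespace Pool.Agent.MP018119

variable {μ : Measure ℂ} {h h' : ℝ → ℝ → ℝ} {S M β : ℝ} {K : Set ℂ}

/-- `(h z - h w) Re (z - w) ≥ - M |z - w|²`: `h` is monotone in `x` (`Dens.mono`) and `M`-Lipschitz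
in `y` (`‖h'‖ ≤ M`). -/
theorem h_mono [IsFiniteMeasure μ] (hs : Slc μ h h' S M β) (x y x' y' : ℝ) :
    -(M * (|x - x'| * |y - y'|)) ≤ (h x y - h x' y') * (x - x') := by
  have h1 : 0 ≤ (h x y - h x' y) * (x - x') := by
    rcases le_total x x' with hx | hx
    · have := hs.toDens.mono hx y
      nlinarith
    · have := hs.toDens.mono hx y
      nlinarith
  have h2 : |h x' y - h x' y'| ≤ M * |y - y'| := by
    have := Convex.norm_image_sub_le_of_norm_hasDerivWithin_le (f := h x') (f' := h' x')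
      (s := Set.univ) (C := M) (x := y') (y := y)
      (fun z _ => (hs.deriv x' z).hasDerivWithinAt) (fun z _ => by
        rw [Real.norm_eq_abs]; exact hs.hol.bdd x' z) convex_univ (mem_univ _) (mem_univ _)
    simpa [Real.norm_eq_abs] using this
  have h3 : -(M * (|x - x'| * |y - y'|)) ≤ (h x' y - h x' y') * (x - x') := by
    have h4 : |(h x' y - h x' y') * (x - x')| ≤ M * (|x - x'| * |y - y'|) := by
      rw [abs_mul]
      calc |h x' y - h x' y'| * |x - x'| ≤ (M * |y - y'|) * |x - x'| :=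
            mul_le_mul_of_nonneg_right h2 (abs_nonneg _)
        _ = M * (|x - x'| * |y - y'|) := by ring
    have := neg_abs_le ((h x' y - h x' y') * (x - x'))
    linarith
  have h5 : (h x y - h x' y') * (x - x') =
      (h x y - h x' y) * (x - x') + (h x' y - h x' y') * (x - x') := by ring
  rw [h5]
  linarith

/-- `G z = 2 c₀ h (Re z) (Im z) - i U (Re z) (Im z)`, with `U` from `exists_U`.  Continuity: `hs.cont`
and the Lipschitz bound of `U`.  The inequality: `h_mono` and the Lipschitz bound,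
`A = 2 c₀ M + 2 L`.  For `z ∉ K`: along the ultrafilter
`∫ kd dμ = II h (kx δ) = 2 II h (ps δ) - i II h (ky δ)` (`ident`, `II_kx`) tends to `G z`
(`tendsto_II_ps`) and to the Cauchy transform (`tendsto_kd_cauchy`). -/
theorem exists_G [IsFiniteMeasure μ] (hs : Slc μ h h' S M β) (hS : 0 < S) (hβ : 0 < β)
    (hβ1 : β ≤ 1) (hK : IsClosed K) (hμ : μ Kᶜ = 0) :
    ∃ (G : ℂ → ℂ) (A : ℝ), Continuous G ∧
      (∀ z w, -A * ‖z - w‖ ^ 2 ≤ ((G z - G w) * starRingEnd ℂ (z - w)).re) ∧
      ∀ z, z ∉ K → G z = ∫ ζ : ℂ, 1 / (z - ζ) ∂μ := by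
  obtain ⟨𝒰, U, L, h𝒰, hL, hU, hLip⟩ := exists_U hs.deriv hs.holh hs.hol hS hβ hβ1
  have hM : 0 ≤ M := le_trans (abs_nonneg _) (hs.holh.bdd 0 0)
  refine ⟨fun z => 2 * ((h z.re z.im * c₀ : ℝ) : ℂ) - Complex.I * U z.re z.im,
    2 * c₀ * M + 2 * L, ?_, ?_, ?_⟩
  · have hc1 : Continuous (fun z : ℂ => h z.re z.im) :=
      hs.cont.comp (Complex.continuous_re.prodMk Complex.continuous_im)
    have hc2 : Continuous (fun z : ℂ => U z.re z.im) := by
      have hLc : LipschitzWith (Real.toNNReal (2 * L)) (fun z : ℂ => U z.re z.im) := by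
        refine LipschitzWith.of_dist_le_mul fun z w => ?_
        rw [dist_eq_norm, dist_eq_norm, Real.coe_toNNReal _ (by positivity)]
        refine (hLip z.re z.im w.re w.im).trans ?_
        have h1 : |z.re - w.re| ≤ ‖z - w‖ := by
          simpa using Complex.abs_re_le_norm (z - w)
        have h2 : |z.im - w.im| ≤ ‖z - w‖ := by
          simpa using Complex.abs_im_le_norm (z - w)
        nlinarith
      exact hLc.continuous
    have hc3 : Continuous (fun z : ℂ => ((h z.re z.im * c₀ : ℝ) : ℂ)) :=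
      Complex.continuous_ofReal.comp (hc1.mul continuous_const)
    exact (continuous_const.mul hc3).sub (continuous_const.mul hc2)
  · intro z w
    have hc0 := c₀_pos
    have h1 : |z.re - w.re| ≤ ‖z - w‖ := by
      simpa using Complex.abs_re_le_norm (z - w)
    have h2 : |z.im - w.im| ≤ ‖z - w‖ := by
      simpa using Complex.abs_im_le_norm (z - w)
    have h3 := h_mono hs z.re z.im w.re w.im
    have h4 : |z.re - w.re| * |z.im - w.im| ≤ ‖z - w‖ * ‖z - w‖ :=
      mul_le_mul h1 h2 (abs_nonneg _) (norm_nonneg _)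
    have h5 : ‖Complex.I * (U z.re z.im - U w.re w.im) * starRingEnd ℂ (z - w)‖ ≤
        2 * L * ‖z - w‖ ^ 2 := by
      rw [norm_mul, norm_mul, Complex.norm_I, one_mul, RCLike.norm_conj]
      have h6 := hLip z.re z.im w.re w.im
      have h7 : ‖U z.re z.im - U w.re w.im‖ ≤ 2 * L * ‖z - w‖ := by
        refine h6.trans ?_
        nlinarith
      calc ‖U z.re z.im - U w.re w.im‖ * ‖z - w‖ ≤ (2 * L * ‖z - w‖) * ‖z - w‖ :=
            mul_le_mul_of_nonneg_right h7 (norm_nonneg _)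
        _ = 2 * L * ‖z - w‖ ^ 2 := by ring
    have h8 : ((2 * ((h z.re z.im * c₀ : ℝ) : ℂ) - Complex.I * U z.re z.im -
        (2 * ((h w.re w.im * c₀ : ℝ) : ℂ) - Complex.I * U w.re w.im)) *
          starRingEnd ℂ (z - w)).re =
        2 * c₀ * ((h z.re z.im - h w.re w.im) * (z.re - w.re)) -
          (Complex.I * (U z.re z.im - U w.re w.im) * starRingEnd ℂ (z - w)).re := by
      have h9 : (2 * ((h z.re z.im * c₀ : ℝ) : ℂ) - Complex.I * U z.re z.im -
          (2 * ((h w.re w.im * c₀ : ℝ) : ℂ) - Complex.I * U w.re w.im)) *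
            starRingEnd ℂ (z - w) =
          ((2 * c₀ * (h z.re z.im - h w.re w.im) : ℝ) : ℂ) * starRingEnd ℂ (z - w) -
            Complex.I * (U z.re z.im - U w.re w.im) * starRingEnd ℂ (z - w) := by
        push_cast
        ring
      rw [h9, Complex.sub_re, Complex.re_ofReal_mul, Complex.conj_re, Complex.sub_re]
      ring
    show -(2 * c₀ * M + 2 * L) * ‖z - w‖ ^ 2 ≤ ((2 * ((h z.re z.im * c₀ : ℝ) : ℂ) -
      Complex.I * U z.re z.im - (2 * ((h w.re w.im * c₀ : ℝ) : ℂ) -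
        Complex.I * U w.re w.im)) * starRingEnd ℂ (z - w)).re
    rw [h8]
    have h10 := (Complex.re_le_norm (Complex.I * (U z.re z.im - U w.re w.im) *
      starRingEnd ℂ (z - w))).trans h5
    have h11 : M * (|z.re - w.re| * |z.im - w.im|) ≤ M * ‖z - w‖ ^ 2 := by
      rw [pow_two]
      exact mul_le_mul_of_nonneg_left h4 hM
    have h12 : -(M * ‖z - w‖ ^ 2) ≤ (h z.re z.im - h w.re w.im) * (z.re - w.re) := by
      linarith
    have h13 : 2 * c₀ * (-(M * ‖z - w‖ ^ 2)) ≤
        2 * c₀ * ((h z.re z.im - h w.re w.im) * (z.re - w.re)) :=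
      mul_le_mul_of_nonneg_left h12 (by positivity)
    linarith
  · intro z hz
    have hT1 : Tendsto (fun δ : ℝ => ∫ ζ : ℂ, kd δ (z.re - ζ.re) (z.im - ζ.im) ∂μ) 𝒰
        (𝓝 (∫ ζ : ℂ, 1 / (z - ζ) ∂μ)) := (tendsto_kd_cauchy hK hμ hz).mono_left h𝒰
    have hT2 : Tendsto (fun δ : ℝ => 2 * II h (fun s t => (ps δ s t : ℂ)) z.re z.im -
        Complex.I * II h (ky δ) z.re z.im) 𝒰
        (𝓝 (2 * ((h z.re z.im * c₀ : ℝ) : ℂ) - Complex.I * U z.re z.im)) :=
      (((tendsto_II_ps hs.holh hs.cont z.re z.im).mono_left h𝒰).const_mul 2).sub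
        ((hU z.re z.im).const_mul Complex.I)
    have hev : ∀ᶠ δ : ℝ in 𝒰, 0 < δ := h𝒰 self_mem_nhdsWithin
    have hT3 : Tendsto (fun δ : ℝ => ∫ ζ : ℂ, kd δ (z.re - ζ.re) (z.im - ζ.im) ∂μ) 𝒰
        (𝓝 (2 * ((h z.re z.im * c₀ : ℝ) : ℂ) - Complex.I * U z.re z.im)) := by
      refine hT2.congr' ?_
      filter_upwards [hev] with δ hδ
      rw [ident hs.toDens hs.holh hδ, II_kx hs.holh hδ]
    exact tendsto_nhds_unique hT3 hT1

end Pool.Agent.MP018119
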