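import Pool.Agent.Lib.MP_018119_an.Defs

/-!
MP_018119_an, project CS: functions with Hölder derivative and compact support
-/

set_option autoImplicit false

noncomputable section

open MeasureTheory Filter Topology Set

namespace Pool.Agent.MP018119

variable {S β : ℝ}

private theorem holm_zero {f f' : ℝ → ℝ} (hd : ∀ y, HasDerivAt f (f' y) y)
    (hf : ∀ y, S < |y| → f y = 0) (y : ℝ) (hy : S < |y|) : f' y = 0 := by
  have h1 : f =ᶠ[𝓝 y] fun _ => (0 : ℝ) := by
    have h2 : ∀ᶠ z in 𝓝 y, S < |z| := (continuous_abs.tendsto y).eventually_const_lt hy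
    exact h2.mono fun z hz => hf z hz
  have h3 : HasDerivAt (fun _ : ℝ => (0 : ℝ)) (f' y) y := (hd y).congr_of_eventuallyEq h1.symm
  exact h3.unique (hasDerivAt_const y (0 : ℝ))

private theorem holm_mvt {f f' : ℝ → ℝ} (hd : ∀ y, HasDerivAt f (f' y) y) {C : ℝ}
    (hC : ∀ y, |f' y| ≤ C) (y y' : ℝ) : |f y - f y'| ≤ C * |y - y'| := by
  have h := Convex.norm_image_sub_le_of_norm_hasDerivWithin_le (f := f) (f' := f') (s := univ)
    (fun x _ => (hd x).hasDerivWithinAt) (fun x _ => hC x) convex_univ (mem_univ y') (mem_univ y)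
  exact h

/-- For `|y| ≤ S` compare `f' y` with `f' (S + 1) = 0`; then the mean value inequality between `y`
and `S + 1`. -/
theorem small_of_holder {f f' : ℝ → ℝ} {η : ℝ} (hS : 0 < S) (hβ : 0 < β)
    (hd : ∀ y, HasDerivAt f (f' y) y) (hf : ∀ y, S < |y| → f y = 0)
    (hη : ∀ y y', |f' y - f' y'| ≤ η * |y - y'| ^ β) (y : ℝ) :
    |f' y| ≤ η * (2 * S + 1) ^ β ∧ |f y| ≤ η * (2 * S + 1) ^ β * (2 * S + 1) := by
  have hη0 : 0 ≤ η := by
    have h := hη 1 0
    rw [sub_zero, abs_one, Real.one_rpow, mul_one] at h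
    exact (abs_nonneg _).trans h
  have hS1 : S < |S + 1| := by rw [abs_of_pos (by linarith)]; linarith
  have h0 : f' (S + 1) = 0 := holm_zero hd hf _ hS1
  have hC : ∀ y, |f' y| ≤ η * (2 * S + 1) ^ β := by
    intro y
    by_cases hy : S < |y|
    · rw [holm_zero hd hf y hy, abs_zero]
      positivity
    · push Not at hy
      have h1 := hη y (S + 1)
      rw [h0, sub_zero] at h1
      refine h1.trans (mul_le_mul_of_nonneg_left ?_ hη0)
      refine Real.rpow_le_rpow (abs_nonneg _) ?_ hβ.le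
      rw [abs_le] at hy ⊢
      constructor <;> linarith
  refine ⟨hC y, ?_⟩
  by_cases hy : S < |y|
  · rw [hf y hy, abs_zero]
    positivity
  · push Not at hy
    have h1 := holm_mvt hd hC y (S + 1)
    rw [hf _ hS1, sub_zero] at h1
    refine h1.trans (mul_le_mul_of_nonneg_left ?_ (by positivity))
    rw [abs_le] at hy ⊢
    constructor <;> linarith

/-- `h'` is the limit of the difference quotients `n (h x (y + 1/n) - h x y)` -/
theorem measurable_deriv {h h' : ℝ → ℝ → ℝ} (hd : ∀ x y, HasDerivAt (h x) (h' x y) y)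
    (hc : Continuous (fun p : ℝ × ℝ => h p.1 p.2)) :
    Measurable (fun p : ℝ × ℝ => h' p.1 p.2) := by
  have hlim : Tendsto (fun n : ℕ => (1 : ℝ) / ((n : ℝ) + 1)) atTop (𝓝[≠] 0) := by
    rw [tendsto_nhdsWithin_iff]
    refine ⟨tendsto_one_div_add_atTop_nhds_zero_nat, Eventually.of_forall fun n => ?_⟩
    have : (0 : ℝ) < (n : ℝ) + 1 := by positivity
    exact (one_div_pos.2 this).ne'
  refine measurable_of_tendsto_metrizable
    (f := fun (n : ℕ) (p : ℝ × ℝ) => ((1 : ℝ) / ((n : ℝ) + 1))⁻¹ *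
      (h p.1 (p.2 + 1 / ((n : ℝ) + 1)) - h p.1 p.2)) (fun n => ?_) ?_
  · have h1 : Continuous (fun p : ℝ × ℝ => h p.1 (p.2 + 1 / ((n : ℝ) + 1))) :=
      hc.comp (g := fun p : ℝ × ℝ => h p.1 p.2)
        (f := fun p : ℝ × ℝ => (p.1, p.2 + 1 / ((n : ℝ) + 1))) (by fun_prop)
    exact (continuous_const.mul (h1.sub hc)).measurable
  · rw [tendsto_pi_nhds]
    intro p
    have h1 := (hasDerivAt_iff_tendsto_slope_zero.1 (hd p.1 p.2)).comp hlim
    simpa [Function.comp_def, smul_eq_mul] using h1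

/-- `small_of_holder`; for the Hölder bound of `h` distinguish `|y - y'| ≤ 1` (mean value
inequality, `β ≤ 1`) and `|y - y'| ≥ 1`. -/
theorem exists_hol {h h' : ℝ → ℝ → ℝ} {M : ℝ} (hS : 0 < S) (hβ : 0 < β) (hβ1 : β ≤ 1)
    (hd : ∀ x y, HasDerivAt (h x) (h' x y) y) (hf : ∀ x y, S < |y| → h x y = 0)
    (hc : Continuous (fun p : ℝ × ℝ => h p.1 p.2))
    (hM : ∀ x y y', |h' x y - h' x y'| ≤ M * |y - y'| ^ β) :
    ∃ M', Hol h S M' β ∧ Hol h' S M' β := by
  have hM0 : 0 ≤ M := by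
    have h := hM 0 1 0
    rw [sub_zero, abs_one, Real.one_rpow, mul_one] at h
    exact (abs_nonneg _).trans h
  set C₁ : ℝ := M * (2 * S + 1) ^ β with hC₁
  set C₂ : ℝ := M * (2 * S + 1) ^ β * (2 * S + 1) with hC₂
  have hC₁0 : 0 ≤ C₁ := by positivity
  have hC₂0 : 0 ≤ C₂ := by positivity
  have hb : ∀ x y, |h' x y| ≤ C₁ ∧ |h x y| ≤ C₂ := fun x y =>
    small_of_holder hS hβ (hd x) (hf x) (hM x) y
  refine ⟨M + C₁ + 2 * C₂, ⟨hc.measurable, hf, fun x y => ?_, fun x y y' => ?_⟩,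
    ⟨measurable_deriv hd hc, fun x y hy => holm_zero (hd x) (hf x) y hy, fun x y => ?_,
      fun x y y' => ?_⟩⟩
  · have := (hb x y).2
    linarith
  · have hr : 0 ≤ |y - y'| ^ β := Real.rpow_nonneg (abs_nonneg _) _
    rcases le_total |y - y'| 1 with h1 | h1
    · have h2 := holm_mvt (hd x) (fun y => (hb x y).1) y y'
      have h3 : |y - y'| ≤ |y - y'| ^ β := by
        have := Real.rpow_le_rpow_of_exponent_ge_of_imp (x := |y - y'|) (y := 1) (z := β)
          (abs_nonneg _) h1 hβ1 (fun _ h => absurd h (by norm_num))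
        rwa [Real.rpow_one] at this
      calc |h x y - h x y'| ≤ C₁ * |y - y'| := h2
        _ ≤ C₁ * |y - y'| ^ β := mul_le_mul_of_nonneg_left h3 hC₁0
        _ ≤ (M + C₁ + 2 * C₂) * |y - y'| ^ β :=
          mul_le_mul_of_nonneg_right (by linarith) hr
    · have h2 : 1 ≤ |y - y'| ^ β := Real.one_le_rpow h1 hβ.le
      have h3 : |h x y - h x y'| ≤ 2 * C₂ := by
        refine (abs_sub _ _).trans ?_
        have := (hb x y).2
        have := (hb x y').2
        linarith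
      calc |h x y - h x y'| ≤ 2 * C₂ := h3
        _ ≤ 2 * C₂ * |y - y'| ^ β := le_mul_of_one_le_right (by positivity) h2
        _ ≤ (M + C₁ + 2 * C₂) * |y - y'| ^ β :=
          mul_le_mul_of_nonneg_right (by linarith) hr
  · have := (hb x y).1
    linarith
  · have hr : 0 ≤ |y - y'| ^ β := Real.rpow_nonneg (abs_nonneg _) _
    exact (hM x y y').trans (mul_le_mul_of_nonneg_right (by linarith) hr)

/-- `min (A t^α) B ≤ √(A B) t^(α/2)` -/
theorem le_sqrt_mul {X A B t α : ℝ} (hX : 0 ≤ X) (hA : 0 ≤ A) (hB : 0 ≤ B) (ht : 0 ≤ t)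
    (hα : 0 < α) (h1 : X ≤ A * t ^ α) (h2 : X ≤ B) : X ≤ √(A * B) * t ^ (α / 2) := by
  have h3 : t ^ (α / 2) = √(t ^ α) := by
    rw [Real.sqrt_eq_rpow, ← Real.rpow_mul ht]
    congr 1
    ring
  rw [h3, ← Real.sqrt_mul (mul_nonneg hA hB)]
  refine Real.le_sqrt_of_sq_le ?_
  calc X ^ 2 = X * X := sq X
    _ ≤ (A * t ^ α) * B := mul_le_mul h1 h2 hX (mul_nonneg hA (Real.rpow_nonneg ht _))
    _ = A * B * t ^ α := by ring

end Pool.Agent.MP018119
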