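import Pool.Agent.Lib.MP_018119_an.Defs
import Pool.Agent.Lib.MP_c8b4d4_an.Wind

/-!
MP_018119_an, project CS: strongly monotone maps of the plane are homeomorphisms
-/

set_option autoImplicit false

noncomputable section

open MeasureTheory Filter Topology Set

namespace Pool.Agent.MP018119

/-- Cauchy–Schwarz -/
theorem norm_le_of_mono {f : ℂ → ℂ}
    (h : ∀ z w, ‖z - w‖ ^ 2 / 2 ≤ ((f z - f w) * starRingEnd ℂ (z - w)).re) (z w : ℂ) :
    ‖z - w‖ ≤ 2 * ‖f z - f w‖ := by
  have h1 := h z w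
  have h2 : ((f z - f w) * starRingEnd ℂ (z - w)).re ≤ ‖f z - f w‖ * ‖z - w‖ := by
    refine (Complex.re_le_norm _).trans (le_of_eq ?_)
    rw [norm_mul, Complex.norm_conj]
  rcases (norm_nonneg (z - w)).eq_or_lt with h0 | h0
  · rw [← h0]
    positivity
  · have h3 : ‖z - w‖ * ‖z - w‖ ≤ (2 * ‖f z - f w‖) * ‖z - w‖ := by nlinarith
    exact le_of_mul_le_mul_right h3 h0

/-- Let `f z - z` be bounded by `B` and suppose that `w` is not a value.  `F z = f z - w` has a
continuous logarithm `ℓ` on `ℂ` (`Pool.Agent.C8B.Wind.exists_log`).  For `ρ > 2 (B + ‖w‖)` and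
`θ ∈ ℝ` one has `F (ρ e^{iθ}) = ρ e^{iθ} (1 + u θ)` with `‖u θ‖ ≤ 1/2`, so
`ℓ (ρ e^{iθ})` and `log ρ + i θ + Log (1 + u θ)` are two continuous logarithms of the same function
of `θ ∈ ℝ`; their difference is constant (`Wind.diff_const`); compare `θ = 0` and `θ = 2 π`. -/
theorem surj_of_bdd {f : ℂ → ℂ} (hf : Continuous f) {B : ℝ} (hB : ∀ z, ‖f z - z‖ ≤ B) :
    Function.Surjective f := by
  have hB0 : 0 ≤ B := (norm_nonneg _).trans (hB 0)
  intro w
  by_contra hw
  push Not at hw
  have hF0 : ∀ z, f z - w ≠ 0 := fun z => sub_ne_zero.mpr (hw z)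
  have _ : SimplyConnectedSpace ℂ := SimplyConnectedSpace.ofContractible ℂ
  have hFc : Continuous (fun z => f z - w) := hf.sub continuous_const
  obtain ⟨L, hL, hLe⟩ := Pool.Agent.C8B.Wind.exists_log (fun z => f z - w) hFc hF0
  set ρ : ℝ := 2 * (B + ‖w‖) + 1 with hρ
  have hw0 := norm_nonneg w
  have hρ0 : 0 < ρ := by positivity
  have hρc : (ρ : ℂ) ≠ 0 := by exact_mod_cast hρ0.ne'
  set p : ℝ → ℂ := fun θ => ρ * Complex.exp (θ * Complex.I) with hp
  have hpc : Continuous p := by
    rw [hp]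
    fun_prop
  have hpn : ∀ θ, ‖p θ‖ = ρ := fun θ => by
    rw [hp]
    simp only [norm_mul, Complex.norm_exp_ofReal_mul_I, mul_one, Complex.norm_real,
      Real.norm_of_nonneg hρ0.le]
  have hp0 : ∀ θ, p θ ≠ 0 := fun θ => by
    rw [← norm_pos_iff, hpn]
    exact hρ0
  set u : ℝ → ℂ := fun θ => (f (p θ) - p θ - w) / p θ with hu
  have huc : Continuous u := by
    have h1 : Continuous (fun θ => f (p θ) - p θ - w) := by
      have h2 : Continuous (fun θ => f (p θ)) := hf.comp hpc
      exact (h2.sub hpc).sub continuous_const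
    exact h1.div hpc hp0
  have hun : ∀ θ, ‖u θ‖ ≤ 1 / 2 := fun θ => by
    rw [hu]
    simp only [norm_div]
    rw [hpn, div_le_iff₀ hρ0]
    have h1 : ‖f (p θ) - p θ - w‖ ≤ B + ‖w‖ :=
      (norm_sub_le _ _).trans (add_le_add (hB _) le_rfl)
    linarith
  have hsl : ∀ θ, 1 + u θ ∈ Complex.slitPlane := fun θ => by
    refine Or.inl ?_
    have h1 := Complex.abs_re_le_norm (u θ)
    have h2 := (abs_le.mp (h1.trans (hun θ))).1
    rw [Complex.add_re, Complex.one_re]
    linarith
  have hBc : Continuous (fun θ : ℝ => (Real.log ρ : ℂ) + θ * Complex.I +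
      Complex.log (1 + u θ)) := by
    refine Continuous.add (by fun_prop) ?_
    exact (continuous_const.add huc).clog hsl
  have hAc : Continuous (fun θ : ℝ => L (p θ)) := hL.comp hpc
  have heq : ∀ θ : ℝ, Complex.exp (L (p θ)) =
      Complex.exp ((Real.log ρ : ℂ) + θ * Complex.I + Complex.log (1 + u θ)) := fun θ => by
    rw [hLe, Complex.exp_add, Complex.exp_add,
      Complex.exp_log (Complex.slitPlane_ne_zero (hsl θ))]
    rw [← Complex.ofReal_exp, Real.exp_log hρ0]
    have h1 : (ρ : ℂ) * Complex.exp (θ * Complex.I) = p θ := rfl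
    rw [h1, hu]
    simp only
    rw [mul_add, mul_one, mul_div_cancel₀ _ (hp0 θ)]
    ring
  obtain ⟨m, hm⟩ := Pool.Agent.C8B.Wind.diff_const hAc hBc heq
  have h0 := hm 0
  have h1 := hm (2 * Real.pi)
  have hpp : p (2 * Real.pi) = p 0 := by
    rw [hp]
    simp only
    push_cast
    rw [Complex.exp_two_pi_mul_I, zero_mul, Complex.exp_zero]
  have huu : u (2 * Real.pi) = u 0 := by
    rw [hu]
    simp only
    rw [hpp]
  rw [← h1, hpp, huu] at h0
  have h2 : (2 * (Real.pi : ℂ)) * Complex.I = 0 := by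
    have h3 := sub_eq_zero.mpr h0
    push_cast at h3
    linear_combination h3
  have h4 : (Real.pi : ℂ) ≠ 0 := by exact_mod_cast Real.pi_ne_zero
  simp [h4] at h2

/-- `f z = z + ε G z` satisfies the hypotheses of the two previous lemmas. -/
theorem exists_homeo {G : ℂ → ℂ} (hG : Continuous G) {B A ε : ℝ} (hB : ∀ z, ‖G z‖ ≤ B)
    (hA : ∀ z w, -A * ‖z - w‖ ^ 2 ≤ ((G z - G w) * starRingEnd ℂ (z - w)).re) (hε : 0 < ε)
    (hεA : ε * A ≤ 1 / 2) : ∃ f : ℂ ≃ₜ ℂ, ∀ z, f z = z + ε * G z := by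
  set f : ℂ → ℂ := fun z => z + ε * G z with hf
  have hfc : Continuous f := continuous_id.add (continuous_const.mul hG)
  have hmono : ∀ z w, ‖z - w‖ ^ 2 / 2 ≤ ((f z - f w) * starRingEnd ℂ (z - w)).re := by
    intro z w
    have e : (f z - f w) * starRingEnd ℂ (z - w) =
        (z - w) * starRingEnd ℂ (z - w) + ε * ((G z - G w) * starRingEnd ℂ (z - w)) := by
      rw [hf]
      ring
    rw [e, Complex.add_re, Complex.re_ofReal_mul, Complex.mul_conj, Complex.ofReal_re,
      Complex.normSq_eq_norm_sq]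
    have h1 := mul_le_mul_of_nonneg_left (hA z w) hε.le
    have h2 : 0 ≤ ‖z - w‖ ^ 2 := by positivity
    nlinarith
  have hle := norm_le_of_mono hmono
  have hinj : Function.Injective f := by
    intro z w h
    have h1 := hle z w
    rw [h, sub_self, norm_zero, mul_zero] at h1
    exact sub_eq_zero.mp (norm_le_zero_iff.mp h1)
  have hbd : ∀ z, ‖f z - z‖ ≤ ε * B := fun z => by
    have e : f z - z = ε * G z := by
      rw [hf]
      ring
    rw [e, norm_mul, Complex.norm_real, Real.norm_of_nonneg hε.le]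
    exact mul_le_mul_of_nonneg_left (hB z) hε.le
  have hsurj : Function.Surjective f := surj_of_bdd hfc hbd
  set e : ℂ ≃ ℂ := Equiv.ofBijective f ⟨hinj, hsurj⟩ with he
  have hec : Continuous e := hfc
  have hlip : LipschitzWith 2 e.symm := by
    refine LipschitzWith.of_dist_le_mul fun a b => ?_
    rw [dist_eq_norm, dist_eq_norm]
    have h1 := hle (e.symm a) (e.symm b)
    have h2 : ∀ x, f (e.symm x) = x := fun x => e.apply_symm_apply x
    rw [h2, h2] at h1
    exact h1
  exact ⟨⟨e, hec, hlip.continuous⟩, fun z => rfl⟩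

end Pool.Agent.MP018119
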