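import Pool.Agent.Lib.MP_018119_an.Dom

/-!
MP_018119_an, project CS: integration by parts in y
-/

set_option autoImplicit false

noncomputable section

open MeasureTheory Filter Topology Set

namespace Pool.Agent.MP018119

variable {h h' : ℝ → ℝ → ℝ} {S M β δ : ℝ}

private lemma ibp_cont (hh' : Hol h' S M β) (hβ : 0 < β) (x : ℝ) : Continuous (h' x) := by
  rw [continuous_iff_continuousAt]
  intro y
  have h1 : Tendsto (fun y' : ℝ => M * |y' - y| ^ β) (𝓝 y) (𝓝 0) := by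
    have h2 : Tendsto (fun y' : ℝ => |y' - y|) (𝓝 y) (𝓝 0) := by
      have h3 : Continuous (fun y' : ℝ => |y' - y|) := by fun_prop
      have h4 := h3.tendsto y
      simpa using h4
    have h5 := (h2.rpow_const (p := β) (Or.inr hβ.le)).const_mul M
    rw [Real.zero_rpow hβ.ne', mul_zero] at h5
    exact h5
  rw [ContinuousAt, tendsto_iff_norm_sub_tendsto_zero]
  refine squeeze_zero (fun _ => norm_nonneg _) (fun y' => ?_) h1
  rw [Real.norm_eq_abs]
  exact hh'.hol x y' y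

private lemma ibp_int {b : ℝ → ℝ → ℝ} (hb : Hol b S M β) (x : ℝ) (hc : Continuous (b x))
    {κ : ℝ → ℂ} (hκ : Continuous κ) : Integrable (fun y : ℝ => (b x y : ℂ) * κ y) := by
  refine Continuous.integrable_of_hasCompactSupport
    ((Complex.continuous_ofReal.comp hc).mul hκ) ?_
  refine HasCompactSupport.intro (K := Icc (-S) S) isCompact_Icc fun y hy => ?_
  have h5 : b x y = 0 := by
    apply hb.supp
    by_contra hcon
    exact hy (abs_le.1 (not_lt.1 hcon))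
  rw [h5, Complex.ofReal_zero, zero_mul]

/-- The function `y ↦ h x y * kd δ s (y₀ - y)` is `C¹` with compact support, so the integral of its
derivative `h' x y * kd δ s (y₀ - y) - h x y * ky δ s (y₀ - y)` is `0`
(`integral_of_hasDerivAt_of_tendsto` or interval integrals over `[-S - 1, S + 1]`;  `h' x` is
continuous if `0 < β`). -/
theorem ibp_inner (hd : ∀ x y, HasDerivAt (h x) (h' x y) y) (hh : Hol h S M β) (hh' : Hol h' S M β)
    (hβ : 0 < β) (hδ : 0 < δ) (x s y₀ : ℝ) :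
    ∫ y : ℝ, (h x y : ℂ) * ky δ s (y₀ - y) = ∫ y : ℝ, (h' x y : ℂ) * kd δ s (y₀ - y) := by
  have hc : Continuous (h x) := continuous_iff_continuousAt.2 fun y => (hd x y).continuousAt
  have hc' : Continuous (h' x) := ibp_cont hh' hβ x
  have hk : Continuous (fun y : ℝ => kd δ s (y₀ - y)) :=
    (continuous_kd hδ).comp (f := fun y : ℝ => (s, y₀ - y)) (by fun_prop)
  have hk' : Continuous (fun y : ℝ => -ky δ s (y₀ - y)) :=
    ((continuous_ky hδ).comp (f := fun y : ℝ => (s, y₀ - y)) (by fun_prop)).neg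
  have hu : ∀ y, HasDerivAt (fun y : ℝ => (h x y : ℂ)) (h' x y : ℂ) y := fun y =>
    (hd x y).ofReal_comp
  have hv : ∀ y, HasDerivAt (fun y : ℝ => kd δ s (y₀ - y)) (-ky δ s (y₀ - y)) y := fun y => by
    have h1 := (hasDerivAt_kd_t hδ s (y₀ - y)).scomp y ((hasDerivAt_id y).const_sub y₀)
    simp only [neg_smul, one_smul] at h1
    exact h1
  have h1 := integral_mul_deriv_eq_deriv_mul_of_integrable (fun y _ => hu y)
    (fun y _ => hv y) (ibp_int hh x hc hk')
    (ibp_int hh' x hc' hk) (ibp_int hh x hc hk)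
  have h2 : ∀ y : ℝ, (h x y : ℂ) * -ky δ s (y₀ - y) = -((h x y : ℂ) * ky δ s (y₀ - y)) :=
    fun y => mul_neg _ _
  rw [integral_congr_ae (Filter.Eventually.of_forall h2), integral_neg, neg_inj] at h1
  exact h1

/-- `kd (x₀ - x) t - kd (x₀' - x) t` is bounded by `K / (1 + x²)` (mean value inequality with
`norm_kx_le`, `norm_ky_le` and `dom_le`, `R = |x₀| + |x₀'|`) -/
theorem kd_sub_le (hδ : 0 < δ) (x₀ y₀ x₀' y₀' : ℝ) : ∃ K : ℝ, 0 < K ∧ ∀ x y : ℝ,
    ‖kd δ (x₀ - x) (y₀ - y) - kd δ (x₀' - x) (y₀' - y)‖ ≤ K / (1 + x ^ 2) := by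
  obtain ⟨K, hK, hKb⟩ := dom_le hδ (|x₀| + |x₀'|)
  refine ⟨5 * K * (|x₀ - x₀'| + |y₀ - y₀'|) + 1, by positivity, fun x y => ?_⟩
  have hx1 : 0 < 1 + x ^ 2 := by positivity
  have h1 : ‖kd δ (x₀ - x) (y₀ - y) - kd δ (x₀' - x) (y₀ - y)‖ ≤
      5 * K / (1 + x ^ 2) * |x₀ - x₀'| := by
    have hconv : Convex ℝ (Icc (-(|x₀| + |x₀'|)) (|x₀| + |x₀'|)) := convex_Icc _ _
    have h2 := Convex.norm_image_sub_le_of_norm_hasDerivWithin_le
      (f := fun τ : ℝ => kd δ (τ - x) (y₀ - y)) (f' := fun τ : ℝ => kx δ (τ - x) (y₀ - y))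
      (C := 5 * K / (1 + x ^ 2)) (s := Icc (-(|x₀| + |x₀'|)) (|x₀| + |x₀'|)) (x := x₀') (y := x₀)
      (fun τ _ => by
        have h3 := (hasDerivAt_kd_s hδ (τ - x) (y₀ - y)).scomp τ ((hasDerivAt_id τ).sub_const x)
        simp only [one_smul] at h3
        exact h3.hasDerivWithinAt)
      (fun τ hτ => by
        have h4 := norm_kx_le hδ (τ - x) (y₀ - y)
        have h5 := hKb τ x (y₀ - y) (abs_le.2 hτ)
        refine h4.trans ?_
        have h6 : 5 / qq δ (τ - x) (y₀ - y) = 5 * (1 / qq δ (τ - x) (y₀ - y)) := by ring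
        have h7 : 5 * K / (1 + x ^ 2) = 5 * (K / (1 + x ^ 2)) := by ring
        rw [h6, h7]
        linarith)
      hconv
      (abs_le.1 (by linarith [abs_nonneg x₀]))
      (abs_le.1 (by linarith [abs_nonneg x₀']))
    simpa [Real.norm_eq_abs] using h2
  have h2 : ‖kd δ (x₀' - x) (y₀ - y) - kd δ (x₀' - x) (y₀' - y)‖ ≤
      5 * K / (1 + x ^ 2) * |y₀ - y₀'| := by
    have h2 := Convex.norm_image_sub_le_of_norm_hasDerivWithin_le
      (f := fun t : ℝ => kd δ (x₀' - x) t) (f' := fun t : ℝ => ky δ (x₀' - x) t)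
      (C := 5 * K / (1 + x ^ 2)) (s := univ) (x := y₀' - y) (y := y₀ - y)
      (fun t _ => (hasDerivAt_kd_t hδ (x₀' - x) t).hasDerivWithinAt)
      (fun t _ => by
        have h4 := norm_ky_le hδ (x₀' - x) t
        have h5 := hKb x₀' x t (by linarith [abs_nonneg x₀])
        refine h4.trans ?_
        have h6 : 3 / qq δ (x₀' - x) t = 3 * (1 / qq δ (x₀' - x) t) := by ring
        have h7 : 5 * K / (1 + x ^ 2) = 5 * (K / (1 + x ^ 2)) := by ring
        have h8 : 0 < K / (1 + x ^ 2) := by positivity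
        rw [h6, h7]
        linarith)
      convex_univ (mem_univ _) (mem_univ _)
    have h9 : y₀ - y - (y₀' - y) = y₀ - y₀' := by ring
    rw [h9] at h2
    simpa [Real.norm_eq_abs] using h2
  have h3 : kd δ (x₀ - x) (y₀ - y) - kd δ (x₀' - x) (y₀' - y) =
      (kd δ (x₀ - x) (y₀ - y) - kd δ (x₀' - x) (y₀ - y)) +
        (kd δ (x₀' - x) (y₀ - y) - kd δ (x₀' - x) (y₀' - y)) := by ring
  rw [h3]
  refine (norm_add_le _ _).trans ((add_le_add h1 h2).trans ?_)
  have h4 : 5 * K / (1 + x ^ 2) * |x₀ - x₀'| + 5 * K / (1 + x ^ 2) * |y₀ - y₀'| =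
      (5 * K * (|x₀ - x₀'| + |y₀ - y₀'|)) / (1 + x ^ 2) := by ring
  rw [h4]
  exact div_le_div_of_nonneg_right (by linarith) hx1.le

/-- the difference of two values of `II h (ky δ)`: `integral_prod` for the three integrals
(`integrable_ky`, `integrable_strip`, `kd_sub_le`) and `ibp_inner` -/
theorem ibp (hd : ∀ x y, HasDerivAt (h x) (h' x y) y) (hh : Hol h S M β) (hh' : Hol h' S M β)
    (hβ : 0 < β) (hδ : 0 < δ) (x₀ y₀ x₀' y₀' : ℝ) :
    II h (ky δ) x₀ y₀ - II h (ky δ) x₀' y₀' =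
      ∫ p : ℝ × ℝ, (h' p.1 p.2 : ℂ) *
        (kd δ (x₀ - p.1) (y₀ - p.2) - kd δ (x₀' - p.1) (y₀' - p.2)) := by
  obtain ⟨K, hK, hKb⟩ := kd_sub_le hδ x₀ y₀ x₀' y₀'
  have hM0 : 0 ≤ M := (abs_nonneg _).trans (hh'.bdd 0 0)
  have hkc : ∀ a b : ℝ, Continuous (fun p : ℝ × ℝ => kd δ (a - p.1) (b - p.2)) := fun a b =>
    (continuous_kd hδ).comp (f := fun p : ℝ × ℝ => (a - p.1, b - p.2)) (by fun_prop)
  have hI : Integrable (fun p : ℝ × ℝ => (h' p.1 p.2 : ℂ) *
      (kd δ (x₀ - p.1) (y₀ - p.2) - kd δ (x₀' - p.1) (y₀' - p.2))) := by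
    refine ((integrable_strip S).const_mul (M * K)).mono' ?_
      (Filter.Eventually.of_forall fun p => ?_)
    · exact ((Complex.measurable_ofReal.comp hh'.meas).mul
        ((hkc x₀ y₀).sub (hkc x₀' y₀')).measurable).aestronglyMeasurable
    · rw [norm_mul, Complex.norm_real, Real.norm_eq_abs]
      by_cases hp : p.2 ∈ Icc (-S) S
      · rw [indicator_of_mem hp]
        have h4 : M * K * (1 / (1 + p.1 ^ 2)) = M * (K / (1 + p.1 ^ 2)) := by ring
        rw [h4]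
        exact mul_le_mul (hh'.bdd _ _) (hKb _ _) (norm_nonneg _) hM0
      · have h5 : h' p.1 p.2 = 0 := by
          apply hh'.supp
          by_contra hc
          exact hp (abs_le.1 (not_lt.1 hc))
        rw [indicator_of_notMem hp, h5, abs_zero, zero_mul, zero_div, mul_zero]
  have h1 := integrable_ky hh hδ x₀ y₀
  have h2 := integrable_ky hh hδ x₀' y₀'
  have e1 : II h (ky δ) x₀ y₀ = ∫ x : ℝ, ∫ y : ℝ, (h x y : ℂ) * ky δ (x₀ - x) (y₀ - y) := by
    unfold II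
    exact integral_prod _ h1
  have e2 : II h (ky δ) x₀' y₀' = ∫ x : ℝ, ∫ y : ℝ, (h x y : ℂ) * ky δ (x₀' - x) (y₀' - y) := by
    unfold II
    exact integral_prod _ h2
  have e3 : ∫ p : ℝ × ℝ, (h' p.1 p.2 : ℂ) *
      (kd δ (x₀ - p.1) (y₀ - p.2) - kd δ (x₀' - p.1) (y₀' - p.2)) =
      ∫ x : ℝ, ∫ y : ℝ, (h' x y : ℂ) * (kd δ (x₀ - x) (y₀ - y) - kd δ (x₀' - x) (y₀' - y)) :=
    integral_prod _ hI
  have i1 : Integrable (fun x : ℝ => ∫ y : ℝ, (h x y : ℂ) * ky δ (x₀ - x) (y₀ - y)) :=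
    h1.integral_prod_left
  have i2 : Integrable (fun x : ℝ => ∫ y : ℝ, (h x y : ℂ) * ky δ (x₀' - x) (y₀' - y)) :=
    h2.integral_prod_left
  rw [e1, e2, e3, ← integral_sub i1 i2]
  refine integral_congr_ae (Filter.Eventually.of_forall fun x => ?_)
  dsimp only
  have hc' : Continuous (h' x) := ibp_cont hh' hβ x
  have hk : ∀ a b : ℝ, Continuous (fun y : ℝ => kd δ a (b - y)) := fun a b =>
    (continuous_kd hδ).comp (f := fun y : ℝ => (a, b - y)) (by fun_prop)
  rw [ibp_inner hd hh hh' hβ hδ x (x₀ - x) y₀, ibp_inner hd hh hh' hβ hδ x (x₀' - x) y₀',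
    ← integral_sub (ibp_int hh' x hc' (hk _ _)) (ibp_int hh' x hc' (hk _ _))]
  refine integral_congr_ae (Filter.Eventually.of_forall fun y => ?_)
  dsimp only
  ring

end Pool.Agent.MP018119
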