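import Pool.Agent.Lib.MP_018119_an.Holm
import Pool.Agent.Lib.MP_018119_an.SlInt

/-!
MP_018119_an, project CS: smooth slices have small increments
-/

set_option autoImplicit false

noncomputable section

open MeasureTheory Filter Topology Set

namespace Pool.Agent.MP018119

variable {μ : Measure ℂ} {h h' : ℝ → ℝ → ℝ} {S M α : ℝ}

private theorem Inc_local [IsFiniteMeasure μ] (hl : ∀ x, μ {z | z.re = x} = 0)
    {θ : ℝ} (hθ : 0 < θ) (x : ℝ) : ∃ ρ > 0, μ {z | |z.re - x| < ρ} ≤ ENNReal.ofReal θ := by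
  have hm : ∀ n : ℕ, MeasurableSet {z : ℂ | |z.re - x| < 1 / ((n : ℝ) + 1)} := by
    intro n
    exact measurableSet_lt (by fun_prop) measurable_const
  have hanti : Antitone fun n : ℕ => {z : ℂ | |z.re - x| < 1 / ((n : ℝ) + 1)} := by
    intro a b hab z hz
    have hz' : |z.re - x| < 1 / ((b : ℝ) + 1) := hz
    show |z.re - x| < 1 / ((a : ℝ) + 1)
    refine hz'.trans_le ?_
    exact Nat.one_div_le_one_div hab
  have h1 : Tendsto (fun n : ℕ => μ {z : ℂ | |z.re - x| < 1 / ((n : ℝ) + 1)}) atTop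
      (𝓝 (μ (⋂ n : ℕ, {z : ℂ | |z.re - x| < 1 / ((n : ℝ) + 1)}))) :=
    tendsto_measure_iInter_atTop (fun n => (hm n).nullMeasurableSet) hanti
      ⟨0, measure_ne_top μ _⟩
  have h2 : (⋂ n : ℕ, {z : ℂ | |z.re - x| < 1 / ((n : ℝ) + 1)}) ⊆ {z : ℂ | z.re = x} := by
    intro z hz
    rw [mem_iInter] at hz
    by_contra hne
    have hpos : 0 < |z.re - x| := abs_pos.2 (sub_ne_zero.2 hne)
    obtain ⟨n, hn⟩ := exists_nat_one_div_lt hpos
    have h3 : |z.re - x| < 1 / ((n : ℝ) + 1) := hz n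
    linarith
  have h3 : μ (⋂ n : ℕ, {z : ℂ | |z.re - x| < 1 / ((n : ℝ) + 1)}) = 0 :=
    measure_mono_null h2 (hl x)
  rw [h3] at h1
  have h4 : ∀ᶠ n : ℕ in atTop, μ {z : ℂ | |z.re - x| < 1 / ((n : ℝ) + 1)} <
      ENNReal.ofReal θ := h1.eventually_lt_const (ENNReal.ofReal_pos.2 hθ)
  obtain ⟨n, hn⟩ := h4.exists
  exact ⟨1 / ((n : ℝ) + 1), by positivity, hn.le⟩

/-- If not there are `x n` with `μ {x n < Re ≤ x n + 1/n} > θ`; `x n` is bounded; a limit point
`x` of a subsequence satisfies `μ {|Re - x| ≤ ρ} ≥ θ` for all `ρ > 0`, so `μ {Re = x} ≥ θ`. -/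
theorem strip_uc [IsFiniteMeasure μ] (hl : ∀ x, μ {z | z.re = x} = 0)
    (hR : μ {z | S < |z.re|} = 0) {θ : ℝ} (hθ : 0 < θ) : ∃ δ > 0, ∀ x x', x ≤ x' → x' ≤ x + δ →
      μ {z | x < z.re ∧ z.re ≤ x'} ≤ ENNReal.ofReal θ := by
  choose ρ hρ hμ using fun x => Inc_local hl hθ x
  obtain ⟨δ, hδ, hleb⟩ := lebesgue_number_lemma_of_metric (s := Icc (-S - 1) (S + 1))
    (c := fun x : ℝ => Metric.ball x (ρ x)) isCompact_Icc (fun x => Metric.isOpen_ball)
    (fun x _ => mem_iUnion.2 ⟨x, Metric.mem_ball_self (hρ x)⟩)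
  refine ⟨min (δ / 2) 1, lt_min (half_pos hδ) one_pos, fun x x' hxx' hx' => ?_⟩
  have hx1 : x' ≤ x + δ / 2 := hx'.trans (by linarith [min_le_left (δ / 2) (1 : ℝ)])
  have hx2 : x' ≤ x + 1 := hx'.trans (by linarith [min_le_right (δ / 2) (1 : ℝ)])
  by_cases hx : x ∈ Icc (-S - 1) (S + 1)
  · obtain ⟨y, hy⟩ := hleb x hx
    refine (measure_mono ?_).trans (hμ y)
    intro z hz
    have hz' : x < z.re ∧ z.re ≤ x' := hz
    have h1 : z.re ∈ Metric.ball x δ := by
      rw [Metric.mem_ball, Real.dist_eq, abs_of_nonneg (by linarith [hz'.1])]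
      linarith [hz'.2]
    have h2 := hy h1
    rw [Metric.mem_ball, Real.dist_eq] at h2
    exact h2
  · have h1 : μ {z : ℂ | x < z.re ∧ z.re ≤ x'} = 0 := by
      refine measure_mono_null ?_ hR
      intro z hz
      have hz' : x < z.re ∧ z.re ≤ x' := hz
      show S < |z.re|
      rw [mem_Icc, not_and_or, not_le, not_le] at hx
      rcases hx with hx | hx
      · have : z.re < -S := by linarith [hz'.2]
        have h3 := neg_abs_le z.re
        linarith
      · have h3 := le_abs_self z.re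
        linarith [hz'.1]
    rw [h1]
    exact zero_le

private theorem Inc_one {M α η r : ℝ} (hM : 0 ≤ M) (hα : 0 < α) (hη : 0 < η) (hr : 0 < r)
    (hMr : M * r ^ α ≤ η / 2) {f f' : ℝ → ℝ} (h0 : ∀ y, 0 ≤ f y)
    (hd : ∀ y, HasDerivAt f (f' y) y) (hh : ∀ y y', |f' y - f' y'| ≤ M * |y - y'| ^ α)
    {y : ℝ} (hy : η < f' y) :
    ENNReal.ofReal (η * r / 4 * (r / 2)) ≤ ∫⁻ y, ENNReal.ofReal (f y) := by
  have h1 : ∀ u ∈ interior (Icc y (y + r)), η / 2 ≤ deriv f u := by
    intro u hu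
    rw [interior_Icc] at hu
    rw [(hd u).deriv]
    have h2 := hh y u
    have h3 : |y - u| ≤ r := by
      rw [abs_of_nonpos (by linarith [hu.1])]
      linarith [hu.2]
    have h4 : |y - u| ^ α ≤ r ^ α := Real.rpow_le_rpow (abs_nonneg _) h3 hα.le
    have h5 : |f' y - f' u| ≤ η / 2 := h2.trans ((mul_le_mul_of_nonneg_left h4 hM).trans hMr)
    have h6 := (abs_le.1 h5).2
    linarith
  have hcont : Continuous f := continuous_iff_continuousAt.2 fun u => (hd u).continuousAt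
  have h2 := Convex.mul_sub_le_image_sub_of_le_deriv (convex_Icc y (y + r)) hcont.continuousOn
    (fun u _ => (hd u).differentiableAt.differentiableWithinAt) h1
  have h3 : ∀ u ∈ Icc (y + r / 2) (y + r), η * r / 4 ≤ f u := by
    intro u hu
    have h4 := h2 y ⟨le_refl _, by linarith⟩ u ⟨by linarith [hu.1], hu.2⟩ (by linarith [hu.1])
    have h5 : r / 2 ≤ u - y := by linarith [hu.1]
    have h6 : η / 2 * (r / 2) ≤ η / 2 * (u - y) := mul_le_mul_of_nonneg_left h5 (by linarith)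
    have h7 := h0 y
    nlinarith
  calc ENNReal.ofReal (η * r / 4 * (r / 2))
      = ENNReal.ofReal (η * r / 4) * volume (Icc (y + r / 2) (y + r)) := by
        rw [Real.volume_Icc, ENNReal.ofReal_mul (by positivity)]
        congr 2
        ring
    _ = ∫⁻ _u in Icc (y + r / 2) (y + r), ENNReal.ofReal (η * r / 4) := by
        rw [setLIntegral_const]
    _ ≤ ∫⁻ u in Icc (y + r / 2) (y + r), ENNReal.ofReal (f u) :=
        setLIntegral_mono hcont.measurable.ennreal_ofReal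
          fun u hu => ENNReal.ofReal_le_ofReal (h3 u hu)
    _ ≤ ∫⁻ u, ENNReal.ofReal (f u) := setLIntegral_le_lintegral _ _

/-- Choose `r` with `M r^α ≤ η / 2` and `θ < η r² / 4`.  If `f' y > η` then `f' ≥ η / 2` on
`[y, y + r]`, so `f (y + t) ≥ η t / 2` there and `∫ f ≥ η r² / 4`; if `f' y < -η` use
`[y - r, y]`. -/
theorem deriv_small {M α η : ℝ} (hM : 0 ≤ M) (hα : 0 < α) (hη : 0 < η) : ∃ θ > 0,
    ∀ f f' : ℝ → ℝ, (∀ y, 0 ≤ f y) → (∀ y, HasDerivAt f (f' y) y) →
      (∀ y y', |f' y - f' y'| ≤ M * |y - y'| ^ α) →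
      ∫⁻ y, ENNReal.ofReal (f y) ≤ ENNReal.ofReal θ → ∀ y, |f' y| ≤ η := by
  have hb : 0 < η / (2 * (M + 1)) := by positivity
  obtain ⟨r, hr, hMr⟩ : ∃ r : ℝ, 0 < r ∧ M * r ^ α ≤ η / 2 := by
    refine ⟨(η / (2 * (M + 1))) ^ (1 / α), Real.rpow_pos_of_pos hb _, ?_⟩
    rw [← Real.rpow_mul hb.le, one_div_mul_cancel hα.ne', Real.rpow_one]
    have h1 : M * (η / (2 * (M + 1))) = η / 2 * (M / (M + 1)) := by
      field_simp
    have h2 : M / (M + 1) ≤ 1 := by
      rw [div_le_one (by positivity)]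
      linarith
    rw [h1]
    calc η / 2 * (M / (M + 1)) ≤ η / 2 * 1 := mul_le_mul_of_nonneg_left h2 (by positivity)
      _ = η / 2 := mul_one _
  have hpos : 0 < η * r / 4 * (r / 2) := by positivity
  refine ⟨η * r / 4 * (r / 2) / 2, half_pos hpos, fun f f' h0 hd hh hint y => ?_⟩
  have hlt : ENNReal.ofReal (η * r / 4 * (r / 2) / 2) < ENNReal.ofReal (η * r / 4 * (r / 2)) :=
    (ENNReal.ofReal_lt_ofReal_iff hpos).2 (half_lt_self hpos)
  rw [abs_le]
  constructor
  · by_contra hy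
    rw [not_le] at hy
    have h1 := Inc_one (f := fun u => f (-u)) (f' := fun u => -f' (-u)) (y := -y) hM hα hη hr
      hMr (fun u => h0 _) (fun u => by
        have h2 := HasDerivAt.comp u (hd (-u)) (hasDerivAt_neg u)
        rw [mul_neg_one] at h2
        exact h2) (fun u u' => by
        have h2 := hh (-u) (-u')
        have e1 : -f' (-u) - -f' (-u') = -(f' (-u) - f' (-u')) := by ring
        have e2 : -u - -u' = -(u - u') := by ring
        rw [e2, abs_neg] at h2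
        rw [e1, abs_neg]
        exact h2) (by
        rw [neg_neg]
        linarith)
    have h2 : ∫⁻ u, ENNReal.ofReal (f (-u)) = ∫⁻ u, ENNReal.ofReal (f u) :=
      lintegral_neg_eq_self (fun u => ENNReal.ofReal (f u))
    rw [h2] at h1
    exact absurd (h1.trans hint) (not_le.2 hlt)
  · by_contra hy
    rw [not_le] at hy
    have h1 := Inc_one hM hα hη hr hMr h0 hd hh hy
    exact absurd (h1.trans hint) (not_le.2 hlt)

end Pool.Agent.MP018119
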