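import Pool.Agent.Lib.MP_018119_an.Defs

/-!
MP_018119_an, project CS: the kernels: derivatives, bounds, continuity
-/

set_option autoImplicit false

noncomputable section

open MeasureTheory Filter Topology Set

namespace Pool.Agent.MP018119

private lemma kn_sq (s t : ℝ) : ‖(s : ℂ) - t * Complex.I‖ ^ 2 = s ^ 2 + t ^ 2 := by
  rw [Complex.sq_norm, Complex.normSq_apply]
  simp
  ring

theorem qq_pos {δ : ℝ} (hδ : 0 < δ) (s t : ℝ) : 0 < qq δ s t := by
  unfold qq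
  positivity

theorem continuous_kd {δ : ℝ} (hδ : 0 < δ) : Continuous (fun p : ℝ × ℝ => kd δ p.1 p.2) := by
  unfold kd
  refine Continuous.div (by fun_prop) (by unfold qq; fun_prop) fun p => ?_
  exact Complex.ofReal_ne_zero.mpr (qq_pos hδ p.1 p.2).ne'

theorem continuous_ky {δ : ℝ} (hδ : 0 < δ) : Continuous (fun p : ℝ × ℝ => ky δ p.1 p.2) := by
  unfold ky
  have h0 : ∀ p : ℝ × ℝ, (qq δ p.1 p.2 : ℂ) ≠ 0 := fun p =>
    Complex.ofReal_ne_zero.mpr (qq_pos hδ p.1 p.2).ne'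
  refine Continuous.sub (Continuous.div (by fun_prop) (by unfold qq; fun_prop) h0)
    (Continuous.div (by fun_prop) (by unfold qq; fun_prop) fun p => pow_ne_zero 2 (h0 p))

theorem continuous_kx {δ : ℝ} (hδ : 0 < δ) : Continuous (fun p : ℝ × ℝ => kx δ p.1 p.2) := by
  unfold kx
  have h1 : Continuous (fun p : ℝ × ℝ => ps δ p.1 p.2) := by
    unfold ps
    exact Continuous.div (by fun_prop) (by unfold qq; fun_prop) fun p =>
      pow_ne_zero 2 (qq_pos hδ p.1 p.2).ne'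
  have h2 := continuous_ky hδ
  exact (continuous_const.mul (Complex.continuous_ofReal.comp h1)).sub (continuous_const.mul h2)

theorem continuous_ps {δ : ℝ} (hδ : 0 < δ) : Continuous (fun p : ℝ × ℝ => ps δ p.1 p.2) := by
  unfold ps
  exact Continuous.div (by fun_prop) (by unfold qq; fun_prop) fun p =>
    pow_ne_zero 2 (qq_pos hδ p.1 p.2).ne'

theorem hasDerivAt_kd_t {δ : ℝ} (hδ : 0 < δ) (s t : ℝ) :
    HasDerivAt (fun t => kd δ s t) (ky δ s t) t := by
  have h0 : (qq δ s t : ℂ) ≠ 0 := Complex.ofReal_ne_zero.mpr (qq_pos hδ s t).ne'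
  have h1 : HasDerivAt (fun t : ℝ => (s : ℂ) - t * Complex.I) (-Complex.I) t := by
    have := ((hasDerivAt_id t).ofReal_comp.mul_const Complex.I).const_sub (s : ℂ)
    simpa using this
  have h2 : HasDerivAt (fun t : ℝ => (qq δ s t : ℂ)) (2 * t : ℂ) t := by
    have h3 : HasDerivAt (fun t : ℝ => qq δ s t) (2 * t) t := by
      have := ((hasDerivAt_pow 2 t).const_add (s ^ 2)).add_const (δ ^ 2)
      simpa [qq] using this
    have := h3.ofReal_comp
    push_cast at this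
    exact this
  have h4 := h1.div h2 h0
  refine h4.congr_deriv ?_
  unfold ky
  field_simp

/-- `∂_s kd = 1/q - (s - i t) 2 s / q² = 2 ps - i ky` -/
theorem hasDerivAt_kd_s {δ : ℝ} (hδ : 0 < δ) (s t : ℝ) :
    HasDerivAt (fun s => kd δ s t) (kx δ s t) s := by
  have h0 : (qq δ s t : ℂ) ≠ 0 := Complex.ofReal_ne_zero.mpr (qq_pos hδ s t).ne'
  have h1 : HasDerivAt (fun s : ℝ => (s : ℂ) - t * Complex.I) 1 s := by
    have := (hasDerivAt_id s).ofReal_comp.sub_const ((t : ℂ) * Complex.I)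
    simpa using this
  have h2 : HasDerivAt (fun s : ℝ => (qq δ s t : ℂ)) (2 * s : ℂ) s := by
    have h3 : HasDerivAt (fun s : ℝ => qq δ s t) (2 * s) s := by
      have := ((hasDerivAt_pow 2 s).add_const (t ^ 2)).add_const (δ ^ 2)
      simpa [qq] using this
    have := h3.ofReal_comp
    push_cast at this
    exact this
  have h4 := h1.div h2 h0
  refine h4.congr_deriv ?_
  have h5 : (qq δ s t : ℂ) = (s : ℂ) ^ 2 + (t : ℂ) ^ 2 + (δ : ℂ) ^ 2 := by
    unfold qq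
    push_cast
    ring
  unfold kx ky ps
  push_cast
  rw [h5] at h0 ⊢
  field_simp
  ring_nf
  simp only [Complex.I_sq]
  ring

/-- `‖kd‖² = (s² + t²) / q²` and `4 δ² (s² + t²) ≤ q²` -/
theorem norm_kd_le {δ : ℝ} (hδ : 0 < δ) (s t : ℝ) : ‖kd δ s t‖ ≤ 1 / δ := by
  have hq := qq_pos hδ s t
  have hn := kn_sq s t
  have hn0 := norm_nonneg ((s : ℂ) - t * Complex.I)
  unfold kd
  rw [norm_div, Complex.norm_real, Real.norm_eq_abs, abs_of_pos hq, div_le_div_iff₀ hq hδ]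
  unfold qq
  nlinarith [sq_nonneg (‖(s : ℂ) - t * Complex.I‖ - δ)]

/-- away from `0` the bound does not depend on `δ` -/
theorem norm_kd_le' {δ : ℝ} (hδ : 0 < δ) {s t ρ : ℝ} (hρ : 0 < ρ) (h : ρ ^ 2 ≤ s ^ 2 + t ^ 2) :
    ‖kd δ s t‖ ≤ 1 / ρ := by
  have hq := qq_pos hδ s t
  have hn := kn_sq s t
  have hn0 := norm_nonneg ((s : ℂ) - t * Complex.I)
  have hρn : ρ ≤ ‖(s : ℂ) - t * Complex.I‖ := by
    apply le_of_sq_le_sq _ hn0
    rw [hn]
    exact h
  unfold kd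
  rw [norm_div, Complex.norm_real, Real.norm_eq_abs, abs_of_pos hq, div_le_div_iff₀ hq hρ]
  unfold qq
  nlinarith [sq_nonneg δ]

/-- `‖-i/q‖ = 1/q`, `‖(s - i t) 2 t / q²‖ ≤ 2 (s² + t²) / q² ≤ 2 / q` -/
theorem norm_ky_le {δ : ℝ} (hδ : 0 < δ) (s t : ℝ) : ‖ky δ s t‖ ≤ 3 / qq δ s t := by
  have hq := qq_pos hδ s t
  have hn := kn_sq s t
  have hn0 := norm_nonneg ((s : ℂ) - t * Complex.I)
  have hq' : ‖(s : ℂ) - t * Complex.I‖ ^ 2 ≤ qq δ s t := by
    rw [hn]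
    unfold qq
    nlinarith [sq_nonneg δ]
  have htn : |t| ≤ ‖(s : ℂ) - t * Complex.I‖ := by
    apply abs_le_of_sq_le_sq _ hn0
    rw [hn]
    nlinarith [sq_nonneg s]
  have h1 : ‖-Complex.I / (qq δ s t : ℂ)‖ = 1 / qq δ s t := by
    rw [norm_div, norm_neg, Complex.norm_I, Complex.norm_real, Real.norm_eq_abs, abs_of_pos hq]
  have h2 : ‖((s : ℂ) - t * Complex.I) * (2 * t) / (qq δ s t : ℂ) ^ 2‖ ≤ 2 / qq δ s t := by
    rw [norm_div, norm_mul, norm_mul, norm_pow, Complex.norm_real, Complex.norm_real,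
      Real.norm_eq_abs, Real.norm_eq_abs, abs_of_pos hq, Complex.norm_two,
      div_le_div_iff₀ (pow_pos hq 2) hq]
    have h3 : ‖(s : ℂ) - t * Complex.I‖ * (2 * |t|) ≤ 2 * qq δ s t := by
      nlinarith
    nlinarith
  unfold ky
  refine (norm_sub_le _ _).trans ?_
  rw [h1]
  have : 3 / qq δ s t = 1 / qq δ s t + 2 / qq δ s t := by ring
  linarith

theorem ps_nonneg (δ s t : ℝ) : 0 ≤ ps δ s t := by
  unfold ps
  positivity

theorem ps_le {δ : ℝ} (hδ : 0 < δ) (s t : ℝ) : ps δ s t ≤ 1 / qq δ s t := by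
  have hq := qq_pos hδ s t
  unfold ps
  rw [div_le_div_iff₀ (pow_pos hq 2) hq]
  have : δ ^ 2 ≤ qq δ s t := by
    unfold qq
    nlinarith [sq_nonneg s, sq_nonneg t]
  nlinarith

theorem norm_kx_le {δ : ℝ} (hδ : 0 < δ) (s t : ℝ) : ‖kx δ s t‖ ≤ 5 / qq δ s t := by
  unfold kx
  refine (norm_sub_le _ _).trans ?_
  rw [norm_mul, norm_mul, Complex.norm_two, Complex.norm_I, Complex.norm_real, Real.norm_eq_abs,
    abs_of_nonneg (ps_nonneg δ s t), one_mul]
  have h1 := ps_le hδ s t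
  have h2 := norm_ky_le hδ s t
  have : 5 / qq δ s t = 2 * (1 / qq δ s t) + 3 / qq δ s t := by ring
  linarith

/-- `‖kd‖ ≤ 1 / |s|` -/
theorem tendsto_kd {δ : ℝ} (hδ : 0 < δ) (x₀ t : ℝ) :
    Tendsto (fun x : ℝ => kd δ (x₀ - x) t) atTop (𝓝 0) := by
  have h1 : Tendsto (fun x : ℝ => 1 / (x - x₀)) atTop (𝓝 0) :=
    tendsto_const_nhds.div_atTop (tendsto_atTop_add_const_right _ (-x₀) tendsto_id)
  refine squeeze_zero_norm' ?_ h1
  filter_upwards [eventually_gt_atTop x₀] with x hx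
  exact norm_kd_le' hδ (sub_pos.mpr hx) (by nlinarith [sq_nonneg t])

/-- scaling -/
theorem ps_smul {δ : ℝ} (hδ : 0 < δ) (s t : ℝ) : δ ^ 2 * ps δ (δ * s) (δ * t) = ps 1 s t := by
  have h1 := qq_pos one_pos s t
  have h2 : qq δ (δ * s) (δ * t) = δ ^ 2 * qq 1 s t := by
    unfold qq
    ring
  unfold ps
  rw [h2]
  field_simp

end Pool.Agent.MP018119
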