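import Pool.Agent.Lib.MP_018119_an.Dom

/-!
MP_018119_an, project CS: the positive kernel
-/

set_option autoImplicit false

noncomputable section

open MeasureTheory Filter Topology Set

namespace Pool.Agent.MP018119

/-- `ps 1 s t = 1 / (1 + s² + t²)² ≤ (1 + s²)⁻¹ (1 + t²)⁻¹` -/
theorem integrable_ps_one : Integrable (fun p : ℝ × ℝ => ps 1 p.1 p.2) := by
  have h1 : Integrable (fun p : ℝ × ℝ => (1 + p.1 ^ 2)⁻¹ * (1 + p.2 ^ 2)⁻¹) :=
    integrable_inv_one_add_sq.mul_prod integrable_inv_one_add_sq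
  refine h1.mono' (continuous_ps one_pos).aestronglyMeasurable
    (Filter.Eventually.of_forall fun p => ?_)
  rw [Real.norm_of_nonneg (ps_nonneg _ _ _)]
  unfold ps qq
  rw [← mul_inv, one_pow, one_div]
  apply inv_anti₀ (by positivity)
  nlinarith [sq_nonneg p.1, sq_nonneg p.2, mul_nonneg (sq_nonneg p.1) (sq_nonneg p.2),
    sq_nonneg (p.1 ^ 2), sq_nonneg (p.2 ^ 2)]

/-- the integral of a positive continuous function -/
theorem c₀_pos : 0 < c₀ := by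
  unfold c₀
  rw [integral_pos_iff_support_of_nonneg (fun p => ps_nonneg _ _ _) integrable_ps_one]
  have h : Function.support (fun p : ℝ × ℝ => ps 1 p.1 p.2) = Set.univ := by
    ext p
    simp only [Function.mem_support, Set.mem_univ, iff_true]
    unfold ps
    have := qq_pos one_pos p.1 p.2
    positivity
  rw [h]
  exact isOpen_univ.measure_pos volume ⟨0, trivial⟩

/-- Substitution `p ↦ (x₀, y₀) - p` (`integral_sub_left_eq_self`) and `p ↦ δ • p`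
(`Measure.integral_comp_smul`, `finrank ℝ (ℝ × ℝ) = 2`), `ps_smul`. -/
theorem II_ps_eq (b : ℝ → ℝ → ℝ) {δ : ℝ} (hδ : 0 < δ) (x₀ y₀ : ℝ) :
    II b (fun s t => (ps δ s t : ℂ)) x₀ y₀ =
      ∫ p : ℝ × ℝ, (b (x₀ - δ * p.1) (y₀ - δ * p.2) : ℂ) * (ps 1 p.1 p.2 : ℂ) := by
  unfold II
  have h1 := integral_sub_left_eq_self (μ := (volume : Measure (ℝ × ℝ)))
    (fun p : ℝ × ℝ => (b p.1 p.2 : ℂ) * ((ps δ (x₀ - p.1) (y₀ - p.2) : ℝ) : ℂ)) (x₀, y₀)
  rw [← h1]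
  have h2 := Measure.integral_comp_smul (volume : Measure (ℝ × ℝ))
    (fun p : ℝ × ℝ => (b (x₀ - p.1) (y₀ - p.2) : ℂ) * ((ps δ p.1 p.2 : ℝ) : ℂ)) δ
  have hf : Module.finrank ℝ (ℝ × ℝ) = 2 := by
    rw [Module.finrank_prod, Module.finrank_self]
  rw [hf, abs_of_pos (by positivity)] at h2
  have h3 : ∫ p : ℝ × ℝ, (b (x₀ - p.1) (y₀ - p.2) : ℂ) * ((ps δ p.1 p.2 : ℝ) : ℂ) =
      ((δ ^ 2 : ℝ) : ℂ) * ∫ p : ℝ × ℝ, (b (x₀ - (δ • p).1) (y₀ - (δ • p).2) : ℂ) *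
        ((ps δ (δ • p).1 (δ • p).2 : ℝ) : ℂ) := by
    rw [h2, Complex.real_smul, ← mul_assoc, ← Complex.ofReal_mul,
      mul_inv_cancel₀ (by positivity), Complex.ofReal_one, one_mul]
  have h4 : ∀ p : ℝ × ℝ, (b ((x₀, y₀) - p).1 ((x₀, y₀) - p).2 : ℂ) *
      ((ps δ (x₀ - ((x₀, y₀) - p).1) (y₀ - ((x₀, y₀) - p).2) : ℝ) : ℂ) =
      (b (x₀ - p.1) (y₀ - p.2) : ℂ) * ((ps δ p.1 p.2 : ℝ) : ℂ) := by
    intro p
    simp only [Prod.fst_sub, Prod.snd_sub, sub_sub_cancel]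
  simp only [h4]
  rw [h3, ← integral_const_mul]
  refine integral_congr_ae (Filter.Eventually.of_forall fun p => ?_)
  simp only [Prod.smul_fst, Prod.smul_snd, smul_eq_mul]
  rw [← ps_smul hδ p.1 p.2]
  push_cast
  ring

theorem norm_II_ps_le {b : ℝ → ℝ → ℝ} {S M β δ : ℝ} (hb : Hol b S M β) (hδ : 0 < δ) (x₀ y₀ : ℝ) :
    ‖II b (fun s t => (ps δ s t : ℂ)) x₀ y₀‖ ≤ M * c₀ := by
  rw [II_ps_eq b hδ x₀ y₀]
  have h1 : Integrable (fun p : ℝ × ℝ => M * ps 1 p.1 p.2) := integrable_ps_one.const_mul M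
  have h2 := norm_integral_le_of_norm_le (f := fun p : ℝ × ℝ =>
    (b (x₀ - δ * p.1) (y₀ - δ * p.2) : ℂ) * (ps 1 p.1 p.2 : ℂ)) h1
    (Filter.Eventually.of_forall fun p => by
      rw [norm_mul, Complex.norm_real, Complex.norm_real, Real.norm_eq_abs,
        Real.norm_of_nonneg (ps_nonneg _ _ _)]
      exact mul_le_mul_of_nonneg_right (hb.bdd _ _) (ps_nonneg _ _ _))
  refine h2.trans (le_of_eq ?_)
  rw [integral_const_mul]
  rfl

/-- dominated convergence in `II_ps_eq` -/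
theorem tendsto_II_ps {b : ℝ → ℝ → ℝ} {S M β : ℝ} (hb : Hol b S M β)
    (hc : Continuous (fun p : ℝ × ℝ => b p.1 p.2)) (x₀ y₀ : ℝ) :
    Tendsto (fun δ : ℝ => II b (fun s t => (ps δ s t : ℂ)) x₀ y₀) (𝓝[>] 0)
      (𝓝 ((b x₀ y₀ * c₀ : ℝ) : ℂ)) := by
  have h0 : ∀ᶠ δ : ℝ in 𝓝[>] 0, ∫ p : ℝ × ℝ, (b (x₀ - δ * p.1) (y₀ - δ * p.2) : ℂ) *
      (ps 1 p.1 p.2 : ℂ) = II b (fun s t => (ps δ s t : ℂ)) x₀ y₀ := by
    filter_upwards [self_mem_nhdsWithin] with δ hδ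
    exact (II_ps_eq b hδ x₀ y₀).symm
  have hlim : ((b x₀ y₀ * c₀ : ℝ) : ℂ) =
      ∫ p : ℝ × ℝ, (b x₀ y₀ : ℂ) * (ps 1 p.1 p.2 : ℂ) := by
    rw [integral_const_mul, integral_complex_ofReal, Complex.ofReal_mul]
    rfl
  rw [hlim]
  refine Tendsto.congr' h0 ?_
  refine tendsto_integral_filter_of_dominated_convergence (fun p : ℝ × ℝ => M * ps 1 p.1 p.2)
    ?_ ?_ (integrable_ps_one.const_mul M) ?_
  · refine Filter.Eventually.of_forall fun δ => ?_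
    have h1 : Continuous fun p : ℝ × ℝ => b (x₀ - δ * p.1) (y₀ - δ * p.2) :=
      hc.comp (by fun_prop : Continuous fun p : ℝ × ℝ => (x₀ - δ * p.1, y₀ - δ * p.2))
    exact ((Complex.continuous_ofReal.comp h1).mul
      (Complex.continuous_ofReal.comp (continuous_ps one_pos))).aestronglyMeasurable
  · refine Filter.Eventually.of_forall fun δ => Filter.Eventually.of_forall fun p => ?_
    rw [norm_mul, Complex.norm_real, Complex.norm_real, Real.norm_eq_abs,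
      Real.norm_of_nonneg (ps_nonneg _ _ _)]
    exact mul_le_mul_of_nonneg_right (hb.bdd _ _) (ps_nonneg _ _ _)
  · refine Filter.Eventually.of_forall fun p => ?_
    refine Tendsto.mul ?_ tendsto_const_nhds
    have h1 : Continuous fun δ : ℝ => (b (x₀ - δ * p.1) (y₀ - δ * p.2) : ℂ) :=
      Complex.continuous_ofReal.comp
        (hc.comp (by fun_prop : Continuous fun δ : ℝ => (x₀ - δ * p.1, y₀ - δ * p.2)))
    have h2 := h1.tendsto 0
    simp only [zero_mul, sub_zero] at h2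
    exact h2.mono_left nhdsWithin_le_nhds

end Pool.Agent.MP018119
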