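import Pool.Agent.Lib.MP_018119_an.VertA
import Pool.Agent.Lib.MP_018119_an.Dom

/-!
MP_018119_an, project CS: the vertical singular integral is bounded uniformly in delta
-/

set_option autoImplicit false

noncomputable section

open MeasureTheory Filter Topology Set

namespace Pool.Agent.MP018119

private theorem abs_rpow_int {r : ℝ} (hr : -1 < r) :
    IntegrableOn (fun s : ℝ => |s| ^ r) (Icc (-1 : ℝ) 1) := by
  have h1 : IntervalIntegrable (fun s : ℝ => |s| ^ r) volume 0 1 := by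
    refine (intervalIntegral.intervalIntegrable_rpow' hr).congr ?_
    intro x hx
    rw [uIoc_of_le zero_le_one] at hx
    simp only [abs_of_pos hx.1]
  have h2 : IntervalIntegrable (fun s : ℝ => |s| ^ r) volume (-1) 0 := by
    have h3 := (IntervalIntegrable.iff_comp_neg (by finiteness)).1 h1
    simp only [abs_neg, neg_zero] at h3
    exact h3.symm
  have h4 := h2.trans h1
  rw [intervalIntegrable_iff_integrableOn_Icc_of_le (by norm_num)] at h4
  exact h4

/-- the majorant `|s|^(-1+β/2) 1_{|s| ≤ 1} + 1 / (1 + s²)` is integrable -/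
theorem integrable_major {β : ℝ} (hβ : 0 < β) :
    Integrable (fun s : ℝ => (Icc (-1 : ℝ) 1).indicator (fun s => |s| ^ (-1 + β / 2)) s +
      1 / (1 + s ^ 2)) := by
  refine Integrable.add ?_ ?_
  · exact (abs_rpow_int (by linarith)).integrable_indicator measurableSet_Icc
  · simpa only [one_div] using integrable_inv_one_add_sq

private def major (β s : ℝ) : ℝ :=
  (Icc (-1 : ℝ) 1).indicator (fun s => |s| ^ (-1 + β / 2)) s + 1 / (1 + s ^ 2)

private theorem major_ge (β s : ℝ) : 1 / (1 + s ^ 2) ≤ major β s := by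
  unfold major
  have h1 : 0 ≤ (Icc (-1 : ℝ) 1).indicator (fun s => |s| ^ (-1 + β / 2)) s :=
    indicator_nonneg (fun x _ => Real.rpow_nonneg (abs_nonneg x) _) s
  linarith

private theorem major_in (β : ℝ) {s : ℝ} (h : |s| ≤ 1) :
    major β s = |s| ^ (-1 + β / 2) + 1 / (1 + s ^ 2) := by
  unfold major
  have h1 : s ∈ Icc (-1 : ℝ) 1 := abs_le.1 h
  rw [indicator_of_mem h1]

private theorem inner_le {S β A₀ M δ s y₀ : ℝ} {c : ℝ → ℝ} (hS : 0 < S) (hA₀ : 0 < A₀)
    (hM : 0 ≤ M) (hc : ∀ y, S < |y| → c y = 0) (hcM : ∀ y, |c y| ≤ M) (hδ : 0 < δ)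
    (hin : |y₀| ≤ S + 1 → ‖∫ y : ℝ, (c y : ℂ) * ky δ s (y₀ - y)‖ ≤
      A₀ * M * (|s| ^ (-1 + β / 2) + 1)) :
    ‖∫ y : ℝ, (c y : ℂ) * ky δ s (y₀ - y)‖ ≤ (2 * A₀ + 12 * S) * M * major β s := by
  have hs2 : 0 ≤ s ^ 2 := sq_nonneg s
  have hδ2 : 0 ≤ δ ^ 2 := sq_nonneg δ
  have hm := major_ge β s
  have hm0 : 0 ≤ 1 / (1 + s ^ 2) := by positivity
  have hmm : 0 ≤ major β s := hm0.trans hm
  have hk : (12 * S) * M * (1 / (1 + s ^ 2)) ≤ (2 * A₀ + 12 * S) * M * major β s := by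
    have h1 : (12 * S) * M * (1 / (1 + s ^ 2)) ≤ (12 * S) * M * major β s :=
      mul_le_mul_of_nonneg_left hm (by positivity)
    have h2 : 0 ≤ 2 * A₀ * M * major β s := by positivity
    linarith
  rcases le_total 1 |s| with h1 | h1
  · have hs1 : 1 ≤ s ^ 2 := by
      rw [← sq_abs]
      nlinarith
    have h2 := vert_far hS c hc hcM (δ := δ) (s := s) (y₀ := y₀) (ρ := s ^ 2) hδ (by linarith)
      (fun y _ => by
        unfold qq
        nlinarith [sq_nonneg (y₀ - y)])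
    refine h2.trans (le_trans ?_ hk)
    rw [mul_one_div, div_le_div_iff₀ (by linarith) (by linarith)]
    have h3 : 0 ≤ 6 * S * M := by positivity
    nlinarith
  · rcases le_or_gt |y₀| (S + 1) with h2 | h2
    · refine (hin h2).trans ?_
      rw [major_in β h1]
      have h3 : 1 ≤ 2 * (1 / (1 + s ^ 2)) := by
        rw [mul_one_div, le_div_iff₀ (by linarith)]
        have : s ^ 2 ≤ 1 := by
          rw [← sq_abs]
          nlinarith [abs_nonneg s]
        linarith
      have h4 : 0 ≤ |s| ^ (-1 + β / 2) := Real.rpow_nonneg (abs_nonneg s) _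
      have h5 : |s| ^ (-1 + β / 2) + 1 ≤ 2 * (|s| ^ (-1 + β / 2) + 1 / (1 + s ^ 2)) := by
        linarith
      have h6 := mul_le_mul_of_nonneg_left h5 (mul_nonneg hA₀.le hM)
      have h7 : 0 ≤ 12 * S * M * (|s| ^ (-1 + β / 2) + 1 / (1 + s ^ 2)) := by positivity
      linarith
    · have h3 := vert_far hS c hc hcM (δ := δ) (s := s) (y₀ := y₀) (ρ := 1 + s ^ 2) hδ
        (by linarith) (fun y hy => by
          unfold qq
          have h4 : 1 ≤ |y₀ - y| := by
            have := abs_sub_abs_le_abs_sub y₀ y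
            linarith
          have h5 : 1 ≤ (y₀ - y) ^ 2 := by
            rw [← sq_abs]
            nlinarith
          linarith)
      refine h3.trans (le_trans ?_ hk)
      rw [mul_one_div]
      refine div_le_div_of_nonneg_right ?_ (by linarith)
      have : 0 ≤ S * M := by positivity
      linarith

/-- `II b (ky δ) x₀ y₀ = ∫ x, ∫ y, ...` (`integral_prod`, `integrable_ky`).  With `s = x₀ - x ≠ 0`:
* if `|y₀| ≤ S + 1` and `|s| ≤ 1`: `vert_inner`, and `1 ≤ 2 / (1 + s²)`;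
* if `1 ≤ |s|`: `vert_far` with `ρ = s²`, and `1 / s² ≤ 2 / (1 + s²)`;
* if `S + 1 < |y₀|`: `vert_far` with `ρ = s² + 1`, as `|y₀ - y| ≥ 1` for `|y| ≤ S`.
So the inner integral is bounded by `(2 A + 12 S) M` times the majorant at `s`, and the integral of
the majorant is translation invariant. -/
theorem vert {S β : ℝ} (hS : 0 < S) (hβ : 0 < β) (hβ1 : β ≤ 1) :
    ∃ A : ℝ, 0 < A ∧ ∀ (b : ℝ → ℝ → ℝ) (M : ℝ), Hol b S M β → ∀ δ x₀ y₀ : ℝ, 0 < δ →
      ‖II b (ky δ) x₀ y₀‖ ≤ A * M := by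
  obtain ⟨A₀, hA₀, hin⟩ := vert_inner hS hβ hβ1
  have hmI : Integrable (major β) := integrable_major hβ
  have hI0 : 0 ≤ ∫ s, major β s := integral_nonneg fun s =>
    (show (0 : ℝ) ≤ 1 / (1 + s ^ 2) by positivity).trans (major_ge β s)
  refine ⟨(2 * A₀ + 12 * S) * ((∫ s, major β s) + 1), by positivity, ?_⟩
  intro b M hb δ x₀ y₀ hδ
  have hM : 0 ≤ M := (abs_nonneg (b 0 0)).trans (hb.bdd 0 0)
  have h1 : II b (ky δ) x₀ y₀ =
      ∫ x : ℝ, ∫ y : ℝ, (b x y : ℂ) * ky δ (x₀ - x) (y₀ - y) :=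
    integral_prod _ (integrable_ky hb hδ x₀ y₀)
  have h2 : Integrable fun x : ℝ => (2 * A₀ + 12 * S) * M * major β (x₀ - x) :=
    (hmI.comp_sub_left x₀).const_mul _
  have h3 : ∀ᵐ x : ℝ, ‖∫ y : ℝ, (b x y : ℂ) * ky δ (x₀ - x) (y₀ - y)‖ ≤
      (2 * A₀ + 12 * S) * M * major β (x₀ - x) := by
    have h4 : ∀ᵐ x : ℝ, x ≠ x₀ := by
      simp [ae_iff, measure_singleton]
    filter_upwards [h4] with x hx
    have hs : x₀ - x ≠ 0 := fun h => hx (by linarith)
    exact inner_le hS hA₀ hM (hb.supp x) (hb.bdd x) hδ fun hy =>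
      hin (b x) M (hb.supp x) (hb.bdd x) (hb.hol x) δ (x₀ - x) y₀ hδ hs hy
  rw [h1]
  refine (norm_integral_le_of_norm_le h2 h3).trans ?_
  rw [integral_const_mul, integral_sub_left_eq_self (major β) volume x₀]
  have h5 : 0 ≤ (2 * A₀ + 12 * S) * M := by positivity
  linarith

end Pool.Agent.MP018119
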