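import Pool.Agent.Lib.MP_018119_an.Ibp
import Pool.Agent.Lib.MP_018119_an.Diff
import Pool.Agent.Lib.MP_018119_an.VertB
import Pool.Agent.Lib.MP_018119_an.Psf

/-!
MP_018119_an, project CS: uniform Lipschitz bound and the limit
-/

set_option autoImplicit false

noncomputable section

open MeasureTheory Filter Topology Set

namespace Pool.Agent.MP018119

variable {μ : Measure ℂ} {h h' : ℝ → ℝ → ℝ} {S M β : ℝ}

/-- `vert` for `h'`, `norm_II_ps_le` for `h'`, `II_kx`: `‖II h' (kx δ)‖ ≤ L`, `‖II h' (ky δ)‖ ≤ L`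
with `L` independent of `δ`; then `ibp`, `diff_h`, `diff_v` (go from `(x₀, y₀)` to `(x₀', y₀)` to
`(x₀', y₀')`). -/
theorem lip_U (hd : ∀ x y, HasDerivAt (h x) (h' x y) y) (hh : Hol h S M β) (hh' : Hol h' S M β)
    (hS : 0 < S) (hβ : 0 < β) (hβ1 : β ≤ 1) :
    ∃ L : ℝ, 0 ≤ L ∧ ∀ δ > 0, ∀ x₀ y₀ x₀' y₀' : ℝ,
      ‖II h (ky δ) x₀ y₀ - II h (ky δ) x₀' y₀'‖ ≤ L * (|x₀ - x₀'| + |y₀ - y₀'|) := by
  obtain ⟨A, hA, hvert⟩ := vert hS hβ hβ1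
  have hM : 0 ≤ M := (abs_nonneg (h' 0 0)).trans (hh'.bdd 0 0)
  have hc : 0 < c₀ := c₀_pos
  refine ⟨2 * (M * c₀) + A * M, by positivity, fun δ hδ x₀ y₀ x₀' y₀' => ?_⟩
  have hky : ∀ x y : ℝ, ‖II h' (ky δ) x y‖ ≤ 2 * (M * c₀) + A * M := fun x y => by
    have h1 := hvert h' M hh' δ x y hδ
    have h2 : 0 ≤ M * c₀ := mul_nonneg hM hc.le
    linarith
  have hkx : ∀ x y : ℝ, ‖II h' (kx δ) x y‖ ≤ 2 * (M * c₀) + A * M := fun x y => by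
    rw [II_kx hh' hδ]
    have h1 := hvert h' M hh' δ x y hδ
    have h2 := norm_II_ps_le hh' hδ x y
    refine (norm_sub_le _ _).trans ?_
    rw [norm_mul, norm_mul, Complex.norm_I, one_mul, Complex.norm_ofNat]
    linarith
  have e1 := diff_h hh' hδ hkx x₀ x₀' y₀
  rw [← ibp hd hh hh' hβ hδ] at e1
  have e2 := diff_v hh' hδ hky x₀' y₀ y₀'
  rw [← ibp hd hh hh' hβ hδ] at e2
  calc ‖II h (ky δ) x₀ y₀ - II h (ky δ) x₀' y₀'‖
      = ‖(II h (ky δ) x₀ y₀ - II h (ky δ) x₀' y₀) +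
          (II h (ky δ) x₀' y₀ - II h (ky δ) x₀' y₀')‖ := by
        congr 1
        ring
    _ ≤ _ := norm_add_le _ _
    _ ≤ (2 * (M * c₀) + A * M) * |x₀ - x₀'| + (2 * (M * c₀) + A * M) * |y₀ - y₀'| :=
        add_le_add e1 e2
    _ = _ := by ring

/-- Let `𝒰` be an ultrafilter on `ℝ` with `𝒰 ≤ 𝓝[>] 0` (`Ultrafilter.of`).  For fixed `(x, y)` the
values `II h (ky δ) x y` are bounded (`vert` for `h`), so they converge along `𝒰`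
(`IsCompact.ultrafilter_le_nhds` for `Ultrafilter.map`); the limit `U` inherits the bound of
`lip_U`. -/
theorem exists_U (hd : ∀ x y, HasDerivAt (h x) (h' x y) y) (hh : Hol h S M β) (hh' : Hol h' S M β)
    (hS : 0 < S) (hβ : 0 < β) (hβ1 : β ≤ 1) :
    ∃ (𝒰 : Ultrafilter ℝ) (U : ℝ → ℝ → ℂ) (L : ℝ), (𝒰 : Filter ℝ) ≤ 𝓝[>] 0 ∧ 0 ≤ L ∧
      (∀ x y, Tendsto (fun δ : ℝ => II h (ky δ) x y) 𝒰 (𝓝 (U x y))) ∧
      ∀ x y x' y', ‖U x y - U x' y'‖ ≤ L * (|x - x'| + |y - y'|) := by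
  obtain ⟨A, hA, hvert⟩ := vert hS hβ hβ1
  obtain ⟨L, hL0, hL⟩ := lip_U hd hh hh' hS hβ hβ1
  have hle : ((Ultrafilter.of (𝓝[>] (0 : ℝ)) : Ultrafilter ℝ) : Filter ℝ) ≤ 𝓝[>] 0 :=
    Ultrafilter.of_le _
  have hpos : ∀ᶠ δ in ((Ultrafilter.of (𝓝[>] (0 : ℝ)) : Ultrafilter ℝ) : Filter ℝ), 0 < δ :=
    hle self_mem_nhdsWithin
  have hlim : ∀ x y : ℝ, ∃ u : ℂ, Tendsto (fun δ : ℝ => II h (ky δ) x y)
      (Ultrafilter.of (𝓝[>] (0 : ℝ)) : Ultrafilter ℝ) (𝓝 u) := by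
    intro x y
    have h1 : (((Ultrafilter.of (𝓝[>] (0 : ℝ))).map (fun δ : ℝ => II h (ky δ) x y) :
        Ultrafilter ℂ) : Filter ℂ) ≤ 𝓟 (Metric.closedBall (0 : ℂ) (A * M)) := by
      rw [le_principal_iff, Ultrafilter.coe_map, mem_map]
      filter_upwards [hpos] with δ hδ
      rw [mem_preimage, mem_closedBall_zero_iff]
      exact hvert h M hh δ x y hδ
    obtain ⟨u, -, hu⟩ := (isCompact_closedBall (0 : ℂ) (A * M)).ultrafilter_le_nhds _ h1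
    exact ⟨u, hu⟩
  choose U hU using hlim
  refine ⟨Ultrafilter.of (𝓝[>] (0 : ℝ)), U, L, hle, hL0, hU, fun x y x' y' => ?_⟩
  refine le_of_tendsto ((hU x y).sub (hU x' y')).norm ?_
  filter_upwards [hpos] with δ hδ
  exact hL δ hδ x y x' y'

end Pool.Agent.MP018119
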