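import Pool.Agent.Lib.MP_018119_an.Inc

/-!
MP_018119_an, project CS: from smooth slices to the hypotheses for cutting
-/

set_option autoImplicit false

noncomputable section

open MeasureTheory Filter Topology Set

namespace Pool.Agent.MP018119

variable {μ : Measure ℂ} {h h' : ℝ → ℝ → ℝ} {S M α : ℝ}

/-- Let `B` be a neighbourhood of `y` in `{S < |·|}`: `∫⁻ y in B, h x y = 0`. -/
theorem Dens.supp (hd : Dens μ h h') (hR : μ {z | S < |z.im|} = 0) (x y : ℝ) (hy : S < |y|) :
    h x y = 0 := by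
  have hcont : Continuous (h x) :=
    continuous_iff_continuousAt.2 fun y => (hd.deriv x y).continuousAt
  have hBo : IsOpen {t : ℝ | S < |t|} := isOpen_lt continuous_const continuous_abs
  have h0 : μ {z | z.re ≤ x ∧ z.im ∈ {t : ℝ | S < |t|}} = 0 :=
    measure_mono_null (fun z hz => hz.2) hR
  rw [hd.dens x _ hBo.measurableSet] at h0
  have h1 : (fun y => ENNReal.ofReal (h x y)) =ᵐ[volume.restrict {t : ℝ | S < |t|}] 0 :=
    (lintegral_eq_zero_iff (ENNReal.measurable_ofReal.comp hcont.measurable)).1 h0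
  have h2 : (h x) =ᵐ[volume.restrict {t : ℝ | S < |t|}] (fun _ => (0 : ℝ)) := by
    filter_upwards [h1] with t ht
    have ht' : ENNReal.ofReal (h x t) = 0 := ht
    exact le_antisymm (ENNReal.ofReal_eq_zero.1 ht') (hd.nonneg x t)
  exact Measure.eqOn_open_of_ae_eq h2 hBo hcont.continuousOn continuousOn_const hy

private theorem incr_lintegral [IsFiniteMeasure μ] (hd : Dens μ h h') {x x' : ℝ} (hx : x ≤ x') :
    ∫⁻ y, ENNReal.ofReal (h x' y - h x y) = μ {z | x < z.re ∧ z.re ≤ x'} := by
  have hcont : ∀ x, Continuous (h x) := fun x =>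
    continuous_iff_continuousAt.2 fun y => (hd.deriv x y).continuousAt
  have e : ∀ x, ∫⁻ y, ENNReal.ofReal (h x y) = μ {z | z.re ≤ x} := by
    intro x
    have := hd.dens x Set.univ MeasurableSet.univ
    simp only [mem_univ, and_true, Measure.restrict_univ] at this
    exact this.symm
  have h1 : ∀ y, ENNReal.ofReal (h x' y - h x y) =
      ENNReal.ofReal (h x' y) - ENNReal.ofReal (h x y) := fun y =>
    ENNReal.ofReal_sub _ (hd.nonneg x y)
  simp_rw [h1]
  have hm : Measurable fun y => ENNReal.ofReal (h x y) :=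
    ENNReal.measurable_ofReal.comp (hcont x).measurable
  rw [lintegral_sub hm
    (by rw [e]; exact measure_ne_top μ _)
    (Eventually.of_forall fun y => ENNReal.ofReal_le_ofReal (hd.mono hx y)), e, e]
  have hset : {z : ℂ | x < z.re ∧ z.re ≤ x'} = {z : ℂ | z.re ≤ x'} \ {z : ℂ | z.re ≤ x} := by
    ext z
    simp only [mem_ofPred_eq, Set.mem_sdiff, not_le]
    tauto
  have hsub : {z : ℂ | z.re ≤ x} ⊆ {z : ℂ | z.re ≤ x'} := fun z hz => le_trans hz hx
  rw [hset, measure_sdiff hsub
    (measurableSet_le Complex.measurable_re measurable_const).nullMeasurableSet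
    (measure_ne_top μ _)]

/-- `supp`: `Dens.supp`.  `bdd`: `small_of_holder` (exponent `α`) and `le_sqrt_mul`.
`md`: given `η` let `η₁ = η² / (4 M + 4)`, `θ` from `deriv_small` for `2 M`, `α`, `η₁`, and `δ` from
`strip_uc`.  For `x ≤ x' ≤ x + δ` the function `f = h x' - h x` is nonnegative (`Dens.mono`),
`∫⁻ f = μ {x < Re ≤ x'} ≤ θ` (`dens` with `B = univ`), so `|f'| ≤ η₁`, and
`|f' y - f' y'| ≤ min (2 M |y - y'|^α) (2 η₁) ≤ √(4 M η₁) |y - y'|^(α/2)` (`le_sqrt_mul`). -/
theorem cls_of [IsFiniteMeasure μ] (hd : Dens μ h h') (hl : ∀ x, μ {z | z.re = x} = 0)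
    (hM : ∀ x y y', |h' x y - h' x y'| ≤ M * |y - y'| ^ α) (hS : 0 < S) (hα : 0 < α)
    (hR : μ {z | S < |z.re|} = 0) (hI : μ {z | S < |z.im|} = 0) : Cls μ h h' S (α / 2) := by
  have hM0 : 0 ≤ M := by
    have := hM 0 1 0
    simp only [sub_zero, abs_one, Real.one_rpow, mul_one] at this
    exact le_trans (abs_nonneg _) this
  have hsupp : ∀ x y, S < |y| → h x y = 0 := fun x y hy => hd.supp hI x y hy
  refine { toDens := hd, supp := hsupp, bdd := ?_, md := ?_ }
  · set B : ℝ := M * (2 * S + 1) ^ α with hB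
    have hB0 : 0 ≤ B := by positivity
    refine ⟨√(M * (2 * B)), fun x y y' => ?_⟩
    refine le_sqrt_mul (abs_nonneg _) hM0 (by positivity) (abs_nonneg _) hα (hM x y y') ?_
    have a := (small_of_holder hS hα (hd.deriv x) (hsupp x) (hM x) y).1
    have b := (small_of_holder hS hα (hd.deriv x) (hsupp x) (hM x) y').1
    calc |h' x y - h' x y'| ≤ |h' x y| + |h' x y'| := abs_sub _ _
      _ ≤ 2 * B := by linarith
  · intro η hη
    set η₁ : ℝ := η ^ 2 / (4 * M + 4) with hη₁
    have hη₁0 : 0 < η₁ := by positivity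
    obtain ⟨θ, hθ, H⟩ := deriv_small (M := 2 * M) (α := α) (by positivity) hα hη₁0
    obtain ⟨δ, hδ, D⟩ := strip_uc hl hR hθ
    refine ⟨δ, hδ, fun x x' hxx' hx'δ y y' => ?_⟩
    have key : ∀ y, |h' x' y - h' x y| ≤ η₁ := by
      refine H (fun y => h x' y - h x y) (fun y => h' x' y - h' x y)
        (fun y => sub_nonneg.2 (hd.mono hxx' y))
        (fun y => (hd.deriv x' y).sub (hd.deriv x y)) (fun y y' => ?_) ?_
      · calc |(h' x' y - h' x y) - (h' x' y' - h' x y')|
            = |(h' x' y - h' x' y') - (h' x y - h' x y')| := by congr 1; ring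
          _ ≤ |h' x' y - h' x' y'| + |h' x y - h' x y'| := abs_sub _ _
          _ ≤ 2 * M * |y - y'| ^ α := by linarith [hM x' y y', hM x y y']
      · rw [incr_lintegral hd hxx']
        exact D x x' hxx' hx'δ
    have h1 : |(h' x' y - h' x y) - (h' x' y' - h' x y')| ≤ 2 * M * |y - y'| ^ α := by
      calc |(h' x' y - h' x y) - (h' x' y' - h' x y')|
            = |(h' x' y - h' x' y') - (h' x y - h' x y')| := by congr 1; ring
          _ ≤ |h' x' y - h' x' y'| + |h' x y - h' x y'| := abs_sub _ _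
          _ ≤ 2 * M * |y - y'| ^ α := by linarith [hM x' y y', hM x y y']
    have h2 : |(h' x' y - h' x y) - (h' x' y' - h' x y')| ≤ 2 * η₁ := by
      calc |(h' x' y - h' x y) - (h' x' y' - h' x y')|
          ≤ |h' x' y - h' x y| + |h' x' y' - h' x y'| := abs_sub _ _
        _ ≤ 2 * η₁ := by linarith [key y, key y']
    have h3 := le_sqrt_mul (abs_nonneg _) (by positivity) (by positivity) (abs_nonneg (y - y')) hα
      h1 h2
    have h4 : √(2 * M * (2 * η₁)) ≤ η := by
      rw [Real.sqrt_le_left hη.le]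
      have : 2 * M * (2 * η₁) = η ^ 2 * (4 * M / (4 * M + 4)) := by
        rw [hη₁]; field_simp; ring
      rw [this]
      have h5 : 4 * M / (4 * M + 4) ≤ 1 := by
        rw [div_le_one (by positivity)]
        linarith
      nlinarith [sq_nonneg η]
    exact h3.trans (mul_le_mul_of_nonneg_right h4 (by positivity))

end Pool.Agent.MP018119
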