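import Pool.Agent.Lib.MP_018119_an.Defs

/-!
MP_018119_an, project CS: rotation and scaling
-/

set_option autoImplicit false

noncomputable section

open MeasureTheory Filter Topology Set

namespace Pool.Agent.MP018119

/-- `C` contains a conformally nonremovable Cantor set. -/
def HasNR (C : Set ℂ) : Prop :=
  ∃ K : Set ℂ, K ⊆ C ∧ IsCompact K ∧ Perfect K ∧ IsTotallyDisconnected K ∧ K.Nonempty ∧ NonRem K

theorem IsCurve.isCompact {C : Set ℂ} (hC : IsCurve C) : IsCompact C := by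
  rcases hC with ⟨γ, hγ, -, rfl⟩ | ⟨γ, hγ, -, rfl⟩
  · exact isCompact_Icc.image_of_continuousOn hγ
  · exact isCompact_range hγ

theorem IsCurve.image {C : Set ℂ} (hC : IsCurve C) {c : ℂ} (hc : c ≠ 0) :
    IsCurve ((fun z => c * z) '' C) := by
  rcases hC with ⟨γ, hγ, hi, rfl⟩ | ⟨γ, hγ, hi, rfl⟩
  · refine Or.inl ⟨fun t => c * γ t, continuousOn_const.mul hγ, ?_, ?_⟩
    · intro s hs t ht h
      exact hi hs ht (mul_left_cancel₀ hc h)
    · rw [image_image]
  · refine Or.inr ⟨fun t => c * γ t, continuous_const.mul hγ, ?_, ?_⟩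
    · intro s t h
      exact hi (mul_left_cancel₀ hc h)
    · rw [← range_comp]
      rfl

/-- Let `K' ⊆ c C` and `f'` be the data for `c C`; take `K = c⁻¹ K'` and `f z = f' (c z)`
(`Homeomorph.mulLeft₀`). -/
theorem HasNR.of_image {C : Set ℂ} {c : ℂ} (hc : c ≠ 0) (h : HasNR ((fun z => c * z) '' C)) :
    HasNR C := by
  obtain ⟨K', hK'C, hK'c, hK'p, hK'd, hK'n, f', hf', hnot⟩ := h
  obtain ⟨e, he⟩ : ∃ e : ℂ ≃ₜ ℂ, ∀ z, e z = c * z := ⟨Homeomorph.mulLeft₀ c hc, fun z => rfl⟩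
  refine ⟨e ⁻¹' K', ?_, ?_, ?_, ?_, ?_, e.trans f', ?_, ?_⟩
  · intro z hz
    obtain ⟨w, hw, hwz⟩ := hK'C hz
    rw [he] at hwz
    have h1 : w = z := mul_left_cancel₀ hc hwz
    rwa [← h1]
  · exact e.isCompact_preimage.2 hK'c
  · refine ⟨hK'p.closed.preimage e.continuous, ?_⟩
    intro x hx
    rw [accPt_iff_nhds]
    intro U hU
    have h1 : AccPt (e x) (𝓟 K') := hK'p.acc _ hx
    rw [accPt_iff_nhds] at h1
    have h2 : e.symm ⁻¹' U ∈ 𝓝 (e x) := by
      apply e.symm.continuous.continuousAt.preimage_mem_nhds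
      rwa [e.symm_apply_apply]
    obtain ⟨y, ⟨hy1, hy2⟩, hy3⟩ := h1 _ h2
    refine ⟨e.symm y, ⟨hy1, ?_⟩, ?_⟩
    · show e (e.symm y) ∈ K'
      rwa [e.apply_symm_apply]
    · intro h3
      apply hy3
      rw [← h3, e.apply_symm_apply]
  · intro t ht hpre
    have h1 : e '' t ⊆ K' := by
      rintro _ ⟨z, hz, rfl⟩
      exact ht hz
    have h2 : (e '' t).Subsingleton :=
      hK'd _ h1 (hpre.image e e.continuous.continuousOn)
    intro x hx y hy
    exact e.injective (h2 (mem_image_of_mem e hx) (mem_image_of_mem e hy))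
  · obtain ⟨y, hy⟩ := hK'n
    refine ⟨e.symm y, ?_⟩
    show e (e.symm y) ∈ K'
    rwa [e.apply_symm_apply]
  · have h1 : DifferentiableOn ℂ (fun z => c * z) (e ⁻¹' K')ᶜ := by fun_prop
    have h2 : MapsTo (fun z => c * z) (e ⁻¹' K')ᶜ K'ᶜ := by
      intro z hz hz'
      apply hz
      show e z ∈ K'
      rw [he]
      exact hz'
    have h3 := hf'.comp h1 h2
    refine h3.congr fun z _ => ?_
    show f' (e z) = f' (c * z)
    rw [he]
  · rintro ⟨a, b, hab⟩
    apply hnot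
    refine ⟨a / c, b, fun z => ?_⟩
    have h1 := hab (z / c)
    have h2 : (e.trans f') (z / c) = f' z := by
      show f' (e (z / c)) = f' z
      rw [he, mul_div_cancel₀ z hc]
    rw [h2] at h1
    rw [h1]
    ring

end Pool.Agent.MP018119
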