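import Pool.Agent.Lib.MP_018119_an.Defs

/-!
MP_018119_an, project CS: the support of the measure is a Cantor set
-/

set_option autoImplicit false

noncomputable section

open MeasureTheory Filter Topology Set

namespace Pool.Agent.MP018119

variable {ν : Measure ℂ} {C K : Set ℂ}

/-- `Measure.support_subset_of_isClosed`, `Measure.measure_compl_support`,
`Measure.nonempty_support` -/
theorem supp_basic [IsFiniteMeasure ν] (h0 : ν ≠ 0) (hC : IsCompact C) (hν : ν Cᶜ = 0) :
    IsCompact ν.support ∧ ν.support ⊆ C ∧ ν (ν.support)ᶜ = 0 ∧ ν.support.Nonempty := by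
  have hsub : ν.support ⊆ C := Measure.support_subset_of_isClosed hC.isClosed hν
  exact ⟨hC.of_isClosed_subset Measure.isClosed_support hsub, hsub,
    Measure.measure_compl_support, Measure.nonempty_support h0⟩

/-- An isolated point of the support would have positive measure. -/
theorem supp_perfect [IsFiniteMeasure ν] (hl : ∀ x, ν {z | z.re = x} = 0) :
    Perfect ν.support := by
  refine ⟨Measure.isClosed_support, ?_⟩
  rw [preperfect_iff_nhds]
  intro x hx U hU
  by_contra hcon
  push Not at hcon
  have h1 : U ⊆ {z : ℂ | z.re = x.re} ∪ (ν.support)ᶜ := by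
    intro y hy
    by_cases hys : y ∈ ν.support
    · left
      rw [hcon y ⟨hy, hys⟩]
      rfl
    · right
      exact hys
  have h2 : 0 < ν U := (Measure.mem_support_iff_forall x).1 hx U hU
  have h3 : ν U ≤ ν {z : ℂ | z.re = x.re} + ν (ν.support)ᶜ :=
    (measure_mono h1).trans (measure_union_le _ _)
  rw [hl, Measure.measure_compl_support, add_zero] at h3
  exact absurd h2 (not_lt.2 h3)

theorem supp_re {O : Set ℝ} (hO : IsOpen O) (h : ν {w | w.re ∈ O} = 0) :
    ∀ w ∈ ν.support, w.re ∉ O := by
  intro w hw hwO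
  have h1 : IsOpen {w : ℂ | w.re ∈ O} := hO.preimage Complex.continuous_re
  exact Measure.subset_compl_support_of_isOpen h1 h hwO hw

/-- The real parts of the points of a preconnected subset `t` of `K` form a preconnected subset of
`ℝ` which avoids the rationals, so they are all equal to some `x ∉ Z`. -/
theorem td_of {Z O : Set ℝ} (hbad : ∀ x, x ∉ Z → ∀ A : Set ℂ, A ⊆ C →
      (∀ z ∈ A, z.re = x) → IsPreconnected A → A.Subsingleton) (hKC : K ⊆ C)
    (hZ : Z ⊆ O) (hq : ∀ q : ℚ, (q : ℝ) ∈ O) (hK : ∀ w ∈ K, w.re ∉ O) :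
    IsTotallyDisconnected K := by
  intro t ht htc
  rcases t.eq_empty_or_nonempty with he | ⟨w, hw⟩
  · rw [he]
    exact subsingleton_empty
  have him : IsPreconnected (Complex.re '' t) := htc.image _ Complex.continuous_re.continuousOn
  have key : ∀ a ∈ t, ∀ b ∈ t, ¬ a.re < b.re := by
    intro a ha b hb hab
    obtain ⟨q, hq1, hq2⟩ := exists_rat_btwn hab
    have h1 : (q : ℝ) ∈ Complex.re '' t :=
      him.ordConnected.out (mem_image_of_mem _ ha) (mem_image_of_mem _ hb) ⟨hq1.le, hq2.le⟩
    obtain ⟨c, hc, hcq⟩ := h1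
    exact hK c (ht hc) (hcq ▸ hq q)
  refine hbad w.re (fun hz => hK w (ht hw) (hZ hz)) t (ht.trans hKC) (fun z hz => ?_) htc
  exact le_antisymm (not_lt.1 (key w hw z hz)) (not_lt.1 (key z hz w hw))

end Pool.Agent.MP018119
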