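import Pool.Agent.Lib.MP_018119_an.ThmA
import Pool.Agent.Lib.MP_018119_an.CutFin
import Pool.Agent.Lib.MP_018119_an.Mod
import Pool.Agent.Lib.MP_018119_an.BadA
import Pool.Agent.Lib.MP_018119_an.BadB
import Pool.Agent.Lib.MP_018119_an.Sup
import Pool.Agent.Lib.MP_018119_an.Rot

/-!
MP_018119_an, project CS: the theorem
-/

set_option autoImplicit false

noncomputable section

open MeasureTheory Filter Topology Set

namespace Pool.Agent.MP018119

variable {C : Set ℂ} {μ : Measure ℂ} {h h' : ℝ → ℝ → ℝ} {M α : ℝ}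

theorem exists_bad (hC : IsCurve C) :
    ∃ Z : Set ℝ, Z.Countable ∧ ∀ x, x ∉ Z → ∀ A : Set ℂ, A ⊆ C →
      (∀ z ∈ A, z.re = x) → IsPreconnected A → A.Subsingleton := by
  rcases hC with ⟨γ, h1, h2, rfl⟩ | ⟨γ, h1, h2, rfl⟩
  · exact bad_arc h1 h2
  · exact bad_circle h1 h2

/-- the theorem for the vertical direction -/
theorem main_vert (hC : IsCurve C) [IsFiniteMeasure μ] (h0 : μ ≠ 0) (hμ : μ Cᶜ = 0)
    (hα : 0 < α) (hα1 : α ≤ 1) (hl : ∀ x, μ {z | z.re = x} = 0) (hd : Dens μ h h')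
    (hM : ∀ x y y', |h' x y - h' x y'| ≤ M * |y - y'| ^ α) : HasNR C := by
  have hCc : IsCompact C := hC.isCompact
  obtain ⟨S, hS, hCS⟩ := hCc.isBounded.exists_pos_norm_le
  have hR : μ {z | S < |z.re|} = 0 := by
    refine measure_mono_null ?_ hμ
    intro z hz hzC
    exact absurd ((Complex.abs_re_le_norm z).trans (hCS z hzC)) (not_le.2 hz)
  have hI : μ {z | S < |z.im|} = 0 := by
    refine measure_mono_null ?_ hμ
    intro z hz hzC
    exact absurd ((Complex.abs_im_le_norm z).trans (hCS z hzC)) (not_le.2 hz)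
  have hcls := cls_of hd hl hM hS hα hR hI
  obtain ⟨Z, hZ, hbad⟩ := exists_bad hC
  have hβ : 0 < α / 2 := by positivity
  have hβ1 : α / 2 ≤ 1 := by linarith
  obtain ⟨O, hO, hZO, hne, g, g', M', hs⟩ := exists_cut h0 hcls hS hβ hβ1
    (hZ.union (countable_range (fun q : ℚ => (q : ℝ))))
  set ν := μ.restrict {w | w.re ∉ O} with hν
  have hνC : ν Cᶜ = 0 := Measure.absolutelyContinuous_of_le Measure.restrict_le_self hμ
  have hνl : ∀ x, ν {z | z.re = x} = 0 := fun x =>
    Measure.absolutelyContinuous_of_le Measure.restrict_le_self (hl x)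
  have hνO : ν {w | w.re ∈ O} = 0 := by
    have hm : MeasurableSet {w : ℂ | w.re ∈ O} := Complex.measurable_re hO.measurableSet
    rw [hν, Measure.restrict_apply hm]
    have : {w : ℂ | w.re ∈ O} ∩ {w | w.re ∉ O} = ∅ := by
      ext w
      constructor
      · rintro ⟨h1, h2⟩
        exact (h2 h1).elim
      · exact fun h => h.elim
    rw [this, measure_empty]
  obtain ⟨k1, k2, k3, k4⟩ := supp_basic hne hCc hνC
  refine ⟨ν.support, k2, k1, supp_perfect hνl, ?_, k4, ?_⟩
  · exact td_of hbad k2 (fun x hx => hZO (Or.inl hx)) (fun q => hZO (Or.inr ⟨q, rfl⟩))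
      (supp_re hO hνO)
  · exact nonRem_of_slc hne hs hS hβ hβ1 k1 k3

end Pool.Agent.MP018119
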