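import Pool.Agent.Lib.MP_018119_an.Gfn
import Pool.Agent.Lib.MP_018119_an.Hom

/-!
MP_018119_an, project CS: compact sets carrying measures with smooth slices are not removable
-/

set_option autoImplicit false

noncomputable section

open MeasureTheory Filter Topology Set

namespace Pool.Agent.MP018119

variable {μ : Measure ℂ} {h h' : ℝ → ℝ → ℝ} {S M β : ℝ} {K : Set ℂ}

theorem thmA_tendsto {G : ℂ → ℂ} (hK : IsCompact K)
    (hl : ∀ z, z ∉ K → G z = ∫ ζ : ℂ, 1 / (z - ζ) ∂μ)
    (ht : Tendsto (fun z : ℂ => ∫ ζ : ℂ, 1 / (z - ζ) ∂μ) (cocompact ℂ) (𝓝 0)) :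
    Tendsto G (cocompact ℂ) (𝓝 0) := by
  refine ht.congr' ?_
  filter_upwards [hK.compl_mem_cocompact] with z hz
  exact (hl z hz).symm

/-- `G` of `exists_G` tends to `0` at infinity (`cauchy_tendsto`), so it is bounded; take the
homeomorphism `f z = z + ε G z` of `exists_homeo`, `ε = 1 / (2 |A| + 2)`.  It is differentiable off
`K` (`differentiableOn_cauchy`).  If `f z = a z + b` then `ε G z = (a - 1) z + b` tends to `0` at
infinity, so `a = 1`, `b = 0` and `G = 0`, contradicting `cauchy_ne`. -/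
theorem nonRem_of_slc [IsFiniteMeasure μ] (h0 : μ ≠ 0) (hs : Slc μ h h' S M β) (hS : 0 < S)
    (hβ : 0 < β) (hβ1 : β ≤ 1) (hK : IsCompact K) (hμ : μ Kᶜ = 0) : NonRem K := by
  obtain ⟨G, A, hG, hA, hl⟩ := exists_G hs hS hβ hβ1 hK.isClosed hμ
  have ht := thmA_tendsto hK hl (cauchy_tendsto hK hμ)
  obtain ⟨B, hB⟩ : ∃ B : ℝ, ∀ z, ‖G z‖ ≤ B := by
    have h1 : ∀ᶠ z in cocompact ℂ, ‖G z‖ < 1 := by
      have := ht.norm
      rw [norm_zero] at this
      exact this.eventually_lt_const one_pos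
    obtain ⟨T, hT, hT2⟩ := mem_cocompact.mp h1
    obtain ⟨C, hC⟩ := hT.exists_bound_of_continuousOn hG.continuousOn
    refine ⟨max C 1, fun z => ?_⟩
    by_cases hz : z ∈ T
    · exact (hC z hz).trans (le_max_left _ _)
    · exact (hT2 hz).le.trans (le_max_right _ _)
  set ε : ℝ := 1 / (2 * |A| + 2) with hε
  have hε0 : 0 < ε := by positivity
  have hεA : ε * A ≤ 1 / 2 := by
    rw [hε, div_mul_eq_mul_div, div_le_div_iff₀ (by positivity) (by norm_num)]
    have := le_abs_self A
    linarith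
  obtain ⟨f, hf⟩ := exists_homeo hG hB hA hε0 hεA
  refine ⟨f, ?_, ?_⟩
  · have h1 : DifferentiableOn ℂ (fun z => z + (ε : ℂ) * ∫ ζ : ℂ, 1 / (z - ζ) ∂μ) Kᶜ :=
      differentiableOn_id.add ((differentiableOn_cauchy hK.isClosed hμ).const_mul _)
    refine h1.congr fun z hz => ?_
    rw [hf z, hl z hz]
  · rintro ⟨a, b, hab⟩
    have h2 : ∀ z, (ε : ℂ) * G z = (a - 1) * z + b := by
      intro z
      have := hf z
      rw [hab z] at this
      linear_combination -this
    -- along the real axis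
    have hr : Tendsto (fun x : ℝ => (x : ℂ)) atTop (cocompact ℂ) :=
      (Complex.isometry_ofReal.isClosedEmbedding.tendsto_cocompact).comp
        (atTop_le_cocompact)
    have h3 : Tendsto (fun x : ℝ => (a - 1) * (x : ℂ) + b) atTop (𝓝 0) := by
      have := (ht.comp hr).const_mul (ε : ℂ)
      rw [mul_zero] at this
      refine this.congr fun x => ?_
      exact h2 x
    have ha : a - 1 = 0 := by
      have h4 : Tendsto (fun x : ℝ => (a - 1) * ((x + 1 : ℝ) : ℂ) + b) atTop (𝓝 0) :=
        h3.comp (tendsto_atTop_add_const_right _ _ tendsto_id)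
      have h5 := h4.sub h3
      have h6 : (fun x : ℝ => (a - 1) * ((x + 1 : ℝ) : ℂ) + b - ((a - 1) * (x : ℂ) + b)) =
          fun _ => a - 1 := by
        funext x
        push_cast
        ring
      rw [h6, sub_zero] at h5
      exact tendsto_nhds_unique tendsto_const_nhds h5
    have hb : b = 0 := by
      rw [ha] at h3
      simp only [zero_mul, zero_add] at h3
      exact tendsto_nhds_unique tendsto_const_nhds h3
    obtain ⟨R, hR⟩ := cauchy_ne h0 hK hμ
    obtain ⟨h7, h8⟩ := hR (R + 1) (by linarith)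
    have h9 := h2 ((R + 1 : ℝ) : ℂ)
    rw [ha, hb, zero_mul, zero_add, hl _ h7] at h9
    rcases mul_eq_zero.mp h9 with h10 | h10
    · exact hε0.ne' (by exact_mod_cast h10)
    · exact h8 h10

end Pool.Agent.MP018119
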