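import Pool.Agent.Lib.MP_018119_an.Kern

/-!
MP_018119_an, project CS: the vertical singular integral for a fixed abscissa
-/

set_option autoImplicit false

noncomputable section

open MeasureTheory Filter Topology Set

namespace Pool.Agent.MP018119

/-- `|t|^β / (s² + t²) ≤ |s|^(-1+β/2) |t|^(-1+β/2)`: with `m = max |s| |t|`,
`|t|^(1+β/2) |s|^(1-β/2) ≤ m² ≤ s² + t²`. -/
theorem rpow_div_le {s t β : ℝ} (hs : s ≠ 0) (ht : t ≠ 0) (hβ : 0 < β) (hβ1 : β ≤ 1) :
    |t| ^ β / (s ^ 2 + t ^ 2) ≤ |s| ^ (-1 + β / 2) * |t| ^ (-1 + β / 2) := by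
  have hs' : 0 < |s| := abs_pos.mpr hs
  have ht' : 0 < |t| := abs_pos.mpr ht
  have hq : 0 < s ^ 2 + t ^ 2 := by positivity
  rw [div_le_iff₀ hq]
  set m := max |s| |t| with hm
  have hm0 : 0 < m := lt_max_of_lt_left hs'
  have hsm : |s| ≤ m := le_max_left _ _
  have htm : |t| ≤ m := le_max_right _ _
  have hm2 : m ^ 2 ≤ s ^ 2 + t ^ 2 := by
    rcases le_total |s| |t| with h | h
    · rw [hm, max_eq_right h, sq_abs]; nlinarith [sq_nonneg s]
    · rw [hm, max_eq_left h, sq_abs]; nlinarith [sq_nonneg t]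
  have h1 : |t| ^ β = |s| ^ (-1 + β / 2) * |t| ^ (-1 + β / 2) * (|s| ^ (1 - β / 2) *
      |t| ^ (1 + β / 2)) := by
    have e1 : |s| ^ (-1 + β / 2) * |s| ^ (1 - β / 2) = 1 := by
      rw [← Real.rpow_add hs']
      have : -1 + β / 2 + (1 - β / 2) = 0 := by ring
      rw [this, Real.rpow_zero]
    have e2 : |t| ^ (-1 + β / 2) * |t| ^ (1 + β / 2) = |t| ^ β := by
      rw [← Real.rpow_add ht']
      congr 1
      ring
    calc |t| ^ β = 1 * |t| ^ β := by ring
      _ = (|s| ^ (-1 + β / 2) * |s| ^ (1 - β / 2)) * (|t| ^ (-1 + β / 2) * |t| ^ (1 + β / 2)) := by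
          rw [e1, e2]
      _ = _ := by ring
  have h2 : |s| ^ (1 - β / 2) * |t| ^ (1 + β / 2) ≤ m ^ 2 := by
    calc |s| ^ (1 - β / 2) * |t| ^ (1 + β / 2) ≤ m ^ (1 - β / 2) * m ^ (1 + β / 2) := by
          apply mul_le_mul
          · exact Real.rpow_le_rpow hs'.le hsm (by linarith)
          · exact Real.rpow_le_rpow ht'.le htm (by linarith)
          · positivity
          · positivity
      _ = m ^ 2 := by
          rw [← Real.rpow_add hm0]
          have : (1 - β / 2 + (1 + β / 2)) = (2 : ℝ) := by ring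
          rw [this]
          exact_mod_cast Real.rpow_natCast m 2
  calc |t| ^ β = |s| ^ (-1 + β / 2) * |t| ^ (-1 + β / 2) * (|s| ^ (1 - β / 2) *
      |t| ^ (1 + β / 2)) := h1
    _ ≤ |s| ^ (-1 + β / 2) * |t| ^ (-1 + β / 2) * (s ^ 2 + t ^ 2) := by
        apply mul_le_mul_of_nonneg_left (h2.trans hm2)
        positivity

/-- the value of the integral of `|t|^(-1+β/2)` -/
private theorem VertA_int {T β : ℝ} (hT : 0 < T) (hβ : 0 < β) :
    IntervalIntegrable (fun t : ℝ => |t| ^ (-1 + β / 2)) volume (-T) T ∧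
      ∫ t in (-T)..T, |t| ^ (-1 + β / 2) = 4 * T ^ (β / 2) / β := by
  have hi : IntervalIntegrable (fun t : ℝ => t ^ (-1 + β / 2)) volume 0 T :=
    intervalIntegral.intervalIntegrable_rpow' (by linarith)
  have hpos : IntervalIntegrable (fun t : ℝ => |t| ^ (-1 + β / 2)) volume 0 T := by
    refine hi.congr ?_
    intro t ht
    rw [uIoc_of_le hT.le] at ht
    simp only
    rw [abs_of_pos ht.1]
  have hneg : IntervalIntegrable (fun t : ℝ => |t| ^ (-1 + β / 2)) volume (-T) 0 := by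
    have := (IntervalIntegrable.iff_comp_neg (f := fun t : ℝ => |t| ^ (-1 + β / 2))).mp hpos
    simp only [neg_zero, abs_neg] at this
    exact this.symm
  refine ⟨hneg.trans hpos, ?_⟩
  rw [← intervalIntegral.integral_add_adjacent_intervals hneg hpos]
  have e1 : ∫ t in (0 : ℝ)..T, |t| ^ (-1 + β / 2) = 2 * T ^ (β / 2) / β := by
    have : ∫ t in (0 : ℝ)..T, |t| ^ (-1 + β / 2) = ∫ t in (0 : ℝ)..T, t ^ (-1 + β / 2) := by
      apply intervalIntegral.integral_congr_ae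
      refine Eventually.of_forall ?_
      intro t ht
      rw [uIoc_of_le hT.le] at ht
      rw [abs_of_pos ht.1]
    rw [this, integral_rpow (Or.inl (by linarith))]
    have h2 : (-1 + β / 2 + 1) = β / 2 := by ring
    rw [h2, Real.zero_rpow (by positivity)]
    field_simp
    ring
  have e2 : ∫ t in (-T)..0, |t| ^ (-1 + β / 2) = ∫ t in (0 : ℝ)..T, |t| ^ (-1 + β / 2) := by
    have := intervalIntegral.integral_comp_neg (a := -T) (b := 0)
      (fun t : ℝ => |t| ^ (-1 + β / 2))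
    simp only [abs_neg, neg_zero, neg_neg] at this
    exact this
  rw [e2, e1]
  ring

private theorem VertA_cont {β : ℝ} (hβ : 0 < β) (c : ℝ → ℝ) (M : ℝ)
    (hH : ∀ y y', |c y - c y'| ≤ M * |y - y'| ^ β) : Continuous c := by
  rw [continuous_iff_continuousAt]
  intro y
  have h0 : Tendsto (fun y' : ℝ => M * |y' - y| ^ β) (𝓝 y) (𝓝 0) := by
    have h1 : Tendsto (fun y' : ℝ => |y' - y|) (𝓝 y) (𝓝 0) := by
      have : Continuous (fun y' : ℝ => |y' - y|) := by fun_prop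
      simpa using this.tendsto y
    have h2 : Tendsto (fun y' : ℝ => |y' - y| ^ β) (𝓝 y) (𝓝 (0 ^ β)) :=
      h1.rpow_const (Or.inr hβ.le)
    rw [Real.zero_rpow hβ.ne'] at h2
    simpa using h2.const_mul M
  rw [ContinuousAt, tendsto_iff_norm_sub_tendsto_zero]
  refine squeeze_zero (fun _ => norm_nonneg _) (fun y' => ?_) h0
  rw [Real.norm_eq_abs]
  exact hH y' y

private theorem VertA_sub {S T : ℝ} (hS : 0 < S) (hT : T = 2 * S + 1) (c : ℝ → ℝ)
    (hcc : Continuous c) (hc : ∀ y, S < |y| → c y = 0) {δ s y₀ : ℝ} (hy₀ : |y₀| ≤ S + 1) :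
    ∫ y : ℝ, (c y : ℂ) * ky δ s (y₀ - y) =
      ∫ t in (-T)..T, (c (y₀ - t) : ℂ) * ky δ s t := by
  have hc' : ∀ y, S ≤ y → c y = 0 := by
    have h1 : EqOn c (fun _ => 0) (Ioi S) := fun y hy => hc y (lt_of_lt_of_le hy (le_abs_self y))
    have h2 := h1.closure hcc continuous_const
    rw [closure_Ioi] at h2
    exact fun y hy => h2 hy
  have hsub : ∫ y : ℝ, (c y : ℂ) * ky δ s (y₀ - y) = ∫ t : ℝ, (c (y₀ - t) : ℂ) * ky δ s t := by
    rw [← integral_sub_left_eq_self (fun t : ℝ => (c (y₀ - t) : ℂ) * ky δ s t) volume y₀]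
    simp
  rw [hsub, intervalIntegral.integral_of_le (by linarith),
    setIntegral_eq_integral_of_forall_compl_eq_zero]
  intro t ht
  have : c (y₀ - t) = 0 := by
    rw [mem_Ioc, not_and_or, not_lt, not_le] at ht
    rw [abs_le] at hy₀
    rcases ht with h | h
    · exact hc' _ (by linarith [hy₀.1])
    · apply hc
      rw [lt_abs]
      right
      linarith [hy₀.2]
  rw [this]
  simp

private theorem VertA_split {T : ℝ} (c : ℝ → ℝ) (hcc : Continuous c) {δ s y₀ : ℝ} (hδ : 0 < δ) :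
    ∫ t in (-T)..T, (c (y₀ - t) : ℂ) * ky δ s t =
      (∫ t in (-T)..T, ((c (y₀ - t) - c y₀ : ℝ) : ℂ) * ky δ s t) +
        (c y₀ : ℂ) * (kd δ s T - kd δ s (-T)) := by
  have hst : Continuous (fun t : ℝ => ((s, t) : ℝ × ℝ)) := by fun_prop
  have hky := continuous_ky hδ
  have hkc : Continuous (fun t : ℝ => ky δ s t) := by
    have h := Continuous.comp hky hst
    exact h
  have hI1 : IntervalIntegrable (fun t : ℝ => ((c (y₀ - t) - c y₀ : ℝ) : ℂ) * ky δ s t)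
      volume (-T) T := by
    apply Continuous.intervalIntegrable
    have h1 : Continuous (fun t : ℝ => ((c (y₀ - t) - c y₀ : ℝ) : ℂ)) := by fun_prop
    exact h1.mul hkc
  have hI2 : IntervalIntegrable (fun t : ℝ => (c y₀ : ℂ) * ky δ s t) volume (-T) T :=
    (continuous_const.mul hkc).intervalIntegrable _ _
  have h1 : ∫ t in (-T)..T, ky δ s t = kd δ s T - kd δ s (-T) := by
    apply intervalIntegral.integral_eq_sub_of_hasDerivAt
    · intro t _
      exact hasDerivAt_kd_t hδ s t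
    · exact hkc.intervalIntegrable _ _
  rw [← h1, ← intervalIntegral.integral_const_mul, ← intervalIntegral.integral_add hI1 hI2]
  apply intervalIntegral.integral_congr
  intro t _
  simp only
  push_cast
  ring

private theorem VertA_b1 {T β : ℝ} (hT : 0 < T) (hβ : 0 < β) (hβ1 : β ≤ 1) (c : ℝ → ℝ) {M : ℝ}
    (hM0 : 0 ≤ M) (hH : ∀ y y', |c y - c y'| ≤ M * |y - y'| ^ β) {δ s y₀ : ℝ} (hδ : 0 < δ)
    (hs : s ≠ 0) :
    ‖∫ t in (-T)..T, ((c (y₀ - t) - c y₀ : ℝ) : ℂ) * ky δ s t‖ ≤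
      3 * M * |s| ^ (-1 + β / 2) * (4 * T ^ (β / 2) / β) := by
  obtain ⟨hTi, hTv⟩ := VertA_int (T := T) (β := β) hT hβ
  have : ‖∫ t in (-T)..T, ((c (y₀ - t) - c y₀ : ℝ) : ℂ) * ky δ s t‖ ≤
      ∫ t in (-T)..T, 3 * M * |s| ^ (-1 + β / 2) * |t| ^ (-1 + β / 2) := by
    apply intervalIntegral.norm_integral_le_of_norm_le (by linarith)
    · have h0 : ∀ᵐ t : ℝ, t ≠ 0 := by
        have : volume ({0} : Set ℝ) = 0 := by simp
        exact compl_mem_ae_iff.mpr this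
      filter_upwards [h0] with t ht _
      rw [norm_mul, Complex.norm_real, Real.norm_eq_abs]
      have hq : 0 < s ^ 2 + t ^ 2 := by positivity
      have h1 : |c (y₀ - t) - c y₀| ≤ M * |t| ^ β := by
        have := hH (y₀ - t) y₀
        have e : |y₀ - t - y₀| = |t| := by
          rw [show y₀ - t - y₀ = -t by ring, abs_neg]
        rwa [e] at this
      have h2 : ‖ky δ s t‖ ≤ 3 / (s ^ 2 + t ^ 2) := by
        refine (norm_ky_le hδ s t).trans ?_
        apply div_le_div_of_nonneg_left (by norm_num) hq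
        unfold qq
        nlinarith [sq_nonneg δ]
      calc |c (y₀ - t) - c y₀| * ‖ky δ s t‖ ≤ (M * |t| ^ β) * (3 / (s ^ 2 + t ^ 2)) := by
            apply mul_le_mul h1 h2 (norm_nonneg _)
            positivity
        _ = 3 * M * (|t| ^ β / (s ^ 2 + t ^ 2)) := by ring
        _ ≤ 3 * M * (|s| ^ (-1 + β / 2) * |t| ^ (-1 + β / 2)) := by
            apply mul_le_mul_of_nonneg_left (rpow_div_le hs ht hβ hβ1)
            positivity
        _ = _ := by ring
    · exact hTi.const_mul _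
  rw [intervalIntegral.integral_const_mul, hTv] at this
  exact this

private theorem VertA_b2 {T : ℝ} (hT : 1 ≤ T) {x M : ℝ} (hM : |x| ≤ M) {δ s : ℝ} (hδ : 0 < δ) :
    ‖(x : ℂ) * (kd δ s T - kd δ s (-T))‖ ≤ 2 * M := by
  rw [norm_mul, Complex.norm_real, Real.norm_eq_abs]
  have h1 : ‖kd δ s T‖ ≤ 1 / 1 := by
    apply norm_kd_le' hδ one_pos
    nlinarith [sq_nonneg s]
  have h2 : ‖kd δ s (-T)‖ ≤ 1 / 1 := by
    apply norm_kd_le' hδ one_pos
    nlinarith [sq_nonneg s]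
  have h3 : ‖kd δ s T - kd δ s (-T)‖ ≤ 2 := by
    refine (norm_sub_le _ _).trans ?_
    rw [div_one] at h1 h2
    linarith
  calc |x| * ‖kd δ s T - kd δ s (-T)‖ ≤ M * 2 := by
        apply mul_le_mul hM h3 (norm_nonneg _) ((abs_nonneg _).trans hM)
    _ = 2 * M := by ring

private theorem VertA_fin {P Q M B : ℝ} (hP : 0 ≤ P) (hQ : 0 ≤ Q) (hM : 0 ≤ M) {X Y : ℝ}
    (hX : X ≤ 3 * M * P * Q) (hY : Y ≤ 2 * M) (hB : B = 3 * Q + 2) :
    X + Y ≤ B * M * (P + 1) := by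
  subst hB
  have h1 : 0 ≤ 2 * M * P := by positivity
  have h2 : 0 ≤ 3 * Q * M := by positivity
  nlinarith

/-- Let `c` be supported in `[-S, S]`, bounded by `M` and Hölder.  For `|y₀| ≤ S + 1` put
`T = 2 S + 1`.  Substituting `t = y₀ - y`, the integral is the integral over `[-T, T]` of
`(c (y₀ - t) - c y₀) ky δ s t` plus `c y₀ (kd δ s T - kd δ s (-T))`; the first is bounded by
`∫ M |t|^β 3 / (s² + t²) ≤ 3 M |s|^(-1+β/2) ∫_{-T}^{T} |t|^(-1+β/2) dt` (the last integral is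
`4 T^(β/2) / β`), the second by `2 M` (`norm_kd_le'` with `ρ = 1`).  So `A = 12 T^(β/2) / β + 2`. -/
theorem vert_inner {S β : ℝ} (hS : 0 < S) (hβ : 0 < β) (hβ1 : β ≤ 1) :
    ∃ A : ℝ, 0 < A ∧ ∀ (c : ℝ → ℝ) (M : ℝ), (∀ y, S < |y| → c y = 0) → (∀ y, |c y| ≤ M) →
      (∀ y y', |c y - c y'| ≤ M * |y - y'| ^ β) → ∀ δ s y₀ : ℝ, 0 < δ → s ≠ 0 → |y₀| ≤ S + 1 →
      ‖∫ y : ℝ, (c y : ℂ) * ky δ s (y₀ - y)‖ ≤ A * M * (|s| ^ (-1 + β / 2) + 1) := by
  obtain ⟨T, hTdef⟩ : ∃ T : ℝ, T = 2 * S + 1 := ⟨_, rfl⟩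
  have hT : 0 < T := by rw [hTdef]; positivity
  obtain ⟨Q, hQ⟩ : ∃ Q : ℝ, Q = 4 * T ^ (β / 2) / β := ⟨_, rfl⟩
  have hQ0 : 0 ≤ Q := by rw [hQ]; positivity
  refine ⟨3 * Q + 2, by positivity, ?_⟩
  intro c M hc hM hH δ s y₀ hδ hs hy₀
  have hM0 : 0 ≤ M := (abs_nonneg _).trans (hM 0)
  have hcc := VertA_cont hβ c M hH
  rw [VertA_sub hS hTdef c hcc hc hy₀, VertA_split c hcc hδ]
  refine (norm_add_le _ _).trans ?_
  have hsp : 0 ≤ |s| ^ (-1 + β / 2) := by positivity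
  have hb1 := VertA_b1 (y₀ := y₀) hT hβ hβ1 c hM0 hH hδ hs
  rw [← hQ] at hb1
  exact VertA_fin hsp hQ0 hM0 hb1 (VertA_b2 (by linarith) (hM y₀) hδ) rfl

/-- The trivial bound: the integrand is bounded by `3 M / ρ` on `[-S, S]`, `0` elsewhere. -/
theorem vert_far {S : ℝ} (hS : 0 < S) (c : ℝ → ℝ) {M : ℝ} (hc : ∀ y, S < |y| → c y = 0)
    (hM : ∀ y, |c y| ≤ M) {δ s y₀ ρ : ℝ} (hδ : 0 < δ) (hρ : 0 < ρ)
    (h : ∀ y, |y| ≤ S → ρ ≤ qq δ s (y₀ - y)) :
    ‖∫ y : ℝ, (c y : ℂ) * ky δ s (y₀ - y)‖ ≤ 6 * S * M / ρ := by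
  have hM0 : 0 ≤ M := (abs_nonneg _).trans (hM 0)
  have hset : ∫ y : ℝ, (c y : ℂ) * ky δ s (y₀ - y) =
      ∫ y in Icc (-S) S, (c y : ℂ) * ky δ s (y₀ - y) := by
    rw [setIntegral_eq_integral_of_forall_compl_eq_zero]
    intro y hy
    have : c y = 0 := by
      apply hc
      by_contra h3
      exact hy (abs_le.mp (le_of_not_gt h3))
    rw [this]
    simp
  rw [hset]
  have h1 : ‖∫ y in Icc (-S) S, (c y : ℂ) * ky δ s (y₀ - y)‖ ≤
      (3 * M / ρ) * (volume : Measure ℝ).real (Icc (-S) S) := by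
    apply norm_setIntegral_le_of_norm_le_const
    · simp
    · intro y hy
      rw [norm_mul, Complex.norm_real, Real.norm_eq_abs]
      have h2 : ‖ky δ s (y₀ - y)‖ ≤ 3 / ρ := by
        refine (norm_ky_le hδ s _).trans ?_
        apply div_le_div_of_nonneg_left (by norm_num) hρ
        exact h y (abs_le.mpr hy)
      calc |c y| * ‖ky δ s (y₀ - y)‖ ≤ M * (3 / ρ) := mul_le_mul (hM y) h2 (norm_nonneg _) hM0
        _ = 3 * M / ρ := by ring
  refine h1.trans (le_of_eq ?_)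
  rw [Real.volume_real_Icc_of_le (by linarith)]
  ring

end Pool.Agent.MP018119
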